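import Pool.Agent.Helper59.PR.Defs

/-!
# PR-HOM: API for forms, lifts and iterates (elementary)

Hints: `hm_eq`: `w ≠ 0`, `natDegree p ≤ n`: `hm φ n p u w = w ^ n * p.eval₂ φ (u / w)` (`eval₂_eq_sum_range'`). `lft_ne_zero`: let `lft v = 0`, `v ≠ 0`. If `v.2 ≠ 0` then `A`, `B` have the common root
`v.1 / v.2`, contradiction to `IsCoprime`; if `v.2 = 0` then `v.1 ≠ 0` and (`hm_zero_right`) `A.coeff D = B.coeff D = 0`, contradiction to `max (deg A) (deg B) = D` (if `D = 0`: then `A, B` are constants,
not both zero). `vit_orb`: induction on `n` (`c` changes to `c ^ D * B.eval (y (m+n))`).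
`itA_eval`: `evalRingHom y` and `hm_map`. `itA_coprime`: over a field `K`, pass to the algebraic closure (`IsCoprime` can be checked there: `Polynomial.isCoprime_map`, and a pair of polynomials over an
algebraically closed field without common root is coprime, e.g. `Polynomial.isCoprime_of_...` / a non-unit gcd has a root): a common root `y` gives `vit k (y,1) = 0`, contradiction to
`vit_ne_zero`. `itA_deg`: the value of the degree `D^k` form at `(1,0)`: one shows by induction on `k` that `natDegree (itA k).i ≤ D^k` and `((itA k).1.coeff (D^k), (itA k).2.coeff (D^k)) = vit k (1, 0) ≠ 0`.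
-/

set_option autoImplicit false

namespace Pool.Agent.Helper59.PR

open Polynomial Pool.Agent.Helper59.DX

section ring

variable {R S T : Type*} [CommRing R] [CommRing S] [CommRing T]

theorem hm_map (ψ : S →+* T) (φ : R →+* S) (n : ℕ) (p : R[X]) (u w : S) :
    ψ (hm φ n p u w) = hm (ψ.comp φ) n p (ψ u) (ψ w) := by
  unfold hm
  rw [map_sum]
  refine Finset.sum_congr rfl fun j _ => ?_
  rw [map_mul, map_mul, map_pow, map_pow]
  rfl

theorem hm_map_poly (ψ : R →+* S) (φ : S →+* T) (n : ℕ) (p : R[X]) (u w : T) :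
    hm φ n (p.map ψ) u w = hm (φ.comp ψ) n p u w := by
  unfold hm
  refine Finset.sum_congr rfl fun j _ => ?_
  rw [coeff_map]
  rfl

theorem hm_smul (φ : R →+* S) (n : ℕ) (p : R[X]) (c u w : S) :
    hm φ n p (c * u) (c * w) = c ^ n * hm φ n p u w := by
  unfold hm
  rw [Finset.mul_sum]
  refine Finset.sum_congr rfl fun j hj => ?_
  rw [Finset.mem_range] at hj
  have h1 : c ^ n = c ^ j * c ^ (n - j) := by
    rw [← pow_add]
    congr 1
    omega
  rw [mul_pow, mul_pow, h1]
  ring

theorem hm_one_right (φ : R →+* S) {n : ℕ} {p : R[X]} (hp : p.natDegree ≤ n) (u : S) :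
    hm φ n p u 1 = p.eval₂ φ u := by
  unfold hm
  rw [eval₂_eq_sum_range' φ (Nat.lt_succ_of_le hp)]
  refine Finset.sum_congr rfl fun j _ => ?_
  rw [one_pow, mul_one]

theorem hm_zero_right (φ : R →+* S) (n : ℕ) (p : R[X]) (u : S) :
    hm φ n p u 0 = φ (p.coeff n) * u ^ n := by
  unfold hm
  rw [Finset.sum_range_succ, Nat.sub_self, pow_zero, mul_one, Finset.sum_eq_zero, zero_add]
  intro j hj
  rw [Finset.mem_range] at hj
  rw [zero_pow (by omega), mul_zero]

theorem hm_eq {F : Type*} [Field F] (φ : R →+* F) {n : ℕ} {p : R[X]} (hp : p.natDegree ≤ n) (u : F) {w : F}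
    (hw : w ≠ 0) : hm φ n p u w = w ^ n * p.eval₂ φ (u / w) := by
  rw [← hm_one_right φ hp, ← hm_smul, mul_div_cancel₀ _ hw, mul_one]

theorem lft_map (s : R →+* S) (D : ℕ) (A B : R[X]) (v : R × R) :
    lft D (A.map s) (B.map s) (s v.1, s v.2) = (s (lft D A B v).1, s (lft D A B v).2) := by
  unfold lft
  simp only [hm_map_poly, hm_map, RingHom.id_comp, RingHom.comp_id]

theorem vit_map (s : R →+* S) (D : ℕ) (A B : R[X]) (n : ℕ) (v : R × R) :
    vit D (A.map s) (B.map s) n (s v.1, s v.2) = (s (vit D A B n v).1, s (vit D A B n v).2) := by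
  induction n with
  | zero => rfl
  | succ n ih =>
    have h1 : vit D (A.map s) (B.map s) (n + 1) (s v.1, s v.2) =
        lft D (A.map s) (B.map s) (vit D (A.map s) (B.map s) n (s v.1, s v.2)) :=
      Function.iterate_succ_apply' _ _ _
    have h2 : vit D A B (n + 1) v = lft D A B (vit D A B n v) := Function.iterate_succ_apply' _ _ _
    rw [h1, ih, h2, lft_map]

theorem lft_smul (D : ℕ) (A B : R[X]) (c : R) (v : R × R) :
    lft D A B (c * v.1, c * v.2) = (c ^ D * (lft D A B v).1, c ^ D * (lft D A B v).2) := by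
  unfold lft
  simp only [hm_smul]

theorem vit_succ (D : ℕ) (A B : R[X]) (n : ℕ) (v : R × R) :
    vit D A B (n + 1) v = lft D A B (vit D A B n v) := Function.iterate_succ_apply' _ _ _

theorem vit_add (D : ℕ) (A B : R[X]) (m n : ℕ) (v : R × R) :
    vit D A B (m + n) v = vit D A B m (vit D A B n v) := Function.iterate_add_apply _ _ _ _

theorem itA_zero (D : ℕ) (A B : R[X]) : itA D A B 0 = (X, 1) := rfl

theorem itA_succ (D : ℕ) (A B : R[X]) (k : ℕ) : itA D A B (k + 1) =
    (hm C D A (itA D A B k).1 (itA D A B k).2, hm C D B (itA D A B k).1 (itA D A B k).2) :=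
  Function.iterate_succ_apply' _ _ _

/-- values of the iterates at a point of an extension ring -/
private theorem homx_eval₂ (s : R →+* S) (D : ℕ) (A B : R[X]) (k : ℕ) (y : S) :
    ((itA D A B k).1.eval₂ s y, (itA D A B k).2.eval₂ s y) =
      vit D (A.map s) (B.map s) k (y, 1) := by
  induction k with
  | zero =>
    rw [itA_zero, eval₂_X, eval₂_one]
    rfl
  | succ k ih =>
    have h1 : ∀ p : R[X], (hm C D p (itA D A B k).1 (itA D A B k).2).eval₂ s y =
        hm (RingHom.id S) D (p.map s) ((itA D A B k).1.eval₂ s y) ((itA D A B k).2.eval₂ s y) := by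
      intro p
      have h2 := hm_map (eval₂RingHom s y) C D p (itA D A B k).1 (itA D A B k).2
      rw [coe_eval₂RingHom] at h2
      rw [h2, hm_map_poly, RingHom.id_comp]
      congr 1
      ext a
      simp
    rw [vit_succ, ← ih, itA_succ, h1, h1]
    rfl

theorem itA_eval (D : ℕ) (A B : R[X]) (k : ℕ) (y : R) :
    ((itA D A B k).1.eval y, (itA D A B k).2.eval y) = vit D A B k (y, 1) := by
  have h := homx_eval₂ (RingHom.id R) D A B k y
  rw [map_id, map_id] at h
  exact h

end ring

section field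

variable {K : Type*} [Field K] {D : ℕ} {A B : K[X]}

/-- proportionality of nonzero pairs. -/
theorem cross_eq_zero_iff {v w : K × K} (hv : v ≠ 0) (hw : w ≠ 0) :
    cross v w = 0 ↔ ∃ c, c ≠ 0 ∧ w = (c * v.1, c * v.2) := by
  unfold cross
  constructor
  · intro h
    have h' : v.1 * w.2 = v.2 * w.1 := sub_eq_zero.1 h
    have key : ∃ c, w = (c * v.1, c * v.2) := by
      by_cases h1 : v.1 = 0
      · have h2 : v.2 ≠ 0 := fun h2 => hv (Prod.ext h1 h2)
        refine ⟨w.2 / v.2, Prod.ext ?_ ?_⟩
        · have h3 : v.2 * w.1 = 0 := by rw [← h', h1, zero_mul]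
          have h4 : w.1 = 0 := (mul_eq_zero.1 h3).resolve_left h2
          change w.1 = w.2 / v.2 * v.1
          rw [h1, h4, mul_zero]
        · change w.2 = w.2 / v.2 * v.2
          rw [div_mul_cancel₀ _ h2]
      · refine ⟨w.1 / v.1, Prod.ext ?_ ?_⟩
        · change w.1 = w.1 / v.1 * v.1
          rw [div_mul_cancel₀ _ h1]
        · change w.2 = w.1 / v.1 * v.2
          rw [div_mul_eq_mul_div, eq_div_iff h1, mul_comm w.2, h', mul_comm]
    obtain ⟨c, hc⟩ := key
    refine ⟨c, ?_, hc⟩
    rintro rfl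
    apply hw
    rw [hc]
    simp
  · rintro ⟨c, -, rfl⟩
    ring

theorem lft_ne_zero (hcop : IsCoprime A B) (hD : max A.natDegree B.natDegree = D) {v : K × K} (hv : v ≠ 0) :
    lft D A B v ≠ 0 := by
  intro h
  have hA : hm (RingHom.id K) D A v.1 v.2 = 0 := congrArg Prod.fst h
  have hB : hm (RingHom.id K) D B v.1 v.2 = 0 := congrArg Prod.snd h
  have hAD : A.natDegree ≤ D := hD ▸ le_max_left _ _
  have hBD : B.natDegree ≤ D := hD ▸ le_max_right _ _
  by_cases h2 : v.2 = 0
  · have h1 : v.1 ≠ 0 := fun h1 => hv (Prod.ext h1 h2)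
    rw [h2, hm_zero_right] at hA hB
    have h3 : v.1 ^ D ≠ 0 := pow_ne_zero _ h1
    have hA' : A.coeff D = 0 := (mul_eq_zero.1 hA).resolve_right h3
    have hB' : B.coeff D = 0 := (mul_eq_zero.1 hB).resolve_right h3
    have key : A = 0 ∧ B = 0 := by
      rcases max_choice A.natDegree B.natDegree with h4 | h4
      · rw [hD] at h4
        have h5 : A = 0 := by
          rw [← leadingCoeff_eq_zero, leadingCoeff, ← h4, hA']
        rw [h5, natDegree_zero] at h4
        rw [h4] at hBD hB'
        refine ⟨h5, ?_⟩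
        rw [eq_C_of_natDegree_le_zero hBD, hB', C_0]
      · rw [hD] at h4
        have h5 : B = 0 := by
          rw [← leadingCoeff_eq_zero, leadingCoeff, ← h4, hB']
        rw [h5, natDegree_zero] at h4
        rw [h4] at hAD hA'
        refine ⟨?_, h5⟩
        rw [eq_C_of_natDegree_le_zero hAD, hA', C_0]
    rw [key.1, key.2] at hcop
    exact not_isCoprime_zero_zero hcop
  · rw [hm_eq _ hAD _ h2] at hA
    rw [hm_eq _ hBD _ h2] at hB
    have h3 : v.2 ^ D ≠ 0 := pow_ne_zero _ h2
    have hA' : A.eval (v.1 / v.2) = 0 := (mul_eq_zero.1 hA).resolve_left h3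
    have hB' : B.eval (v.1 / v.2) = 0 := (mul_eq_zero.1 hB).resolve_left h3
    obtain ⟨a, b, hab⟩ := hcop
    have h4 := congrArg (eval (v.1 / v.2)) hab
    rw [eval_add, eval_mul, eval_mul, hA', hB', mul_zero, mul_zero, add_zero, eval_one] at h4
    exact zero_ne_one h4

theorem vit_ne_zero (hcop : IsCoprime A B) (hD : max A.natDegree B.natDegree = D) (n : ℕ) {v : K × K}
    (hv : v ≠ 0) : vit D A B n v ≠ 0 := by
  induction n with
  | zero => exact hv
  | succ n ih =>
    rw [vit_succ]
    exact lft_ne_zero hcop hD ih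

private theorem homx_vit_smul (n : ℕ) (c : K) (v : K × K) :
    vit D A B n (c * v.1, c * v.2) =
      (c ^ D ^ n * (vit D A B n v).1, c ^ D ^ n * (vit D A B n v).2) := by
  induction n with
  | zero =>
    rw [pow_zero, pow_one]
    rfl
  | succ n ih =>
    rw [vit_succ, ih, lft_smul, vit_succ, ← pow_mul, pow_succ]

/-- proportional points have proportional images. -/
theorem cross_vit {v w : K × K} (hv : v ≠ 0) (hw : w ≠ 0) (h : cross v w = 0) (n : ℕ) :
    cross (vit D A B n v) (vit D A B n w) = 0 := by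
  obtain ⟨c, -, rfl⟩ := (cross_eq_zero_iff hv hw).1 h
  rw [homx_vit_smul]
  unfold cross
  ring

theorem vit_orb (hD : max A.natDegree B.natDegree ≤ D) {y : ℕ → K} (hy : IsOrb A B y) (m n : ℕ) :
    ∃ c, c ≠ 0 ∧ vit D A B n (y m, 1) = (c * y (m + n), c) := by
  have hAD : A.natDegree ≤ D := (le_max_left _ _).trans hD
  have hBD : B.natDegree ≤ D := (le_max_right _ _).trans hD
  induction n with
  | zero =>
    refine ⟨1, one_ne_zero, ?_⟩
    rw [one_mul]
    rfl
  | succ n ih =>
    obtain ⟨c, hc, h⟩ := ih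
    refine ⟨c ^ D * B.eval (y (m + n)), mul_ne_zero (pow_ne_zero _ hc) (hy (m + n)).1, ?_⟩
    rw [vit_succ, h]
    have h1 := lft_smul D A B c (y (m + n), 1)
    simp only [mul_one] at h1
    rw [h1]
    have hA : hm (RingHom.id K) D A (y (m + n)) 1 = A.eval (y (m + n)) := hm_one_right _ hAD _
    have hB : hm (RingHom.id K) D B (y (m + n)) 1 = B.eval (y (m + n)) := hm_one_right _ hBD _
    refine Prod.ext ?_ ?_
    · change c ^ D * hm (RingHom.id K) D A (y (m + n)) 1 = _
      rw [hA, ← (hy (m + n)).2]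
      change _ = c ^ D * eval (y (m + n)) B * y (m + n + 1)
      ring
    · change c ^ D * hm (RingHom.id K) D B (y (m + n)) 1 = _
      rw [hB]

theorem itA_coprime (hcop : IsCoprime A B) (hD : max A.natDegree B.natDegree = D) (k : ℕ) :
    IsCoprime (itA D A B k).1 (itA D A B k).2 := by
  rw [isCoprime_iff_aeval_ne_zero_of_isAlgClosed K (AlgebraicClosure K)]
  intro a
  set s : K →+* AlgebraicClosure K := algebraMap K (AlgebraicClosure K) with hs
  have h1 : IsCoprime (A.map s) (B.map s) := hcop.map (mapRingHom s)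
  have h2 : max (A.map s).natDegree (B.map s).natDegree = D := by
    rw [natDegree_map, natDegree_map, hD]
  have h3 : vit D (A.map s) (B.map s) k (a, 1) ≠ 0 := by
    refine vit_ne_zero h1 h2 k fun h => ?_
    exact one_ne_zero (congrArg Prod.snd h)
  rw [← homx_eval₂] at h3
  by_contra hc
  push Not at hc
  exact h3 (Prod.ext hc.1 hc.2)

private theorem homx_top (k : ℕ) : (itA D A B k).1.natDegree ≤ D ^ k ∧
    (itA D A B k).2.natDegree ≤ D ^ k ∧
    ((itA D A B k).1.coeff (D ^ k), (itA D A B k).2.coeff (D ^ k)) = vit D A B k (1, 0) := by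
  induction k with
  | zero =>
    rw [itA_zero, pow_zero]
    refine ⟨natDegree_X_le, by simp, ?_⟩
    rw [coeff_X_one, coeff_one]
    simp [vit]
  | succ k ih =>
    obtain ⟨ih1, ih2, ih3⟩ := ih
    set P := (itA D A B k).1 with hP
    set Q := (itA D A B k).2 with hQ
    set n : ℕ := D ^ k with hn
    have hexp : ∀ j ∈ Finset.range (D + 1), D ^ (k + 1) = j * n + (D - j) * n := by
      intro j hj
      rw [Finset.mem_range] at hj
      rw [← add_mul, pow_succ, mul_comm]
      congr 1
      omega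
    have hterm : ∀ j ∈ Finset.range (D + 1), (P ^ j * Q ^ (D - j)).natDegree ≤ D ^ (k + 1) := by
      intro j hj
      rw [hexp j hj]
      exact natDegree_mul_le.trans (add_le_add (natDegree_pow_le_of_le j ih1)
        (natDegree_pow_le_of_le (D - j) ih2))
    have hdeg : ∀ p : K[X], (hm C D p P Q).natDegree ≤ D ^ (k + 1) := by
      intro p
      unfold hm
      refine natDegree_sum_le_of_forall_le _ _ fun j hj => ?_
      rw [mul_assoc]
      exact (natDegree_C_mul_le _ _).trans (hterm j hj)
    have hco : ∀ p : K[X], (hm C D p P Q).coeff (D ^ (k + 1)) =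
        hm (RingHom.id K) D p (P.coeff n) (Q.coeff n) := by
      intro p
      unfold hm
      rw [finsetSum_coeff]
      refine Finset.sum_congr rfl fun j hj => ?_
      rw [mul_assoc, coeff_C_mul, hexp j hj, coeff_mul_add_eq_of_natDegree_le
        (natDegree_pow_le_of_le j ih1) (natDegree_pow_le_of_le (D - j) ih2),
        coeff_pow_of_natDegree_le ih1, coeff_pow_of_natDegree_le ih2, mul_assoc]
      rfl
    rw [itA_succ]
    refine ⟨hdeg A, hdeg B, ?_⟩
    rw [vit_succ, ← ih3]
    change ((hm C D A P Q).coeff (D ^ (k + 1)), (hm C D B P Q).coeff (D ^ (k + 1))) = _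
    rw [hco, hco]
    rfl

theorem itA_deg (hcop : IsCoprime A B) (hD : max A.natDegree B.natDegree = D) (k : ℕ) :
    max (itA D A B k).1.natDegree (itA D A B k).2.natDegree = D ^ k := by
  obtain ⟨h1, h2, h3⟩ := homx_top (D := D) (A := A) (B := B) k
  refine le_antisymm (max_le h1 h2) ?_
  have h4 : vit D A B k ((1 : K), (0 : K)) ≠ 0 := by
    refine vit_ne_zero hcop hD k fun h => ?_
    exact one_ne_zero (congrArg Prod.fst h)
  rw [← h3] at h4
  by_cases h5 : (itA D A B k).1.coeff (D ^ k) = 0
  · have h6 : (itA D A B k).2.coeff (D ^ k) ≠ 0 := fun h6 => h4 (Prod.ext h5 h6)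
    exact (le_natDegree_of_ne_zero h6).trans (le_max_right _ _)
  · exact (le_natDegree_of_ne_zero h5).trans (le_max_left _ _)

end field

end Pool.Agent.Helper59.PR
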