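import Pool.Agent.Helper59.DX.DegX
import Pool.Agent.Helper59.PR.Hom

/-!
# PR-CLASSES: the second coordinate is not preperiodic

`finite_class` PROOF. Suppose infinitely many `n`. For such `n`: `V n = c v` with `c ≠ 0` (`cross_eq_zero_iff`), so by `hm_smul` `hm (evalRingHom (x n)) d P v.1 v.2 = 0`, `d = P.natDegree`. The polynomial
`h = ∑_{j≤d} P.coeff j * C (v.1^j * v.2^(d-j)) ∈ K[X]` (`= hm (RingHom.id K[X]) d P (C v.1) (C v.2)`, evaluate with `hm_map`) has infinitely many roots `x n`, so `h = 0`. If `v.2 = 0` then `h = P.coeff d * C (v.1^d)`, so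
`P.leadingCoeff = 0`, contradiction. If `v.2 ≠ 0`, `t = v.1 / v.2`: `h = C (v.2^d) * P.eval (C t)` (`hm_eq`-like identity in `K[X]`; scale by `C v.2`: `hm_smul`), so `P.eval (C t) = 0`, `X - C (C t) ∣ P`
(`dvd_iff_isRoot`), `P` is irreducible, so associated to `X - C (C t)`, which has `degX = 0`: contradiction to `1 ≤ degX P` (`degX_mul` and units have `degX = 0`: `isUnit_iff_deg`).

`not_preperiodic` PROOF. If `cross (V m) (V n) = 0` for some `m < n` then by `cross_vit` (`V (m+i) = vit i (V m)`) `V (m+i) ∼ V (n+i)` for all `i`, so every `V l`, `l ≥ m`, is proportional to one of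
`V m, ..., V (n-1)` (strong induction; proportionality is transitive for nonzero vectors). The infinite set `hinf` minus `{l < m}` is covered by the finitely many sets of `finite_class` for `v = V m, .., V (n-1)`: contradiction.
`exists_shift`: at most one `n` has `(V n).2 = 0` (two such `V n` are proportional to `(1,0)`).
-/

set_option autoImplicit false

namespace Pool.Agent.Helper59.PR

open Polynomial Pool.Agent.Helper59.DX

variable {K : Type*} [Field K] {P : K[X][X]} {x : ℕ → K}

private theorem cls_degX_lin (t : K) : degX (X - C (C t) : K[X][X]) = 0 := by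
  apply Nat.le_zero.1
  apply degX_le
  intro b
  rw [coeff_sub, coeff_X, coeff_C]
  by_cases h1 : 1 = b
  · subst h1
    simp
  · rw [if_neg h1]
    by_cases h2 : b = 0
    · rw [if_pos h2, zero_sub, natDegree_neg, natDegree_C]
    · rw [if_neg h2, sub_zero, natDegree_zero]

private theorem cls_cross_symm {v w : K × K} (h : cross v w = 0) : cross w v = 0 := by
  unfold cross at *
  linear_combination -h

private theorem cls_cross_trans {u v w : K × K} (hu : u ≠ 0) (hv : v ≠ 0) (hw : w ≠ 0)
    (h1 : cross u v = 0) (h2 : cross v w = 0) : cross u w = 0 := by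
  obtain ⟨c, hc, e1⟩ := (cross_eq_zero_iff hu hv).1 h1
  obtain ⟨c', hc', e2⟩ := (cross_eq_zero_iff hv hw).1 h2
  rw [e2, e1]
  unfold cross
  ring

theorem finite_class (hP : Irreducible P) (hPX : 1 ≤ degX P) (hx : Function.Injective x) {V : ℕ → K × K}
    (hV : ∀ n, V n ≠ 0) {v : K × K} (hv : v ≠ 0) :
    {n | hm (evalRingHom (x n)) P.natDegree P (V n).1 (V n).2 = 0 ∧ cross (V n) v = 0}.Finite := by
  by_contra hinf
  have hinf' : {n | hm (evalRingHom (x n)) P.natDegree P (V n).1 (V n).2 = 0 ∧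
      cross (V n) v = 0}.Infinite := hinf
  set d := P.natDegree with hd
  set h : K[X] := hm (RingHom.id K[X]) d P (C v.1) (C v.2) with hh
  have hroot : ∀ n ∈ {n | hm (evalRingHom (x n)) d P (V n).1 (V n).2 = 0 ∧ cross (V n) v = 0},
      h.IsRoot (x n) := by
    rintro n ⟨h1, h2⟩
    obtain ⟨c, hc, e⟩ := (cross_eq_zero_iff (hV n) hv).1 h2
    have h3 : evalRingHom (x n) h = hm (evalRingHom (x n)) d P v.1 v.2 := by
      rw [hh, hm_map]
      simp
    have h4 : hm (evalRingHom (x n)) d P v.1 v.2 = 0 := by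
      have e1 : v.1 = c * (V n).1 := congrArg Prod.fst e
      have e2 : v.2 = c * (V n).2 := congrArg Prod.snd e
      rw [e1, e2, hm_smul, h1, mul_zero]
    rw [h4] at h3
    exact h3
  have hzero : h = 0 := by
    refine eq_zero_of_infinite_isRoot h ?_
    refine (hinf'.image hx.injOn).mono ?_
    rintro _ ⟨n, hn, rfl⟩
    exact hroot n hn
  by_cases h2 : v.2 = 0
  · have h1 : v.1 ≠ 0 := by
      intro h1
      exact hv (Prod.ext h1 h2)
    rw [h2, C_0, hm_zero_right] at hh
    rw [hzero] at hh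
    have h3 : (C v.1 : K[X]) ^ d ≠ 0 := pow_ne_zero _ (C_ne_zero.2 h1)
    have h4 : P.coeff d = 0 := by
      have := (mul_eq_zero.1 hh.symm).resolve_right h3
      simpa using this
    rw [hd, coeff_natDegree, leadingCoeff_eq_zero] at h4
    exact hP.ne_zero h4
  · set t := v.1 / v.2 with ht
    have e1 : (C v.1 : K[X]) = C v.2 * C t := by
      rw [← C_mul, ht, mul_div_cancel₀ _ h2]
    have e2 : hm (RingHom.id K[X]) d P (C v.1) (C v.2) =
        C v.2 ^ d * hm (RingHom.id K[X]) d P (C t) 1 := by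
      rw [← hm_smul, mul_one, ← e1]
    rw [← hh, hzero, hm_one_right _ le_rfl] at e2
    have h3 : P.eval (C t) = 0 := by
      have h4 : (C v.2 : K[X]) ^ d ≠ 0 := pow_ne_zero _ (C_ne_zero.2 h2)
      have h5 := (mul_eq_zero.1 e2.symm).resolve_left h4
      simpa [eval₂_id] using h5
    have h4 : (X - C (C t)) ∣ P := dvd_iff_isRoot.2 h3
    obtain ⟨Q, hQ⟩ := h4
    have hlin : ¬ IsUnit (X - C (C t) : K[X][X]) := not_isUnit_X_sub_C _
    have hQu : IsUnit Q := (hP.isUnit_or_isUnit hQ).resolve_left hlin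
    have hl0 : (X - C (C t) : K[X][X]) ≠ 0 := X_sub_C_ne_zero _
    have hQ0 : Q ≠ 0 := hQu.ne_zero
    have h5 := (isUnit_iff_deg hQ0).1 hQu
    rw [hQ, degX_mul hl0 hQ0, cls_degX_lin, h5.1] at hPX
    omega

theorem not_preperiodic (hP : Irreducible P) (hPX : 1 ≤ degX P) (hx : Function.Injective x) {D : ℕ} {A B : K[X]}
    (hcop : IsCoprime A B) (hD : max A.natDegree B.natDegree = D) {v : K × K} (hv : v ≠ 0)
    (hinf : {n | hm (evalRingHom (x n)) P.natDegree P (vit D A B n v).1 (vit D A B n v).2 = 0}.Infinite)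
    {m n : ℕ} (hmn : m < n) : cross (vit D A B m v) (vit D A B n v) ≠ 0 := by
  intro hc
  have hV : ∀ l, vit D A B l v ≠ 0 := fun l => vit_ne_zero hcop hD l hv
  have key : ∀ l, m ≤ l → ∃ r, m ≤ r ∧ r < n ∧ cross (vit D A B l v) (vit D A B r v) = 0 := by
    intro l
    induction l using Nat.strong_induction_on with
    | _ l ih =>
      intro hl
      by_cases hln : l < n
      · refine ⟨l, hl, hln, ?_⟩
        unfold cross
        ring
      · push Not at hln
        obtain ⟨i, rfl⟩ : ∃ i, l = i + n := ⟨l - n, by omega⟩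
        obtain ⟨r, hr1, hr2, hr3⟩ := ih (i + m) (by omega) (by omega)
        refine ⟨r, hr1, hr2, ?_⟩
        have h1 : cross (vit D A B (i + m) v) (vit D A B (i + n) v) = 0 := by
          rw [vit_add, vit_add]
          exact cross_vit (hV m) (hV n) hc i
        exact cls_cross_trans (hV _) (hV _) (hV _) (cls_cross_symm h1) hr3
  refine hinf ?_
  have hfin : ({l | l < m} ∪ ⋃ r ∈ Set.Iio n, {l | hm (evalRingHom (x l)) P.natDegree P
      (vit D A B l v).1 (vit D A B l v).2 = 0 ∧
        cross (vit D A B l v) (vit D A B r v) = 0}).Finite := by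
    refine (Set.finite_lt_nat m).union ?_
    refine (Set.finite_Iio n).biUnion fun r _ => ?_
    exact finite_class hP hPX hx hV (hV r)
  refine hfin.subset ?_
  intro l hl
  by_cases hlm : l < m
  · exact Or.inl hlm
  · right
    obtain ⟨r, -, hr2, hr3⟩ := key l (by omega)
    exact Set.mem_biUnion hr2 ⟨hl, hr3⟩

theorem exists_shift (hP : Irreducible P) (hPX : 1 ≤ degX P) (hx : Function.Injective x) {D : ℕ} {A B : K[X]}
    (hcop : IsCoprime A B) (hD : max A.natDegree B.natDegree = D) {v : K × K} (hv : v ≠ 0)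
    (hinf : {n | hm (evalRingHom (x n)) P.natDegree P (vit D A B n v).1 (vit D A B n v).2 = 0}.Infinite) :
    ∃ n₁, ∀ n, n₁ ≤ n → (vit D A B n v).2 ≠ 0 := by
  by_cases h : ∃ n₀, (vit D A B n₀ v).2 = 0
  · obtain ⟨n₀, h0⟩ := h
    refine ⟨n₀ + 1, fun n hn h1 => ?_⟩
    refine not_preperiodic hP hPX hx hcop hD hv hinf (m := n₀) (n := n) (by omega) ?_
    unfold cross
    rw [h0, h1]
    ring
  · push Not at h
    exact ⟨0, fun n _ => h n⟩

end Pool.Agent.Helper59.PR
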