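import Pool.Agent.Helper59.DX.Defs

/-!
# PR-COPSPREAD: coprimality and degree spread out

PROOF. `k = FractionRing A → K` (by `IsFractionRing.lift hinj`): `IsCoprime` over `K` gives `IsCoprime` over `k` (`Polynomial.isCoprime_map` for the field extension `k → K`), `U F + V G = 1` in `k[X]`; clear denominators
(`IsLocalization.integerNormalization` or `IsLocalization.exist_integer_multiples`): `U' F + V' G = C β` in `A[X]`, `β ≠ 0`. Let `γ` be the leading coefficient of the one of `F, G` of larger degree (it is
nonzero: if `max = 0` and that polynomial is zero choose the other one; they are not both zero). `α = β * γ`. If `s α ≠ 0`: `(U'.map s) (F.map s) + (V'.map s) (G.map s) = C (s β)`, a unit; the larger degree is preserved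
(`natDegree_map_of_leadingCoeff_ne_zero`), the other one does not grow.
-/

set_option autoImplicit false

namespace Pool.Agent.Helper59.PR

open Polynomial

private theorem cop_clear {A K : Type*} [CommRing A] [IsDomain A] [Field K] [Algebra A K]
    (hinj : Function.Injective (algebraMap A K)) (F G : A[X])
    (h : IsCoprime (F.map (algebraMap A K)) (G.map (algebraMap A K))) :
    ∃ (U V : A[X]) (β : A), β ≠ 0 ∧ U * F + V * G = C β := by
  let ι : FractionRing A →+* K := IsFractionRing.lift hinj
  have hι : ∀ P : A[X], (P.map (algebraMap A (FractionRing A))).map ι =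
      P.map (algebraMap A K) := by
    intro P
    rw [Polynomial.map_map]
    congr 1
    ext a
    exact IsFractionRing.lift_algebraMap hinj a
  rw [← hι F, ← hι G, Polynomial.isCoprime_map] at h
  obtain ⟨a, b, hab⟩ := h
  obtain ⟨b1, hb1m, hb1⟩ := IsLocalization.integerNormalization_spec (nonZeroDivisors A) a
  obtain ⟨b2, hb2m, hb2⟩ := IsLocalization.integerNormalization_spec (nonZeroDivisors A) b
  refine ⟨C (b2 : A) * IsLocalization.integerNormalization (nonZeroDivisors A) a,
    C (b1 : A) * IsLocalization.integerNormalization (nonZeroDivisors A) b, b1 * b2,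
    mul_ne_zero (nonZeroDivisors.ne_zero hb1m) (nonZeroDivisors.ne_zero hb2m), ?_⟩
  apply Polynomial.map_injective _ (IsFractionRing.injective A (FractionRing A))
  rw [Polynomial.map_add, Polynomial.map_mul, Polynomial.map_mul, Polynomial.map_mul,
    Polynomial.map_mul, hb1, hb2, Polynomial.map_C, Polynomial.map_C, Polynomial.map_C,
    map_mul, C_mul]
  rw [← algebraMap_smul (FractionRing A) (b1 : A) a, ← algebraMap_smul (FractionRing A) (b2 : A) b,
    smul_eq_C_mul, smul_eq_C_mul]
  linear_combination (C ((algebraMap A (FractionRing A)) (b1 : A)) *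
    C ((algebraMap A (FractionRing A)) (b2 : A))) * hab

private theorem cop_one {A : Type*} [CommRing A] [IsDomain A] {F G U V : A[X]} {β : A}
    (hF : F ≠ 0) (hle : G.natDegree ≤ F.natDegree) (hβ : β ≠ 0) (hUV : U * F + V * G = C β) :
    ∃ α : A, α ≠ 0 ∧ ∀ (L : Type) [Field L] (s : A →+* L), s α ≠ 0 → IsCoprime (F.map s) (G.map s) ∧
      max (F.map s).natDegree (G.map s).natDegree = max F.natDegree G.natDegree := by
  refine ⟨β * F.leadingCoeff, mul_ne_zero hβ (leadingCoeff_ne_zero.2 hF), ?_⟩
  intro L _ s hs
  rw [map_mul] at hs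
  have h1 : s β ≠ 0 := left_ne_zero_of_mul hs
  have h2 : s F.leadingCoeff ≠ 0 := right_ne_zero_of_mul hs
  constructor
  · refine ⟨C (s β)⁻¹ * U.map s, C (s β)⁻¹ * V.map s, ?_⟩
    have h3 := congrArg (Polynomial.map s) hUV
    rw [Polynomial.map_add, Polynomial.map_mul, Polynomial.map_mul, Polynomial.map_C] at h3
    rw [mul_assoc, mul_assoc, ← mul_add, h3, ← C_mul, inv_mul_cancel₀ h1, C_1]
  · have h3 : (F.map s).natDegree = F.natDegree := natDegree_map_of_leadingCoeff_ne_zero s h2
    have h4 : (G.map s).natDegree ≤ G.natDegree := natDegree_map_le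
    rw [h3, max_eq_left hle, max_eq_left (h4.trans hle)]

theorem cop_spread {A K : Type*} [CommRing A] [IsDomain A] [Field K] [Algebra A K]
    (hinj : Function.Injective (algebraMap A K)) (F G : A[X])
    (h : IsCoprime (F.map (algebraMap A K)) (G.map (algebraMap A K))) :
    ∃ α : A, α ≠ 0 ∧ ∀ (L : Type) [Field L] (s : A →+* L), s α ≠ 0 → IsCoprime (F.map s) (G.map s) ∧
      max (F.map s).natDegree (G.map s).natDegree = max F.natDegree G.natDegree := by
  obtain ⟨U, V, β, hβ, hUV⟩ := cop_clear hinj F G h
  by_cases hF : F = 0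
  · have hG : G ≠ 0 := by
      rintro rfl
      rw [hF, mul_zero, mul_zero, add_zero] at hUV
      exact hβ (C_eq_zero.1 hUV.symm)
    obtain ⟨α, hα, H⟩ := cop_one (F := G) (G := F) (U := V) (V := U) hG
      (by rw [hF, natDegree_zero]; exact Nat.zero_le _) hβ (by rw [add_comm]; exact hUV)
    exact ⟨α, hα, fun L _ s hs => ⟨(H L s hs).1.symm, by
      rw [max_comm, (H L s hs).2, max_comm]⟩⟩
  by_cases hG : G = 0
  · exact cop_one hF (by rw [hG, natDegree_zero]; exact Nat.zero_le _) hβ hUV
  rcases le_total G.natDegree F.natDegree with hle | hle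
  · exact cop_one hF hle hβ hUV
  · obtain ⟨α, hα, H⟩ := cop_one hG hle hβ (by rw [add_comm]; exact hUV)
    exact ⟨α, hα, fun L _ s hs => ⟨(H L s hs).1.symm, by
      rw [max_comm, (H L s hs).2, max_comm]⟩⟩

end Pool.Agent.Helper59.PR
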