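import Pool.Agent.Helper59.DX.Bnd
import Pool.Agent.Helper59.PR.Classes
import Pool.Agent.Helper59.PR.CopSpread

/-!
# PR-BND: uniform bound of the degree over `ℂ` (polynomial, rational)
-/

set_option autoImplicit false

namespace Pool.Agent.Helper59.PR

open Polynomial Pool.Agent.Helper59.DX

/-- a form of degree `P.natDegree` at a vector proportional to `(y, 1)`. -/
theorem hm_evalEval {K : Type*} [Field K] (P : K[X][X]) (x c y : K) :
    hm (evalRingHom x) P.natDegree P (c * y) c = c ^ P.natDegree * P.evalEval x y := by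
  have h1 := hm_smul (evalRingHom x) P.natDegree P c y 1
  rw [mul_one] at h1
  rw [h1, hm_one_right _ le_rfl]
  congr 1
  rw [← eval_map, eval_map_evalRingHom]

theorem degY_bound_R (hN : NFTStatement) (d D1 D2 : ℕ) (hd : 2 ≤ d) : ∃ N : ℕ, ∀ (f A B : ℂ[X])
    (P Q : ℂ[X][X]) (a : ℂ) (y : ℕ → ℂ) (k : ℕ), f.natDegree = d → IsCoprime A B →
    max A.natDegree B.natDegree = d → IsOrb A B y → (Function.Injective fun n => orb f n a) →
    Irreducible P → 1 ≤ degX P → degX P ≤ D1 → 1 ≤ P.natDegree → P.natDegree ≤ D2 → Irreducible Q →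
    {n | Q.evalEval (orb f n a) (y n) = 0 ∧ P.evalEval (orb f (n + k) a) (y (n + k)) = 0}.Infinite →
    Q.natDegree ≤ N := by
  obtain ⟨N, hN⟩ := hN d D1 D2 hd
  refine ⟨N, fun f A B P Q a y k hf hcop hD hy ha hP hPX1 hPX hPY1 hPY hQ hinf => ?_⟩
  -- a finitely generated ring of definition
  obtain ⟨R, hR, f', A', P', Q', a', y', hf', hA', hP', hQ', ha', hy'⟩ :=
    exists_model f A P Q a (y 0)
  obtain ⟨R₂, hR₂, B₂, -, -, -, -, -, hB₂, -, -, -, -, -⟩ := exists_model B 0 0 0 0 0
  let T : Subalgebra ℚ ℂ := R ⊔ R₂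
  have hRT : R ≤ T := le_sup_left
  have hR₂T : R₂ ≤ T := le_sup_right
  have hT : Algebra.FiniteType ℚ T := by
    have h1 : R.FG := R.fg_iff_finiteType.2 hR
    have h2 : R₂.FG := R₂.fg_iff_finiteType.2 hR₂
    exact T.fg_iff_finiteType.1 (h1.sup h2)
  let i1 : R →+* T := (Subalgebra.inclusion hRT).toRingHom
  let i2 : R₂ →+* T := (Subalgebra.inclusion hR₂T).toRingHom
  have hi1 : (algebraMap T ℂ).comp i1 = algebraMap R ℂ := by ext x; rfl
  have hi2 : (algebraMap T ℂ).comp i2 = algebraMap R₂ ℂ := by ext x; rfl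
  have hinj : Function.Injective (algebraMap T ℂ) := Subtype.val_injective
  obtain ⟨f'', hf''⟩ : ∃ f'' : T[X], f''.map (algebraMap T ℂ) = f := ⟨f'.map i1, by
    rw [Polynomial.map_map, hi1, hf']⟩
  obtain ⟨A'', hA''⟩ : ∃ A'' : T[X], A''.map (algebraMap T ℂ) = A := ⟨A'.map i1, by
    rw [Polynomial.map_map, hi1, hA']⟩
  obtain ⟨B'', hB''⟩ : ∃ B'' : T[X], B''.map (algebraMap T ℂ) = B := ⟨B₂.map i2, by
    rw [Polynomial.map_map, hi2, hB₂]⟩
  obtain ⟨P'', hP''⟩ : ∃ P'' : T[X][X], P''.map (mapRingHom (algebraMap T ℂ)) = P :=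
    ⟨P'.map (mapRingHom i1), by
      rw [Polynomial.map_map, mapRingHom_comp, hi1, hP']⟩
  obtain ⟨Q'', hQ''⟩ : ∃ Q'' : T[X][X], Q''.map (mapRingHom (algebraMap T ℂ)) = Q :=
    ⟨Q'.map (mapRingHom i1), by
      rw [Polynomial.map_map, mapRingHom_comp, hi1, hQ']⟩
  obtain ⟨a'', ha''⟩ : ∃ a'' : T, algebraMap T ℂ a'' = a := ⟨i1 a', by
    rw [← ha', ← hi1]; rfl⟩
  obtain ⟨b'', hb''⟩ : ∃ b'' : T, algebraMap T ℂ b'' = y 0 := ⟨i1 y', by
    rw [← hy', ← hi1]; rfl⟩
  -- the elements to be kept nonzero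
  obtain ⟨α₁, h1, hs1⟩ := spread hinj P'' (by rw [hP'']; exact hP)
  obtain ⟨α₂, h2, hs2⟩ := spread hinj Q'' (by rw [hQ'']; exact hQ)
  obtain ⟨α₃, h3, hs3⟩ := cop_spread hinj A'' B'' (by rw [hA'', hB'']; exact hcop)
  have hdf : f''.natDegree = d := by rw [← hf, ← hf'', natDegree_map_eq_of_injective hinj]
  have hdD : max A''.natDegree B''.natDegree = d := by
    rw [← hD, ← hA'', ← hB'', natDegree_map_eq_of_injective hinj, natDegree_map_eq_of_injective hinj]
  have hoa : ∀ n, algebraMap T ℂ (orb f'' n a'') = orb f n a := fun n => by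
    rw [← orb_map, hf'', ha'']
  have hov : ∀ n, ∃ c, c ≠ 0 ∧ algebraMap T ℂ (vit d A'' B'' n (b'', 1)).1 = c * y n ∧
      algebraMap T ℂ (vit d A'' B'' n (b'', 1)).2 = c := by
    intro n
    have e1 := vit_map (algebraMap T ℂ) d A'' B'' n (b'', 1)
    obtain ⟨c, hc, e2⟩ := vit_orb (D := d) (by omega) hy 0 n
    simp only [map_one, hA'', hB'', hb''] at e1
    rw [e1, zero_add, Prod.ext_iff] at e2
    exact ⟨c, hc, e2⟩
  have ha2 : Function.Injective fun n => orb f'' n a'' := fun m n hmn => by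
    apply ha
    simp only at hmn ⊢
    rw [← hoa, ← hoa, hmn]
  obtain ⟨K, _, _, s, hα, hlf, horb⟩ := lemmaL f'' (by omega) a'' ha2 (α₁ * α₂ * α₃)
    (mul_ne_zero (mul_ne_zero h1 h2) h3)
  rw [map_mul, map_mul] at hα
  have hα1 : s α₁ ≠ 0 := fun h => hα (by rw [h]; simp)
  have hα2 : s α₂ ≠ 0 := fun h => hα (by rw [h]; simp)
  have hα3 : s α₃ ≠ 0 := fun h => hα (by rw [h]; simp)
  obtain ⟨hPi, hPx, hPy⟩ := hs1 K s hα1
  obtain ⟨hQi, hQx, hQy⟩ := hs2 K s hα2
  obtain ⟨hcs, hDs⟩ := hs3 K s hα3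
  rw [hdD] at hDs
  have e1 : degX P'' = degX P := by rw [← hP'', degX_map_of_injective _ hinj]
  have e2 : P''.natDegree = P.natDegree := by rw [← hP'', natDegree_map_of_injective _ hinj]
  have e3 : Q''.natDegree = Q.natDegree := by rw [← hQ'', natDegree_map_of_injective _ hinj]
  have irr : ∀ {Z : K[X][X]}, AbsIrr Z → Irreducible Z := fun {Z} h => by
    have := h K (RingHom.id K)
    rwa [mapRingHom_id, Polynomial.map_id] at this
  -- vanishing at a point of the orbit, in homogeneous form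
  have key : ∀ (Z : T[X][X]) (n : ℕ),
      (Z.map (mapRingHom (algebraMap T ℂ))).evalEval (orb f n a) (y n) = 0 →
      hm (evalRingHom (orb f'' n a'')) Z.natDegree Z (vit d A'' B'' n (b'', 1)).1
        (vit d A'' B'' n (b'', 1)).2 = 0 := by
    intro Z n h
    obtain ⟨c, hc, hc1, hc2⟩ := hov n
    apply hinj
    rw [hm_map, map_zero]
    have e4 : (algebraMap T ℂ).comp (evalRingHom (orb f'' n a'')) =
        (evalRingHom (orb f n a)).comp (mapRingHom (algebraMap T ℂ)) := by
      refine RingHom.ext fun p => ?_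
      simp only [RingHom.comp_apply, coe_evalRingHom, coe_mapRingHom]
      rw [← hoa, eval_map_apply]
    rw [e4, ← hm_map_poly, hc1, hc2]
    have e5 : Z.natDegree = (Z.map (mapRingHom (algebraMap T ℂ))).natDegree :=
      (natDegree_map_of_injective _ hinj Z).symm
    rw [e5, hm_evalEval, h, mul_zero]
  have hV : ∀ n, (s (vit d A'' B'' n (b'', 1)).1, s (vit d A'' B'' n (b'', 1)).2) =
      vit d (A''.map s) (B''.map s) n (s b'', 1) := by
    intro n
    have := vit_map s d A'' B'' n (b'', 1)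
    simp only [map_one] at this
    exact this.symm
  have key2 : ∀ (Z : T[X][X]), (Z.map (mapRingHom s)).natDegree = Z.natDegree → ∀ n : ℕ,
      (Z.map (mapRingHom (algebraMap T ℂ))).evalEval (orb f n a) (y n) = 0 →
      hm (evalRingHom (orb (f''.map s) n (s a''))) (Z.map (mapRingHom s)).natDegree (Z.map (mapRingHom s))
        (vit d (A''.map s) (B''.map s) n (s b'', 1)).1
        (vit d (A''.map s) (B''.map s) n (s b'', 1)).2 = 0 := by
    intro Z hZ n h
    have h4 := congrArg s (key Z n h)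
    rw [hm_map, map_zero] at h4
    have e4 : s.comp (evalRingHom (orb f'' n a'')) =
        (evalRingHom (orb (f''.map s) n (s a''))).comp (mapRingHom s) := by
      refine RingHom.ext fun p => ?_
      simp only [RingHom.comp_apply, coe_evalRingHom, coe_mapRingHom]
      rw [orb_map, eval_map_apply]
    rw [e4, ← hm_map_poly] at h4
    rw [← hV n, hZ]
    exact h4
  have hinfP : {n | hm (evalRingHom (orb (f''.map s) n (s a''))) (P''.map (mapRingHom s)).natDegree
      (P''.map (mapRingHom s)) (vit d (A''.map s) (B''.map s) n (s b'', 1)).1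
      (vit d (A''.map s) (B''.map s) n (s b'', 1)).2 = 0}.Infinite := by
    have h4 : ((fun n => n + k) '' {n | Q.evalEval (orb f n a) (y n) = 0 ∧
        P.evalEval (orb f (n + k) a) (y (n + k)) = 0}).Infinite :=
      hinf.image (fun m _ n _ h => by simpa using h)
    refine h4.mono ?_
    rintro _ ⟨n, hn, rfl⟩
    exact key2 P'' hPy (n + k) (by rw [hP'']; exact hn.2)
  have hv0 : ((s b'', 1) : K × K) ≠ 0 := fun h => one_ne_zero (congrArg Prod.snd h)
  obtain ⟨n₁, hn₁⟩ := exists_shift (irr hPi) (by rw [hPx, e1]; exact hPX1) horb hcs hDs hv0 hinfP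
  let Y : ℕ → K := fun n => (vit d (A''.map s) (B''.map s) (n + n₁) (s b'', 1)).1 /
    (vit d (A''.map s) (B''.map s) (n + n₁) (s b'', 1)).2
  have hYv : ∀ n, vit d (A''.map s) (B''.map s) (n + n₁) (s b'', 1) =
      ((vit d (A''.map s) (B''.map s) (n + n₁) (s b'', 1)).2 * Y n,
        (vit d (A''.map s) (B''.map s) (n + n₁) (s b'', 1)).2) := by
    intro n
    refine Prod.ext ?_ rfl
    simp only [Y]
    rw [mul_div_cancel₀ _ (hn₁ (n + n₁) (by omega))]
  have hDA : (A''.map s).natDegree ≤ d := by rw [← hDs]; exact le_max_left _ _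
  have hDB : (B''.map s).natDegree ≤ d := by rw [← hDs]; exact le_max_right _ _
  have hYorb : IsOrb (A''.map s) (B''.map s) Y := by
    intro n
    have e5 := vit_succ d (A''.map s) (B''.map s) (n + n₁) (s b'', 1)
    set c := (vit d (A''.map s) (B''.map s) (n + n₁) (s b'', 1)).2 with hc
    have hc0 : c ≠ 0 := hn₁ (n + n₁) (by omega)
    rw [hYv n] at e5
    have e6 : lft d (A''.map s) (B''.map s) (c * Y n, c) =
        (c ^ d * (A''.map s).eval (Y n), c ^ d * (B''.map s).eval (Y n)) := by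
      have := lft_smul d (A''.map s) (B''.map s) c (Y n, 1)
      simp only [mul_one] at this
      rw [this]
      simp only [lft]
      rw [hm_one_right _ hDA, hm_one_right _ hDB, eval₂_id, eval₂_id]
    rw [e6, show n + n₁ + 1 = (n + 1) + n₁ by ring, hYv (n + 1), Prod.ext_iff] at e5
    obtain ⟨e7, e8⟩ := e5
    simp only at e7 e8
    have hc1 : (vit d (A''.map s) (B''.map s) (n + 1 + n₁) (s b'', 1)).2 ≠ 0 := hn₁ _ (by omega)
    have hcd : c ^ d ≠ 0 := pow_ne_zero _ hc0
    have hB0 : (B''.map s).eval (Y n) ≠ 0 := by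
      intro h0
      apply hc1
      rw [e8, h0, mul_zero]
    refine ⟨hB0, ?_⟩
    rw [e8] at e7
    apply mul_left_cancel₀ hcd
    rw [← e7]; ring
  have final : ∀ Z : T[X][X], (Z.map (mapRingHom s)).natDegree = Z.natDegree → ∀ n,
      (Z.map (mapRingHom (algebraMap T ℂ))).evalEval (orb f (n + n₁) a) (y (n + n₁)) = 0 →
      (Z.map (mapRingHom s)).evalEval (orb (f''.map s) n (orb (f''.map s) n₁ (s a''))) (Y n) = 0 := by
    intro Z hZ n h
    have h5 := key2 Z hZ (n + n₁) h
    rw [hYv n] at h5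
    simp only at h5
    rw [hm_evalEval] at h5
    rw [← orb_add]
    exact (mul_eq_zero.1 h5).resolve_left (pow_ne_zero _ (hn₁ _ (by omega)))
  have := hN K (f''.map s) (A''.map s) (B''.map s) (P''.map (mapRingHom s)) (Q''.map (mapRingHom s))
    (orb (f''.map s) n₁ (s a'')) Y k
    (by rw [natDegree_map_of_leadingCoeff_ne_zero _ hlf, hdf])
    hcs hDs hYorb
    (fun m n h => by
      simp only [← orb_add] at h
      have := horb h
      omega)
    hPi (by rw [hPx, e1]; exact hPX1) (by rw [hPx, e1]; exact hPX) (by rw [hPy, e2]; exact hPY1)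
    (by rw [hPy, e2]; exact hPY) hQi ?_
  · rw [hQy, e3] at this
    exact this
  · have h6 : {n | Q.evalEval (orb f (n + n₁) a) (y (n + n₁)) = 0 ∧
        P.evalEval (orb f (n + n₁ + k) a) (y (n + n₁ + k)) = 0}.Infinite := by
      have h7 : ({n | Q.evalEval (orb f n a) (y n) = 0 ∧
          P.evalEval (orb f (n + k) a) (y (n + k)) = 0} \ Set.Iio n₁).Infinite :=
        hinf.sdiff (Set.finite_Iio n₁)
      refine Set.Infinite.of_image (fun n => n + n₁) (h7.mono ?_)
      rintro n ⟨hn, hn2⟩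
      have hn3 : n₁ ≤ n := not_lt.1 hn2
      refine ⟨n - n₁, ?_, by simp only; omega⟩
      have e9 : n - n₁ + n₁ = n := by omega
      simp only [Set.mem_setOf_eq, e9]
      exact hn
    refine h6.mono fun n hn => ⟨final Q'' hQy n (by rw [hQ'']; exact hn.1), ?_⟩
    refine final P'' hPy (n + k) ?_
    rw [hP'', show n + k + n₁ = n + n₁ + k by ring]
    exact hn.2

end Pool.Agent.Helper59.PR
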