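import Pool.Agent.Helper59.DX.BZ
import Pool.Agent.Helper59.PR.Hom

/-!
# PR-FACTOR: components of `F^{-k}(C)` with infinitely many orbit points (polynomial, rational)

`W_evalEval`: `hm_map` with `evalEvalRingHom x y`. `W_ne_zero` (over `ℂ`): if `W = 0` then `hm (evalRingHom (f x)) d P (A y) (B y) = 0` for all `x, y`; every `u ∈ ℂ` is `f(x)` (algebraically closed); for all but finitely many `t ∈ ℂ` there is
`y` with `B(y) ≠ 0`, `A(y) = t B(y)` (`A - t B` has degree `D ≥ 1` for all but one `t`, and a root `y`; `B(y) = 0` would give `A(y) = 0`). So `P(u, t) = 0` for all `u` and infinitely many `t`, so `P = 0`.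

`exists_factor_R` PROOF: as `Pool.Agent.Helper59.DX.exists_factor` (file DX/Factor.lean, on main; copy): `w = W (itp f k) (itA k).1 (itA k).2 P ≠ 0` vanishes at `(orb f n a, y n)` for infinitely many `n`
(`itp_eval`, `itA_eval`, `vit_orb`, `hm_smul`, `hm_one_right`: `w(p_n) = c^d P(p_{n+k})`), so some irreducible factor `Q` of `w` vanishes at infinitely many of them.
-/

set_option autoImplicit false

namespace Pool.Agent.Helper59.PR

open Polynomial Pool.Agent.Helper59.DX

theorem W_evalEval {K : Type*} [CommRing K] (f A B : K[X]) (P : K[X][X]) (x y : K) :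
    (W f A B P).evalEval x y = hm (evalRingHom (f.eval x)) P.natDegree P (A.eval y) (B.eval y) := by
  rw [W, ← coe_evalEvalRingHom, hm_map, coe_evalEvalRingHom, evalEval_map_C, evalEval_map_C]
  congr 1
  ext p
  · simp [compRingHom]
  · simp [compRingHom]

private theorem forall_ratio {A B : ℂ[X]} (hcop : IsCoprime A B)
    (hD : 1 ≤ max A.natDegree B.natDegree) :
    {t : ℂ | ∃ y, B.eval y ≠ 0 ∧ A.eval y = t * B.eval y}.Infinite := by
  set D := max A.natDegree B.natDegree with hDdef
  have hbad : {t : ℂ | A.coeff D - t * B.coeff D = 0}.Finite := by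
    by_cases hb : B.coeff D = 0
    · have ha : A.coeff D ≠ 0 := by
        intro ha
        rcases max_choice A.natDegree B.natDegree with h | h
        · rw [← hDdef] at h
          rw [h] at ha
          have : A = 0 := leadingCoeff_eq_zero.1 ha
          subst this
          simp at h
          omega
        · rw [← hDdef] at h
          rw [h] at hb
          have : B = 0 := leadingCoeff_eq_zero.1 hb
          subst this
          simp at h
          omega
      simp [hb, ha]
    · refine (Set.finite_singleton (A.coeff D / B.coeff D)).subset ?_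
      intro t ht
      simp only [Set.mem_ofPred_eq] at ht
      simp only [Set.mem_singleton_iff]
      field_simp
      linear_combination -ht
  refine (hbad.infinite_compl).mono ?_
  intro t ht
  simp only [Set.mem_compl_iff, Set.mem_ofPred_eq] at ht
  have hdeg : (A - C t * B).natDegree = D := by
    apply le_antisymm
    · refine (natDegree_sub_le _ _).trans (max_le (le_max_left _ _) ?_)
      exact (natDegree_C_mul_le _ _).trans (le_max_right _ _)
    · apply le_natDegree_of_ne_zero
      rw [coeff_sub, coeff_C_mul]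
      exact ht
  have hne : (A - C t * B).degree ≠ 0 := by
    intro h
    have := natDegree_eq_zero_iff_degree_le_zero.2 h.le
    rw [hdeg] at this
    omega
  obtain ⟨y, hy⟩ := IsAlgClosed.exists_root (A - C t * B) hne
  rw [IsRoot.def, eval_sub, eval_mul, eval_C] at hy
  refine ⟨y, ?_, by linear_combination hy⟩
  intro hB
  obtain ⟨u, v, huv⟩ := hcop
  have h1 := congrArg (eval y) huv
  rw [eval_add, eval_mul, eval_mul, hB, eval_one] at h1
  have hA : A.eval y = 0 := by rw [hB] at hy; linear_combination hy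
  rw [hA] at h1
  simp at h1

theorem W_ne_zero {f A B : ℂ[X]} (hf : 1 ≤ f.natDegree) (hcop : IsCoprime A B)
    (hD : 1 ≤ max A.natDegree B.natDegree) {P : ℂ[X][X]} (hP : P ≠ 0) : W f A B P ≠ 0 := by
  intro hW
  apply hP
  have hinf := forall_ratio hcop hD
  have key : ∀ u : ℂ, P.map (evalRingHom u) = 0 := by
    intro u
    obtain ⟨x, hx⟩ : ∃ x, f.eval x = u := by
      have hne : (f - C u).degree ≠ 0 := by
        intro h
        have := natDegree_eq_zero_iff_degree_le_zero.2 h.le
        rw [natDegree_sub_C] at this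
        omega
      obtain ⟨x, hx⟩ := IsAlgClosed.exists_root (f - C u) hne
      refine ⟨x, ?_⟩
      rw [IsRoot.def, eval_sub, eval_C] at hx
      linear_combination hx
    apply eq_zero_of_infinite_isRoot
    refine hinf.mono ?_
    rintro t ⟨y, hB, hA⟩
    have h1 := W_evalEval f A B P x y
    rw [hW, evalEval_zero, hm_eq _ le_rfl _ hB, hx] at h1
    have h2 : A.eval y / B.eval y = t := by rw [hA]; field_simp
    rw [h2] at h1
    rcases mul_eq_zero.1 h1.symm with h3 | h3
    · exact absurd h3 (pow_ne_zero _ hB)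
    · show IsRoot _ t
      rw [IsRoot.def, eval_map]
      exact h3
  ext j i
  have : P.coeff j = 0 := by
    apply Polynomial.funext
    intro u
    have := congrArg (fun q => q.coeff j) (key u)
    simpa using this
  rw [this]
  simp

/-- `W_k` at the orbit. -/
theorem W_orb {f A B : ℂ[X]} {D : ℕ} (hD : max A.natDegree B.natDegree = D) {a : ℂ} {y : ℕ → ℂ}
    (hy : IsOrb A B y) (P : ℂ[X][X]) (k n : ℕ) :
    (W (itp f k) (itA D A B k).1 (itA D A B k).2 P).evalEval (orb f n a) (y n) = 0 ↔
      P.evalEval (orb f (n + k) a) (y (n + k)) = 0 := by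
  obtain ⟨c, hc, hv⟩ := vit_orb hD.le hy n k
  have h1 := itA_eval D A B k (y n)
  rw [hv, Prod.mk.injEq] at h1
  rw [W_evalEval, h1.1, h1.2, itp_eval, ← orb_add]
  have h2 := hm_smul (evalRingHom (orb f (k + n) a)) P.natDegree P c (y (n + k)) 1
  rw [mul_one] at h2
  rw [h2, hm_one_right _ le_rfl, eval₂_evalRingHom, mul_eq_zero, Nat.add_comm k n]
  constructor
  · rintro (h | h)
    · exact absurd h (pow_ne_zero _ hc)
    · exact h
  · exact Or.inr

theorem exists_factor_R {f A B : ℂ[X]} {D : ℕ} (hf : 1 ≤ f.natDegree) (hcop : IsCoprime A B)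
    (hD : max A.natDegree B.natDegree = D) (hD1 : 1 ≤ D) {a : ℂ} {y : ℕ → ℂ} (hy : IsOrb A B y) {P : ℂ[X][X]}
    (hP : P ≠ 0) (hinf : {n | P.evalEval (orb f n a) (y n) = 0}.Infinite) (k : ℕ) :
    ∃ Q : ℂ[X][X], Irreducible Q ∧ Q ∣ W (itp f k) (itA D A B k).1 (itA D A B k).2 P ∧
      {n | Q.evalEval (orb f n a) (y n) = 0 ∧ P.evalEval (orb f (n + k) a) (y (n + k)) = 0}.Infinite := by
  classical
  set w : ℂ[X][X] := W (itp f k) (itA D A B k).1 (itA D A B k).2 P with hw
  have hw0 : w ≠ 0 := by
    apply W_ne_zero _ _ _ hP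
    · rw [itp_natDegree]
      exact Nat.one_le_pow _ _ hf
    · exact itA_coprime hcop hD k
    · rw [itA_deg hcop hD k]
      exact Nat.one_le_pow _ _ hD1
  have hwe : ∀ n, w.evalEval (orb f n a) (y n) = 0 ↔
      P.evalEval (orb f (n + k) a) (y (n + k)) = 0 := fun n => W_orb hD hy P k n
  have hJ : {n | P.evalEval (orb f (n + k) a) (y (n + k)) = 0}.Infinite := by
    intro hfin
    apply hinf
    refine ((Set.finite_Iio k).union (hfin.image fun n => n + k)).subset ?_
    intro n hn
    by_cases hnk : n < k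
    · exact Or.inl hnk
    · refine Or.inr ⟨n - k, ?_, Nat.sub_add_cancel (not_lt.1 hnk)⟩
      show P.evalEval (orb f (n - k + k) a) (y (n - k + k)) = 0
      rw [Nat.sub_add_cancel (not_lt.1 hnk)]
      exact hn
  have hfac : ∀ n, P.evalEval (orb f (n + k) a) (y (n + k)) = 0 →
      ∃ Q ∈ UniqueFactorizationMonoid.factors w, Q.evalEval (orb f n a) (y n) = 0 := by
    intro n hn
    obtain ⟨u, hu⟩ := UniqueFactorizationMonoid.factors_prod hw0
    have h1 : evalEvalRingHom (orb f n a) (y n) w = 0 := (hwe n).2 hn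
    rw [← hu, map_mul] at h1
    have h2 : IsUnit (evalEvalRingHom (orb f n a) (y n) (u : ℂ[X][X])) := u.isUnit.map _
    rcases mul_eq_zero.1 h1 with h3 | h3
    · rw [map_multiset_prod, Multiset.prod_eq_zero_iff, Multiset.mem_map] at h3
      obtain ⟨Q, hQ, hQ0⟩ := h3
      exact ⟨Q, hQ, hQ0⟩
    · exact absurd h3 h2.ne_zero
  by_contra hcon
  push Not at hcon
  apply hJ
  refine ((Finset.finite_toSet (UniqueFactorizationMonoid.factors w).toFinset).biUnion
    (t := fun Q => {n | Q.evalEval (orb f n a) (y n) = 0 ∧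
      P.evalEval (orb f (n + k) a) (y (n + k)) = 0}) ?_).subset ?_
  · intro Q hQ
    have hQ' : Q ∈ UniqueFactorizationMonoid.factors w := by simpa using hQ
    exact hcon Q (UniqueFactorizationMonoid.irreducible_of_factor Q hQ')
      (UniqueFactorizationMonoid.dvd_of_mem_factors hQ')
  · intro n hn
    obtain ⟨Q, hQ, hQ0⟩ := hfac n hn
    exact Set.mem_biUnion (show Q ∈ ((UniqueFactorizationMonoid.factors w).toFinset : Set ℂ[X][X]) by
      simpa using hQ) ⟨hQ0, hn⟩

end Pool.Agent.Helper59.PR
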