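import Pool.Agent.Helper59.DX.Northcott
import Pool.Agent.Helper59.PR.Classes

/-!
# PR-FIBRE: points of bounded degree over a preperiodic point of the second coordinate

PROOF. Let `v_k = vit D A B k (ξ, 1) ≠ 0`. `hξ`: `v_i ∼ v_j`, `i < j`, so (as in `not_preperiodic`) every `v_k` is proportional to one of `v_0, ..., v_{j-1}`. For every `v ≠ 0` the set `{x | hm (evalRingHom x) d P v.1 v.2 = 0}` is finite: it is the set of roots of the
polynomial `h_v = hm (RingHom.id _) d P (C v.1) (C v.2)`, which is nonzero (see the proof of `finite_class`: `P` irreducible, `degX P ≥ 1`); it depends only on the class of `v`. So `T = {x | ∃ k, hm (evalRingHom x) d P v_k.1 v_k.2 = 0}` is finite. Every `η` in the set has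
`orb f k η ∈ T` for some `k`: apply `DX.northcott S hS hf t N` for `t ∈ T` (finite union).
-/

set_option autoImplicit false

namespace Pool.Agent.Helper59.PR

open Polynomial Pool.Agent.Helper59.DX

private theorem fib_cross_symm {v w : ℂ × ℂ} (h : cross v w = 0) : cross w v = 0 := by
  unfold cross at *
  linear_combination -h

private theorem fib_cross_trans {u v w : ℂ × ℂ} (hu : u ≠ 0) (hv : v ≠ 0) (hw : w ≠ 0)
    (h1 : cross u v = 0) (h2 : cross v w = 0) : cross u w = 0 := by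
  obtain ⟨c, hc, e1⟩ := (cross_eq_zero_iff hu hv).1 h1
  obtain ⟨c', hc', e2⟩ := (cross_eq_zero_iff hv hw).1 h2
  rw [e2, e1]
  unfold cross
  ring

private theorem fib_zero_finite {P : ℂ[X][X]} (hP : Irreducible P) (hPX : 1 ≤ degX P) {v : ℂ × ℂ}
    (hv : v ≠ 0) : {x : ℂ | hm (evalRingHom x) P.natDegree P v.1 v.2 = 0}.Finite := by
  by_contra hinf
  have hinf' : {x : ℂ | hm (evalRingHom x) P.natDegree P v.1 v.2 = 0}.Infinite := hinf
  have h1 := finite_class hP hPX (x := fun n => ((hinf'.natEmbedding _ n : ℂ)))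
    (fun a b hab => (hinf'.natEmbedding _).injective (Subtype.ext hab)) (V := fun _ => v)
    (fun _ => hv) hv
  have h2 : {n : ℕ | hm (evalRingHom ((fun n => ((hinf'.natEmbedding _ n : ℂ))) n)) P.natDegree P
      ((fun _ : ℕ => v) n).1 ((fun _ : ℕ => v) n).2 = 0 ∧ cross ((fun _ : ℕ => v) n) v = 0} =
      Set.univ := by
    rw [Set.eq_univ_iff_forall]
    intro n
    refine ⟨(hinf'.natEmbedding _ n).2, ?_⟩
    unfold cross
    ring
  rw [h2] at h1
  exact Set.infinite_univ h1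

theorem fibre_finite_R {f A B : ℂ[X]} {D : ℕ} (hf : 2 ≤ f.natDegree) (hcop : IsCoprime A B)
    (hD : max A.natDegree B.natDegree = D) {P : ℂ[X][X]} (hP : Irreducible P) (hPX : 1 ≤ degX P) {ξ : ℂ}
    (hξ : ∃ i j, i < j ∧ cross (vit D A B i (ξ, 1)) (vit D A B j (ξ, 1)) = 0) (S : Set ℂ) (hS : S.Finite)
    (N : ℕ) :
    {η : ℂ | (∃ k, hm (evalRingHom (orb f k η)) P.natDegree P (vit D A B k (ξ, 1)).1
        (vit D A B k (ξ, 1)).2 = 0) ∧
      ∃ q : (IntermediateField.adjoin ℚ S)[X], q ≠ 0 ∧ q.natDegree ≤ N ∧ aeval η q = 0}.Finite := by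
  obtain ⟨i, j, hij, hc⟩ := hξ
  have hξ0 : ((ξ, 1) : ℂ × ℂ) ≠ 0 := by
    intro h
    exact one_ne_zero (congrArg Prod.snd h)
  have hV : ∀ l, vit D A B l (ξ, 1) ≠ 0 := fun l => vit_ne_zero hcop hD l hξ0
  have key : ∀ l, ∃ r, r < j ∧ cross (vit D A B l (ξ, 1)) (vit D A B r (ξ, 1)) = 0 := by
    intro l
    induction l using Nat.strong_induction_on with
    | _ l ih =>
      by_cases hlj : l < j
      · refine ⟨l, hlj, ?_⟩
        unfold cross
        ring
      · push Not at hlj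
        obtain ⟨s, rfl⟩ : ∃ s, l = s + j := ⟨l - j, by omega⟩
        obtain ⟨r, hr1, hr2⟩ := ih (s + i) (by omega)
        refine ⟨r, hr1, ?_⟩
        have h1 : cross (vit D A B (s + i) (ξ, 1)) (vit D A B (s + j) (ξ, 1)) = 0 := by
          rw [vit_add, vit_add]
          exact cross_vit (hV i) (hV j) hc s
        exact fib_cross_trans (hV _) (hV _) (hV _) (fib_cross_symm h1) hr2
  have hT : (⋃ r ∈ Set.Iio j, {x : ℂ | hm (evalRingHom x) P.natDegree P
      (vit D A B r (ξ, 1)).1 (vit D A B r (ξ, 1)).2 = 0}).Finite :=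
    (Set.finite_Iio j).biUnion fun r _ => fib_zero_finite hP hPX (hV r)
  have hU : (⋃ t ∈ (⋃ r ∈ Set.Iio j, {x : ℂ | hm (evalRingHom x) P.natDegree P
      (vit D A B r (ξ, 1)).1 (vit D A B r (ξ, 1)).2 = 0}), {η : ℂ | (∃ k, orb f k η = t) ∧
        ∃ q : (IntermediateField.adjoin ℚ S)[X], q ≠ 0 ∧ q.natDegree ≤ N ∧ aeval η q = 0}).Finite :=
    hT.biUnion fun t _ => northcott S hS hf t N
  refine hU.subset ?_
  rintro η ⟨⟨k, hk⟩, hq⟩
  obtain ⟨r, hr, hcr⟩ := key k
  refine Set.mem_biUnion (x := orb f k η) ?_ ⟨⟨k, rfl⟩, hq⟩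
  refine Set.mem_biUnion (x := r) hr ?_
  obtain ⟨c, hc0, e⟩ := (cross_eq_zero_iff (hV k) (hV r)).1 hcr
  have e1 : (vit D A B r (ξ, 1)).1 = c * (vit D A B k (ξ, 1)).1 := congrArg Prod.fst e
  have e2 : (vit D A B r (ξ, 1)).2 = c * (vit D A B k (ξ, 1)).2 := congrArg Prod.snd e
  show hm (evalRingHom (orb f k η)) P.natDegree P (vit D A B r (ξ, 1)).1
    (vit D A B r (ξ, 1)).2 = 0
  rw [e1, e2, hm_smul, hk, mul_zero]

end Pool.Agent.Helper59.PR
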