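import Pool.Agent.Helper59.PR.Hom

/-!
# PR-PREP: a rational map of degree `≥ 2` has infinitely many preperiodic points

PROOF. Call a nonzero vector `v ∈ ℂ²` preperiodic if `cross (vit i v) (vit j v) = 0` for some `i < j`; this depends only on the class of `v` (`cross_vit`), `v` is preperiodic iff `lft v` is (shift the indices), and every preimage of a
preperiodic vector is preperiodic. Suppose that only finitely many `ξ ∈ ℂ` are such that `(ξ, 1)` is preperiodic; choose `ξ₀` such that `q = (ξ₀, 1)` is not preperiodic. Coordinate `t ∈ ℂ` on `P^1` minus the class of `q`: `e_t = (1, 0) + t q = (1 + t ξ₀, t)`.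
`T = {t | e_t preperiodic}` is finite (for `t ≠ 0` the class of `e_t` is that of `(ξ₀ + 1/t, 1)`).
Polynomials in `s`: `M = hm C D A (1 + C ξ₀ * X) X`, `N = hm C D B (1 + C ξ₀ * X) X`, so `lft e_s = (M(s), N(s))`. `P_t := C (1 + t ξ₀) * N - C t * M`, `P_t(s) = cross e_t (lft e_s)`. Facts:
 (F1) `natDegree M, N ≤ D`; the coefficients of `s^D` of `(M, N)` are `lft q` (leading forms: `hm` of degree `D` at `(1 + ξ₀ s, s) = s (ξ₀, 1) + (1, 0)`; e.g. reverse the polynomial: `s^D (M, N)(1/s) = lft (q + s (1,0))`, value at `s = 0`).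
      So the coefficient of `s^D` of `P_t` is `cross e_t (lft q)`, which is `≠ 0` for `t ∈ T` (else `lft q` and so `q` would be preperiodic): `natDegree P_t = D` for `t ∈ T`.
 (F2) `M, N` have no common root (`lft_ne_zero`).
 (F3) For `t ∈ T` every root `s` of `P_t` is in `T` (`lft e_s ∼ e_t` is preperiodic). For `t ≠ t'` in `T` the roots of `P_t`, `P_t'` are disjoint (`e_t ≁ e_t'`, `lft e_s ≠ 0`). Each `P_t` has a root. So `|T|` disjoint nonempty subsets of `T`: each `P_t`, `t ∈ T`, has exactly one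
      root `σ(t)`, `σ : T → T` injective, `P_t = C c_t * (X - C (σ t))^D`, `c_t ≠ 0` (splits over `ℂ`).
 (1) `|T| ≤ 2`: for distinct `t₁, t₂, t₃ ∈ T`: `(t₂ - t₃) P_{t₁} + (t₃ - t₁) P_{t₂} + (t₁ - t₂) P_{t₃} = 0` (`P_t` is affine linear in `t`), so `∑ γ_i (X - σ_i)^D = 0` with `γ_i ≠ 0` and `σ_i` distinct. Evaluate it and its derivative at `σ₁`:
     `γ₂ (σ₁-σ₂)^D + γ₃ (σ₁-σ₃)^D = 0`, `γ₂ (σ₁-σ₂)^(D-1) + γ₃ (σ₁-σ₃)^(D-1) = 0` (`D ≥ 2`); so `(σ₁-σ₃)^(D-1) ((σ₁-σ₂) - (σ₁-σ₃)) = 0`: contradiction.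
 (2) Fixed points: `F := N + X * (C ξ₀ * N - M)`, `F(s) = P_s(s) = cross e_s (lft e_s)`; the coefficient of `s^(D+1)` is `cross q (lft q) ≠ 0` (`q` is not preperiodic), so `natDegree F = D + 1 ≥ 3`. All roots of `F` are in `T` (fixed classes are preperiodic), `|T| ≤ 2`, so
     some root `t` has multiplicity `≥ 2`. Since `P_t(t) = F(t) = 0`, `σ(t) = t`, `P_t = C c * (X - C t)^D`. `F = P_t + (X - C t) * V`, `V = C ξ₀ * N - M`, so `F = (X - C t) * (C c * (X - C t)^(D-1) + V)`, and multiplicity `≥ 2`, `D ≥ 2` give `V(t) = 0`; with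
     `0 = P_t(t) = N(t) + t V(t)` also `N(t) = 0` and `M(t) = ξ₀ N(t) - V(t) = 0`: contradiction to (F2).
-/

set_option autoImplicit false

namespace Pool.Agent.Helper59.PR

open Polynomial Pool.Agent.Helper59.DX

private theorem cross_trans {u v w : ℂ × ℂ} (hv : v ≠ 0) (h1 : cross u v = 0) (h2 : cross v w = 0) :
    cross u w = 0 := by
  unfold cross at *
  have hv' : v.1 ≠ 0 ∨ v.2 ≠ 0 := by
    by_contra h
    rw [not_or, not_not, not_not] at h
    exact hv (Prod.ext h.1 h.2)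
  rcases hv' with h | h
  · have h3 : v.1 * (u.1 * w.2 - u.2 * w.1) = 0 := by linear_combination u.1 * h2 + w.1 * h1
    exact (mul_eq_zero.1 h3).resolve_left h
  · have h3 : v.2 * (u.1 * w.2 - u.2 * w.1) = 0 := by linear_combination w.2 * h1 + u.2 * h2
    exact (mul_eq_zero.1 h3).resolve_left h

private theorem cross_symm {u v : ℂ × ℂ} (h : cross u v = 0) : cross v u = 0 := by
  unfold cross at *
  linear_combination -h

/-- preperiodic vectors -/
private def Pp (D : ℕ) (A B : ℂ[X]) (v : ℂ × ℂ) : Prop :=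
  ∃ i j, i < j ∧ cross (vit D A B i v) (vit D A B j v) = 0

private theorem pp_congr {A B : ℂ[X]} {D : ℕ} (hcop : IsCoprime A B)
    (hD : max A.natDegree B.natDegree = D) {v w : ℂ × ℂ} (hv : v ≠ 0) (hw : w ≠ 0)
    (h : cross v w = 0) (hp : Pp D A B v) : Pp D A B w := by
  obtain ⟨i, j, hij, hc⟩ := hp
  refine ⟨i, j, hij, ?_⟩
  have h1 := cross_vit (D := D) (A := A) (B := B) hv hw h i
  have h2 := cross_vit (D := D) (A := A) (B := B) hv hw h j
  have n1 := vit_ne_zero hcop hD i hv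
  have n2 := vit_ne_zero hcop hD j hv
  exact cross_trans n1 (cross_symm h1) (cross_trans n2 hc h2)

private theorem vit_succ' (D : ℕ) (A B : ℂ[X]) (n : ℕ) (v : ℂ × ℂ) :
    vit D A B (n + 1) v = vit D A B n (lft D A B v) := Function.iterate_succ_apply _ _ _

private theorem pp_of_lft {A B : ℂ[X]} {D : ℕ} {v : ℂ × ℂ} (hp : Pp D A B (lft D A B v)) :
    Pp D A B v := by
  obtain ⟨i, j, hij, hc⟩ := hp
  refine ⟨i + 1, j + 1, by omega, ?_⟩
  rw [vit_succ', vit_succ']
  exact hc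

private theorem pp_lft {A B : ℂ[X]} {D : ℕ} (hcop : IsCoprime A B)
    (hD : max A.natDegree B.natDegree = D) {v : ℂ × ℂ} (hv : v ≠ 0) (hp : Pp D A B v) :
    Pp D A B (lft D A B v) := by
  obtain ⟨i, j, hij, hc⟩ := hp
  refine ⟨i, j, hij, ?_⟩
  rw [← vit_succ', ← vit_succ', Nat.add_comm i 1, Nat.add_comm j 1, vit_add, vit_add]
  exact cross_vit (vit_ne_zero hcop hD i hv) (vit_ne_zero hcop hD j hv) hc 1

/-- the form of `p` at `e_s` as a polynomial in `s` -/
private noncomputable def mm (D : ℕ) (p : ℂ[X]) (x : ℂ) : ℂ[X] := hm C D p (1 + C x * X) X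

private theorem mm_eval (D : ℕ) (p : ℂ[X]) (x s : ℂ) :
    (mm D p x).eval s = hm (RingHom.id ℂ) D p (1 + s * x) s := by
  unfold mm hm
  rw [eval_finsetSum]
  refine Finset.sum_congr rfl fun j _ => ?_
  simp [mul_comm s x]

private theorem lin_natDegree (x : ℂ) : (1 + C x * X : ℂ[X]).natDegree ≤ 1 := by
  have h : (1 + C x * X : ℂ[X]) = C x * X + C 1 := by rw [C_1, add_comm]
  rw [h]
  exact natDegree_linear_le

private theorem lin_coeff (x : ℂ) : (1 + C x * X : ℂ[X]).coeff 1 = x := by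
  rw [coeff_add, coeff_C_mul, coeff_X_one, coeff_one]
  simp

private theorem mm_natDegree_le (D : ℕ) (p : ℂ[X]) (x : ℂ) : (mm D p x).natDegree ≤ D := by
  unfold mm hm
  refine natDegree_sum_le_of_forall_le _ _ fun j hj => ?_
  have hj' := Finset.mem_range.1 hj
  have h1 : ((1 + C x * X : ℂ[X]) ^ j).natDegree ≤ j :=
    natDegree_pow_le.trans (by simpa using Nat.mul_le_mul_left j (lin_natDegree x))
  have h2 : ((X : ℂ[X]) ^ (D - j)).natDegree ≤ D - j := natDegree_X_pow_le _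
  have h3 : D = j + (D - j) := by omega
  calc (C (p.coeff j) * (1 + C x * X : ℂ[X]) ^ j * X ^ (D - j)).natDegree
      ≤ j + (D - j) := natDegree_mul_le.trans (Nat.add_le_add ((natDegree_C_mul_le _ _).trans h1) h2)
    _ = D := h3.symm

private theorem mm_coeff (D : ℕ) (p : ℂ[X]) (x : ℂ) :
    (mm D p x).coeff D = hm (RingHom.id ℂ) D p x 1 := by
  unfold mm hm
  rw [finsetSum_coeff]
  refine Finset.sum_congr rfl fun j hj => ?_
  have hj' := Finset.mem_range.1 hj
  have h1 : ((1 + C x * X : ℂ[X]) ^ j).natDegree ≤ j :=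
    natDegree_pow_le.trans (by simpa using Nat.mul_le_mul_left j (lin_natDegree x))
  have h2 : ((X : ℂ[X]) ^ (D - j)).natDegree ≤ D - j := natDegree_X_pow_le _
  have h3 : D = j + (D - j) := by omega
  have h4 : (C (p.coeff j) * (1 + C x * X : ℂ[X]) ^ j * X ^ (D - j)).coeff D =
      (C (p.coeff j) * (1 + C x * X : ℂ[X]) ^ j * X ^ (D - j)).coeff (j + (D - j)) := by
    rw [← h3]
  rw [h4, coeff_mul_add_eq_of_natDegree_le ((natDegree_C_mul_le _ _).trans h1) h2, coeff_C_mul]
  have h5 : ((1 + C x * X : ℂ[X]) ^ j).coeff j = x ^ j := by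
    have h6 := coeff_pow_of_natDegree_le (lin_natDegree x) (m := j)
    rw [mul_one, lin_coeff] at h6
    exact h6
  rw [h5]
  simp

/-- a polynomial of degree `D` all of whose roots are equal to `σ` -/
private theorem eq_pow_of_roots {P : ℂ[X]} {D : ℕ} {σ : ℂ} (hP : P.natDegree = D)
    (h0 : P ≠ 0) (h : ∀ s, P.eval s = 0 → s = σ) :
    P = C P.leadingCoeff * (X - C σ) ^ D := by
  have hsp : P.Splits := IsAlgClosed.splits P
  have h1 : P.roots = Multiset.replicate D σ := by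
    rw [Multiset.eq_replicate]
    refine ⟨?_, ?_⟩
    · rw [← hP]
      exact hsp.natDegree_eq_card_roots.symm
    · intro s hs
      exact h s ((mem_roots h0).1 hs)
  have h2 := hsp.eq_prod_roots
  rw [h1, Multiset.map_replicate, Multiset.prod_replicate] at h2
  exact h2

theorem infinite_prep {A B : ℂ[X]} {D : ℕ} (hcop : IsCoprime A B) (hD : max A.natDegree B.natDegree = D)
    (hD2 : 2 ≤ D) :
    {ξ : ℂ | ∃ i j, i < j ∧ cross (vit D A B i (ξ, 1)) (vit D A B j (ξ, 1)) = 0}.Infinite := by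
  intro hfin
  obtain ⟨ξ₀, hξ₀⟩ := hfin.infinite_compl.nonempty
  have hq : ¬ Pp D A B (ξ₀, 1) := hξ₀
  have hqz : ((ξ₀, 1) : ℂ × ℂ) ≠ 0 := by
    intro h
    exact one_ne_zero (congrArg Prod.snd h)
  set e : ℂ → ℂ × ℂ := fun t => (1 + t * ξ₀, t) with he
  have hez : ∀ t, e t ≠ 0 := by
    intro t h
    have h2 : t = 0 := congrArg Prod.snd h
    have h1 : 1 + t * ξ₀ = 0 := congrArg Prod.fst h
    rw [h2, zero_mul, add_zero] at h1
    exact one_ne_zero h1
  have hee : ∀ t s, cross (e t) (e s) = s - t := by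
    intro t s
    simp only [he, cross]
    ring
  set T : Set ℂ := {t | Pp D A B (e t)} with hT
  have hTfin : T.Finite := by
    have h1 : T ⊆ {0} ∪ (fun t : ℂ => ξ₀ + t⁻¹) ⁻¹' {ξ : ℂ | Pp D A B (ξ, 1)} := by
      intro t ht
      by_cases h0 : t = 0
      · left
        exact h0
      · right
        refine pp_congr hcop hD (hez t) ?_ ?_ ht
        · intro h
          exact one_ne_zero (congrArg Prod.snd h)
        · simp only [he, cross]
          field_simp
          ring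
    refine Set.Finite.subset (Set.Finite.union (Set.finite_singleton 0)
      (Set.Finite.preimage ?_ hfin)) h1
    intro a _ b _ hab
    simpa using hab
  set M := mm D A ξ₀ with hM
  set N := mm D B ξ₀ with hN
  have hlft : ∀ s, lft D A B (e s) = (M.eval s, N.eval s) := by
    intro s
    rw [hM, hN, mm_eval, mm_eval]
    rfl
  have hlz : ∀ s, ¬ (M.eval s = 0 ∧ N.eval s = 0) := by
    intro s h
    apply lft_ne_zero hcop hD (hez s)
    rw [hlft, h.1, h.2]
    rfl
  have hMD : M.coeff D = (lft D A B (ξ₀, 1)).1 := mm_coeff D A ξ₀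
  have hND : N.coeff D = (lft D A B (ξ₀, 1)).2 := mm_coeff D B ξ₀
  set V : ℂ[X] := C ξ₀ * N - M with hV
  have hVdeg : V.natDegree ≤ D := by
    refine (natDegree_sub_le _ _).trans (max_le ?_ (mm_natDegree_le D A ξ₀))
    exact (natDegree_C_mul_le _ _).trans (mm_natDegree_le D B ξ₀)
  set P : ℂ → ℂ[X] := fun t => N + C t * V with hP
  have hPeval : ∀ t s, (P t).eval s = cross (e t) (lft D A B (e s)) := by
    intro t s
    rw [hlft]
    simp only [hP, hV, he, cross, eval_add, eval_mul, eval_C, eval_sub]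
    ring
  have hPdeg : ∀ t, (P t).natDegree ≤ D := by
    intro t
    refine (natDegree_add_le _ _).trans (max_le (mm_natDegree_le D B ξ₀) ?_)
    exact (natDegree_C_mul_le _ _).trans hVdeg
  have hlq : ¬ Pp D A B (lft D A B (ξ₀, 1)) := fun h => hq (pp_of_lft h)
  have hlqz : lft D A B (ξ₀, 1) ≠ 0 := lft_ne_zero hcop hD hqz
  have hPcoeff : ∀ t, (P t).coeff D = cross (e t) (lft D A B (ξ₀, 1)) := by
    intro t
    simp only [hP, hV, he, cross, coeff_add, coeff_C_mul, coeff_sub, hMD, hND]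
    ring
  have hPc : ∀ t ∈ T, (P t).coeff D ≠ 0 := by
    intro t ht h
    rw [hPcoeff] at h
    exact hlq (pp_congr hcop hD (hez t) hlqz h ht)
  have hPz : ∀ t ∈ T, P t ≠ 0 := by
    intro t ht h
    apply hPc t ht
    rw [h, coeff_zero]
  have hPD : ∀ t ∈ T, (P t).natDegree = D := fun t ht =>
    le_antisymm (hPdeg t) (le_natDegree_of_ne_zero (hPc t ht))
  have hrootT : ∀ t ∈ T, ∀ s, (P t).eval s = 0 → s ∈ T := by
    intro t ht s hs
    rw [hPeval] at hs
    exact pp_of_lft (pp_congr hcop hD (hez t) (lft_ne_zero hcop hD (hez s)) hs ht)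
  have hdisj : ∀ t t' s, (P t).eval s = 0 → (P t').eval s = 0 → t = t' := by
    intro t t' s h1 h2
    rw [hPeval] at h1 h2
    have h3 := cross_trans (lft_ne_zero hcop hD (hez s)) h1 (cross_symm h2)
    rw [hee] at h3
    exact (sub_eq_zero.1 h3).symm
  have hex : ∀ t ∈ T, ∃ s, (P t).eval s = 0 := by
    intro t ht
    refine IsAlgClosed.exists_root (P t) ?_
    intro h
    have h1 : (P t).natDegree = 0 := natDegree_eq_of_degree_eq_some h
    rw [hPD t ht] at h1
    omega
  choose! σ hσ using hex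
  have hσT : ∀ t ∈ T, σ t ∈ T := fun t ht => hrootT t ht _ (hσ t ht)
  have hσinj : Set.InjOn σ T := by
    intro t ht t' ht' h
    refine hdisj t t' (σ t) (hσ t ht) ?_
    rw [h]
    exact hσ t' ht'
  have hσsurj : ∀ s ∈ T, ∃ t ∈ T, σ t = s := by
    intro s hs
    have h2 : σ '' T ⊆ T := by
      rintro _ ⟨t, ht, rfl⟩
      exact hσT t ht
    have h1 : σ '' T = T := by
      refine Set.eq_of_subset_of_ncard_le h2 ?_ hTfin
      rw [hσinj.ncard_image]
    rw [← h1] at hs
    obtain ⟨t, ht, h⟩ := hs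
    exact ⟨t, ht, h⟩
  have huniq : ∀ t ∈ T, ∀ s, (P t).eval s = 0 → s = σ t := by
    intro t ht s hs
    obtain ⟨t', ht', h⟩ := hσsurj s (hrootT t ht s hs)
    have h1 : t = t' := hdisj t t' s hs (by rw [← h]; exact hσ t' ht')
    rw [h1, h]
  have hform : ∀ t ∈ T, P t = C (P t).leadingCoeff * (X - C (σ t)) ^ D := fun t ht =>
    eq_pow_of_roots (hPD t ht) (hPz t ht) (huniq t ht)
  have hlc : ∀ t ∈ T, (P t).leadingCoeff ≠ 0 := fun t ht => leadingCoeff_ne_zero.2 (hPz t ht)
  -- at most two points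
  have hcard : ∀ t₁ ∈ T, ∀ t₂ ∈ T, ∀ t₃ ∈ T, t₁ ≠ t₂ → t₁ ≠ t₃ → t₂ ≠ t₃ → False := by
    intro t₁ h₁ t₂ h₂ t₃ h₃ h12 h13 h23
    have hlin : C (t₂ - t₃) * P t₁ + C (t₃ - t₁) * P t₂ + C (t₁ - t₂) * P t₃ = 0 := by
      simp only [hP, C_sub]
      ring
    rw [hform t₁ h₁, hform t₂ h₂, hform t₃ h₃] at hlin
    set c₁ := (P t₁).leadingCoeff with hc₁
    set c₂ := (P t₂).leadingCoeff with hc₂
    set c₃ := (P t₃).leadingCoeff with hc₃
    have hs12 : σ t₁ - σ t₂ ≠ 0 := sub_ne_zero.2 fun h => h12 (hσinj h₁ h₂ h)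
    have hs13 : σ t₁ - σ t₃ ≠ 0 := sub_ne_zero.2 fun h => h13 (hσinj h₁ h₃ h)
    have hs23 : σ t₂ - σ t₃ ≠ 0 := sub_ne_zero.2 fun h => h23 (hσinj h₂ h₃ h)
    obtain ⟨E, rfl⟩ : ∃ E, D = E + 2 := ⟨D - 2, by omega⟩
    have h0 := congrArg (eval (σ t₁)) hlin
    have h1 := congrArg (fun p => eval (σ t₁) (derivative p)) hlin
    simp only [eval_add, eval_mul, eval_C, eval_pow, eval_sub, eval_X, sub_self, eval_zero] at h0
    simp only [derivative_add, derivative_C_mul, derivative_X_sub_C_pow, eval_add, eval_mul, eval_C,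
      eval_pow, eval_sub, eval_X, sub_self, derivative_zero, eval_zero] at h1
    have e1 : E + 2 - 1 = E + 1 := by omega
    rw [e1] at h1
    have z1 : (0 : ℂ) ^ (E + 2) = 0 := zero_pow (by omega)
    have z2 : (0 : ℂ) ^ (E + 1) = 0 := zero_pow (by omega)
    rw [z1] at h0
    rw [z2] at h1
    have hE : ((E + 2 : ℕ) : ℂ) ≠ 0 := by
      exact_mod_cast (by omega : E + 2 ≠ 0)
    have h1' : (t₃ - t₁) * (c₂ * (σ t₁ - σ t₂) ^ (E + 1)) + (t₁ - t₂) * (c₃ * (σ t₁ - σ t₃) ^ (E + 1)) = 0 := by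
      have h3 : ((E + 2 : ℕ) : ℂ) * ((t₃ - t₁) * (c₂ * (σ t₁ - σ t₂) ^ (E + 1)) +
          (t₁ - t₂) * (c₃ * (σ t₁ - σ t₃) ^ (E + 1))) = 0 := by
        linear_combination h1
      exact (mul_eq_zero.1 h3).resolve_left hE
    have h2 : (t₁ - t₂) * c₃ * (σ t₁ - σ t₃) ^ (E + 1) * (σ t₂ - σ t₃) = 0 := by
      linear_combination h0 - (σ t₁ - σ t₂) * h1'
    have hne : (t₁ - t₂) * c₃ * (σ t₁ - σ t₃) ^ (E + 1) * (σ t₂ - σ t₃) ≠ 0 :=
      mul_ne_zero (mul_ne_zero (mul_ne_zero (sub_ne_zero.2 h12) (hlc t₃ h₃)) (pow_ne_zero _ hs13)) hs23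
    exact hne h2
  -- fixed points
  set F : ℂ[X] := N + X * V with hF
  have hFP : ∀ s, F.eval s = (P s).eval s := by
    intro s
    simp only [hF, hP, eval_add, eval_mul, eval_X, eval_C]
  have hFT : ∀ s, F.eval s = 0 → s ∈ T := by
    intro s hs
    rw [hFP, hPeval] at hs
    exact ⟨0, 1, Nat.zero_lt_one, hs⟩
  have hFc : F.coeff (D + 1) ≠ 0 := by
    intro h
    apply hq
    refine ⟨0, 1, Nat.zero_lt_one, ?_⟩
    have h1 : F.coeff (D + 1) = ξ₀ * N.coeff D - M.coeff D := by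
      rw [hF, coeff_add, coeff_X_mul, hV, coeff_sub, coeff_C_mul,
        coeff_eq_zero_of_natDegree_lt (lt_of_le_of_lt (mm_natDegree_le D B ξ₀) (Nat.lt_succ_self D)),
        zero_add]
    rw [h, hMD, hND] at h1
    change ξ₀ * (lft D A B (ξ₀, 1)).2 - 1 * (lft D A B (ξ₀, 1)).1 = 0
    rw [one_mul]
    exact h1.symm
  have hFz : F ≠ 0 := by
    intro h
    apply hFc
    rw [h, coeff_zero]
  have hFcard : D + 1 ≤ Multiset.card F.roots := by
    rw [← (IsAlgClosed.splits F).natDegree_eq_card_roots]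
    exact le_natDegree_of_ne_zero hFc
  have hnd : ¬ F.roots.Nodup := by
    intro hnd
    obtain ⟨a, b, c, hab, hac, hbc, hsub⟩ :
        ∃ a b c, a ≠ b ∧ a ≠ c ∧ b ≠ c ∧ ({a, b, c} : Finset ℂ) ⊆ F.roots.toFinset := by
      have h1 : 2 < F.roots.toFinset.card := by
        rw [Multiset.toFinset_card_of_nodup hnd]
        omega
      obtain ⟨a, b, c, ha, hb, hc, hab, hac, hbc⟩ := Finset.two_lt_card_iff.1 h1
      refine ⟨a, b, c, hab, hac, hbc, ?_⟩
      intro x hx
      simp only [Finset.mem_insert, Finset.mem_singleton] at hx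
      rcases hx with rfl | rfl | rfl
      · exact ha
      · exact hb
      · exact hc
    have hmem : ∀ x ∈ ({a, b, c} : Finset ℂ), x ∈ T := by
      intro x hx
      have h2 := hsub hx
      rw [Multiset.mem_toFinset, mem_roots hFz] at h2
      exact hFT x h2
    exact hcard a (hmem a (by simp)) b (hmem b (by simp)) c (hmem c (by simp)) hab hac hbc
  rw [Multiset.nodup_iff_count_le_one] at hnd
  push Not at hnd
  obtain ⟨t, ht⟩ := hnd
  rw [count_roots] at ht
  obtain ⟨hr0, hr1⟩ := (one_lt_rootMultiplicity_iff_isRoot hFz).1 ht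
  have htT : t ∈ T := hFT t hr0
  have hPt : (P t).eval t = 0 := by
    rw [← hFP]
    exact hr0
  have hσt : t = σ t := huniq t htT t hPt
  have hPd : (derivative (P t)).eval t = 0 := by
    rw [hform t htT, ← hσt]
    simp only [derivative_C_mul, derivative_X_sub_C_pow, eval_mul, eval_C, eval_pow, eval_sub, eval_X,
      sub_self]
    rw [zero_pow (by omega), mul_zero, mul_zero]
  have hVt : V.eval t = 0 := by
    have h1 : (derivative F).eval t = 0 := hr1
    have h2 : (derivative F).eval t = (derivative (P t)).eval t + V.eval t := by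
      simp only [hF, hP, derivative_add, derivative_mul, derivative_X, derivative_C, eval_add, eval_mul,
        eval_X, eval_C, one_mul, zero_mul, zero_add]
      ring
    rw [h1, hPd, zero_add] at h2
    exact h2.symm
  have hNt : N.eval t = 0 := by
    have h1 := hPt
    simp only [hP, eval_add, eval_mul, eval_C] at h1
    rw [hVt, mul_zero, add_zero] at h1
    exact h1
  have hMt : M.eval t = 0 := by
    have h1 := hVt
    rw [hV, eval_sub, eval_mul, eval_C, hNt, mul_zero, zero_sub, neg_eq_zero] at h1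
    exact h1
  exact hlz t ⟨hMt, hNt⟩

end Pool.Agent.Helper59.PR
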