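import Pool.Agent.Helper59.DX.DegX

/-!
# PR-FIELDDEGB: the degree of a rational function as a field degree

(b) `relfinrank_rat`. PROOF: `x` transcendental gives a `K`-embedding `e : RatFunc K → Ω` (`RatFunc.X ↦ x`) with image `K(x)`; `w = e (A/B)`, and `RatFunc.finrank_eq_max_natDegree`
(Mathlib/FieldTheory/RatFunc/IntermediateField.lean) gives `[K(X) : K(A/B)] = max (deg num) (deg denom)`, `num, denom` of `A/B` are `A, B` up to a scalar because `A, B` are coprime. Transport along `e` (e.g.
`IntermediateField.relfinrank_map_map` with `⊤`).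
-/

set_option autoImplicit false

namespace Pool.Agent.Helper59.PR

open Polynomial IntermediateField Pool.Agent.Helper59.DX

private theorem deg_assoc {K : Type*} [Field K] {A B N D : K[X]} (h1 : IsCoprime A B)
    (h2 : IsCoprime N D) (h : A * D = N * B) :
    A.natDegree = N.natDegree ∧ B.natDegree = D.natDegree := by
  have a1 : A ∣ N := h1.dvd_of_dvd_mul_right (h ▸ Dvd.intro _ rfl)
  have a2 : N ∣ A := h2.dvd_of_dvd_mul_right (h.symm ▸ Dvd.intro _ rfl)
  have b1 : B ∣ D := h1.symm.dvd_of_dvd_mul_left (h.symm ▸ Dvd.intro_left _ rfl)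
  have b2 : D ∣ B := h2.symm.dvd_of_dvd_mul_left (h ▸ Dvd.intro_left _ rfl)
  exact ⟨natDegree_eq_of_degree_eq (degree_eq_degree_of_associated (associated_of_dvd_dvd a1 a2)),
    natDegree_eq_of_degree_eq (degree_eq_degree_of_associated (associated_of_dvd_dvd b1 b2))⟩

theorem relfinrank_rat {K Ω : Type*} [Field K] [Field Ω] [Algebra K Ω] {x w : Ω} (hx : Transcendental K x)
    {A B : K[X]} (hcop : IsCoprime A B) (hD : 1 ≤ max A.natDegree B.natDegree)
    (h : w * aeval x B = aeval x A) :
    relfinrank (adjoin K {w}) (adjoin K {x}) = max A.natDegree B.natDegree ∧ Transcendental K w := by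
  have hB : B ≠ 0 := by
    rintro rfl
    have h1 := natDegree_eq_zero_of_isUnit (isCoprime_zero_right.1 hcop)
    rw [natDegree_zero, h1] at hD
    simp at hD
  let e : RatFunc K →ₐ[K] Ω :=
    (IntermediateField.val (adjoin K {x})).comp
      (RatFunc.algEquivOfTranscendental x hx : RatFunc K →ₐ[K] adjoin K {x})
  have he : ∀ g : K[X], e (algebraMap K[X] (RatFunc K) g) = aeval x g := by
    intro g
    change ((RatFunc.algEquivOfTranscendental x hx (algebraMap K[X] (RatFunc K) g) :
      adjoin K {x}) : Ω) = _
    rw [RatFunc.algEquivOfTranscendental_algebraMap]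
    simp
  have hinj : Function.Injective e := e.toRingHom.injective
  have hB' : algebraMap K[X] (RatFunc K) B ≠ 0 := by
    intro h0
    exact hB ((IsFractionRing.injective K[X] (RatFunc K)) (by rw [h0, map_zero]))
  have hBx : aeval x B ≠ 0 := by
    rw [← he]
    intro h0
    exact hB' (hinj (by rw [h0, map_zero]))
  set f : RatFunc K := algebraMap K[X] (RatFunc K) A / algebraMap K[X] (RatFunc K) B with hf
  have hef : e f = w := by
    rw [hf, map_div₀, he, he, div_eq_iff hBx]
    exact h.symm
  have hdeg : A.natDegree = f.num.natDegree ∧ B.natDegree = f.denom.natDegree := by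
    refine deg_assoc hcop f.isCoprime_num_denom ?_
    apply IsFractionRing.injective K[X] (RatFunc K)
    have h1 := RatFunc.num_div_denom f
    have h2 : algebraMap K[X] (RatFunc K) f.denom ≠ 0 := by
      intro h0
      exact f.denom_ne_zero ((IsFractionRing.injective K[X] (RatFunc K)) (by rw [h0, map_zero]))
    rw [hf] at h1
    rw [div_eq_div_iff h2 hB'] at h1
    rw [map_mul, map_mul]
    exact h1.symm
  have hne : ¬ ∃ c, f = RatFunc.C c := by
    rw [f.eq_C_iff, ← hdeg.1, ← hdeg.2]
    rintro ⟨h1, h2⟩
    rw [h1, h2] at hD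
    simp at hD
  constructor
  · have h1 : (adjoin K {f}).map e = adjoin K {w} := by
      rw [adjoin_map, Set.image_singleton, hef]
    have h2 : (⊤ : IntermediateField K (RatFunc K)).map e = adjoin K {x} := by
      ext y
      rw [IntermediateField.mem_map]
      constructor
      · rintro ⟨z, _, rfl⟩
        exact (RatFunc.algEquivOfTranscendental x hx z).2
      · intro hy
        refine ⟨(RatFunc.algEquivOfTranscendental x hx).symm ⟨y, hy⟩, mem_top, ?_⟩
        change ((RatFunc.algEquivOfTranscendental x hx
          ((RatFunc.algEquivOfTranscendental x hx).symm ⟨y, hy⟩) : adjoin K {x}) : Ω) = y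
        rw [AlgEquiv.apply_symm_apply]
    rw [← h1, ← h2, relfinrank_map_map, relfinrank_top_right, hdeg.1, hdeg.2]
    exact f.finrank_eq_max_natDegree
  · rw [← hef]
    intro h1
    exact (f.transcendental_of_ne_C hne) ((isAlgebraic_algHom_iff e hinj).1 h1)

end Pool.Agent.Helper59.PR
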