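import Pool.Agent.Helper59.DX.DegX

/-!
# PR-FIELDDEGC: both coordinates are transcendental

(c) `transcendental_of_curve`: if `y` were algebraic over `K` with minimal polynomial `μ(Y)` over `K`: `Q(x, y) = 0` where `x` is transcendental over `K(y)` (algebraic over `K`), so all coefficients (with respect to `X`) of `Q(X, y)` vanish, i.e. `μ`
divides all coefficients of `swap Q`, so `μ(Y) ∣ Q`, `Q` is associated to `μ(Y)` and has `degX = 0`.
-/

set_option autoImplicit false

namespace Pool.Agent.Helper59.PR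

open Polynomial IntermediateField Pool.Agent.Helper59.DX

private theorem fdc_degX_mapC {K : Type*} [Field K] (μ : K[X]) : degX (μ.map C : K[X][X]) = 0 := by
  apply Nat.le_zero.1
  apply degX_le
  intro b
  rw [coeff_map, natDegree_C]

theorem transcendental_of_curve {K Ω : Type*} [Field K] [Field Ω] [Algebra K Ω] {x y : Ω}
    (hx : Transcendental K x) {Q : K[X][X]} (hQ : Irreducible Q) (hQX : 1 ≤ degX Q)
    (h : aevalAeval x y Q = 0) : Transcendental K y := by
  intro hy
  have hint : IsIntegral K y := hy.isIntegral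
  have halg : Algebra.IsAlgebraic K K⟮y⟯ := isAlgebraic_adjoin_simple hint
  have hx' : Transcendental K⟮y⟯ x := fun h1 => hx (h1.restrictScalars K)
  set R : K[X][X] := Bivariate.swap Q with hR
  have hR0 : aevalAeval y x R = 0 := by
    rw [hR, Bivariate.aevalAeval_swap, h]
  let φ : K[X] →+* K⟮y⟯ := (aeval (AdjoinSimple.gen K y)).toRingHom
  have hφ : ∀ p : K[X], ((φ p : K⟮y⟯) : Ω) = aeval y p := by
    intro p
    have h1 : ((aeval (AdjoinSimple.gen K y) p : K⟮y⟯) : Ω) =
        algebraMap K⟮y⟯ Ω (aeval (AdjoinSimple.gen K y) p) := rfl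
    change ((aeval (AdjoinSimple.gen K y) p : K⟮y⟯) : Ω) = _
    rw [h1, ← aeval_algebraMap_apply]
    rfl
  have hhom : (aevalAeval y x : K[X][X] →ₐ[K] Ω).toRingHom =
      (aeval x : K⟮y⟯[X] →ₐ[K⟮y⟯] Ω).toRingHom.comp (mapRingHom φ) := by
    apply Polynomial.ringHom_ext
    · intro p
      change aevalAeval y x (C p) = aeval x ((C p).map φ)
      rw [aevalAeval_C, map_C, aeval_C]
      exact (hφ p).symm
    · change aevalAeval y x (X : K[X][X]) = aeval x ((X : K[X][X]).map φ)
      rw [aevalAeval_Y, map_X, aeval_X]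
  have hp : aeval x (R.map φ) = 0 := by
    have h1 : aevalAeval y x R = aeval x (R.map φ) := congrArg (fun f => f R) hhom
    rw [← h1, hR0]
  have hp0 : R.map φ = 0 := by
    by_contra hne
    exact hx' ⟨R.map φ, hne, hp⟩
  have hdvd : ∀ i, minpoly K y ∣ R.coeff i := by
    intro i
    apply minpoly.dvd
    have h1 : φ (R.coeff i) = 0 := by
      have := congrArg (fun p => Polynomial.coeff p i) hp0
      simpa [coeff_map] using this
    rw [← hφ, h1]
    rfl
  have h2 : C (minpoly K y) ∣ R := C_dvd_iff_dvd_coeff _ _ |>.2 hdvd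
  have h3 : (minpoly K y).map C ∣ Q := by
    obtain ⟨S, hS⟩ := h2
    refine ⟨Bivariate.swap S, ?_⟩
    have h4 : Q = Bivariate.swap R := by
      rw [hR, Bivariate.swap_swap_apply]
    rw [h4, hS, map_mul, Bivariate.swap_C]
  obtain ⟨S, hS⟩ := h3
  have hμ0 : (minpoly K y).map C ≠ (0 : K[X][X]) :=
    (Polynomial.map_ne_zero_iff C_injective).2 (minpoly.ne_zero hint)
  have hnu : ¬ IsUnit ((minpoly K y).map C : K[X][X]) := by
    intro h4
    have h5 := natDegree_eq_zero_of_isUnit h4
    rw [natDegree_map_eq_of_injective C_injective] at h5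
    have := minpoly.natDegree_pos hint
    omega
  have hSu : IsUnit S := (hQ.isUnit_or_isUnit hS).resolve_left hnu
  have hS0 : S ≠ 0 := hSu.ne_zero
  have h5 := (isUnit_iff_deg hS0).1 hSu
  rw [hS, degX_mul hμ0 hS0, fdc_degX_mapC, h5.1] at hQX
  omega

end Pool.Agent.Helper59.PR
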