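import Pool.Agent.Helper59.PR.FieldDegA
import Pool.Agent.Helper59.PR.FieldDegB
import Pool.Agent.Helper59.PR.FieldDegC
import Pool.Agent.Helper59.PR.Hom

/-!
# PR-RATIO: the ratio of the two degrees is preserved under preimages

PROOF. `Ω = AlgebraicClosure (RatFunc K)` (`Algebra K Ω`), `x = ` image of `RatFunc.X` (transcendental), `y ∈ Ω` a root of `Q(x, Y)` (degree `≥ 1`; its leading coefficient does not vanish at the transcendental `x`): `aevalAeval x y Q = 0`.
`y` is transcendental (`transcendental_of_curve`). `u = f(x)`, `w = A(y)/B(y)` (`B(y) ≠ 0` as `y` is transcendental and `B ≠ 0`: if `B = 0` then `A` is a unit, contradiction to the degree). `Q ∣ W f A B P` gives `0 = aevalAeval x y (W f A B P) = B(y)^d P(u, w)`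
(`hm_map`, `hm_eq`, `d = P.natDegree`), so `aevalAeval u w P = 0`. All inside `L = K(x,y)`; `K(u,w) ≤ K(x,y)`; `M := relfinrank (adjoin K {u, w}) (adjoin K {x, y})`.
`relfinrank_mul_relfinrank`: `[K(x,y) : K(u)] = [K(x,y):K(x)] [K(x):K(u)] = Q.natDegree * f.natDegree` (`relfinrank_rat` with `f, 1`) and `= M * P.natDegree`.
Symmetrically (with `swap Q`, `swap P`, `natDegree_swap`, `aevalAeval_swap`; `{x,y} = {y,x}`): `degX Q * D = M * degX P`. Multiply.
-/

set_option autoImplicit false

namespace Pool.Agent.Helper59.PR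

open Polynomial Pool.Agent.Helper59.DX

private theorem ra_eval {K Ω : Type*} [Field K] [Field Ω] [Algebra K Ω] (x y : Ω) (Q : K[X][X]) :
    aevalAeval x y Q = Q.eval₂ (aeval x : K[X] →ₐ[K] Ω).toRingHom y := by
  have h : (aevalAeval x y : K[X][X] →ₐ[K] Ω).toRingHom =
      eval₂RingHom (aeval x : K[X] →ₐ[K] Ω).toRingHom y := by
    refine Polynomial.ringHom_ext (fun p => ?_) ?_
    · rw [coe_eval₂RingHom, eval₂_C]
      exact aevalAeval_C x y p
    · rw [coe_eval₂RingHom, eval₂_X]
      exact aevalAeval_Y x y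
  exact RingHom.congr_fun h Q

private theorem ra_mapC {K Ω : Type*} [Field K] [Field Ω] [Algebra K Ω] (x y : Ω) (A : K[X]) :
    aevalAeval x y (A.map C) = aeval y A := by
  rw [← Bivariate.swap_C, Bivariate.aevalAeval_swap, aevalAeval_C]

open IntermediateField in
private theorem ra_mem {K Ω : Type*} [Field K] [Field Ω] [Algebra K Ω] (x : Ω) (f : K[X]) :
    aeval x f ∈ adjoin K {x} :=
  algebra_adjoin_le_adjoin K {x} (aeval_mem_adjoin_singleton K x)

/-- the image of the curve -/
private theorem ra_image {K Ω : Type*} [Field K] [Field Ω] [Algebra K Ω] (x y : Ω)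
    {f A B : K[X]} {P Q : K[X][X]} (hB : aeval y B ≠ 0) (hdvd : Q ∣ W f A B P)
    (h : aevalAeval x y Q = 0) : aevalAeval (aeval x f) (aeval y A / aeval y B) P = 0 := by
  obtain ⟨R, hR⟩ := hdvd
  have h1 : (aevalAeval x y : K[X][X] →ₐ[K] Ω).toRingHom (W f A B P) = 0 := by
    rw [hR, map_mul]
    have h2 : (aevalAeval x y : K[X][X] →ₐ[K] Ω).toRingHom Q = 0 := h
    rw [h2, zero_mul]
  rw [W, hm_map] at h1
  have h3 : (aevalAeval x y : K[X][X] →ₐ[K] Ω).toRingHom (A.map C) = aeval y A := ra_mapC x y A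
  have h4 : (aevalAeval x y : K[X][X] →ₐ[K] Ω).toRingHom (B.map C) = aeval y B := ra_mapC x y B
  have h5 : ((aevalAeval x y : K[X][X] →ₐ[K] Ω).toRingHom).comp (C.comp (compRingHom f)) =
      (aeval (aeval x f) : K[X] →ₐ[K] Ω).toRingHom := by
    ext p
    · change aevalAeval x y (C ((C p).comp f)) = aeval (aeval x f) (C p)
      rw [aevalAeval_C, aeval_comp]
    · change aevalAeval x y (C (X.comp f)) = aeval (aeval x f) X
      rw [aevalAeval_C, aeval_comp]
  rw [h3, h4, h5, hm_eq _ le_rfl _ hB] at h1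
  rw [ra_eval]
  rcases mul_eq_zero.1 h1 with h6 | h6
  · exact absurd h6 (pow_ne_zero _ hB)
  · exact h6

theorem ratio {K : Type} [Field K] {f A B : K[X]} (hf : 1 ≤ f.natDegree) (hcop : IsCoprime A B)
    (hD : 1 ≤ max A.natDegree B.natDegree) {P Q : K[X][X]} (hP : Irreducible P) (hQ : Irreducible Q)
    (hQX : 1 ≤ degX Q) (hQY : 1 ≤ Q.natDegree) (hdvd : Q ∣ W f A B P) :
    degX Q * max A.natDegree B.natDegree * P.natDegree = Q.natDegree * f.natDegree * degX P := by
  obtain ⟨x, hx⟩ : ∃ x : AlgebraicClosure (RatFunc K), Transcendental K x :=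
    ⟨algebraMap (RatFunc K) _ RatFunc.X, (transcendental_algebraMap_iff
      (algebraMap (RatFunc K) (AlgebraicClosure (RatFunc K))).injective).2
        RatFunc.transcendental_X⟩
  have hinj : Function.Injective (aeval x : K[X] →ₐ[K] AlgebraicClosure (RatFunc K)).toRingHom :=
    transcendental_iff_injective.1 hx
  obtain ⟨y, hy0⟩ : ∃ y, aevalAeval x y Q = 0 := by
    have h1 : (Q.map (aeval x : K[X] →ₐ[K] AlgebraicClosure (RatFunc K)).toRingHom).degree ≠ 0 := by
      rw [degree_map_eq_of_injective hinj]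
      intro h
      have h2 : Q.natDegree = 0 := natDegree_eq_of_degree_eq_some h
      omega
    obtain ⟨y, hy⟩ := IsAlgClosed.exists_root _ h1
    refine ⟨y, ?_⟩
    rw [ra_eval, eval₂_eq_eval_map]
    exact hy
  have hy : Transcendental K y := transcendental_of_curve hx hQ hQX hy0
  have hB0 : B ≠ 0 := by
    intro h
    rw [h, isCoprime_zero_right] at hcop
    rw [h, natDegree_zero, natDegree_eq_zero_of_isUnit hcop] at hD
    omega
  have hB : aeval y B ≠ 0 := by
    intro h
    exact hB0 (transcendental_iff.1 hy B h)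
  have hP0 := ra_image x y hB hdvd hy0
  obtain ⟨u, hu⟩ : ∃ u, u = aeval x f := ⟨_, rfl⟩
  obtain ⟨w, hw⟩ : ∃ w, w = aeval y A / aeval y B := ⟨_, rfl⟩
  rw [← hu, ← hw] at hP0
  have hcop1 : IsCoprime f 1 := isCoprime_one_right
  obtain ⟨e1, hut⟩ := relfinrank_rat (w := u) hx hcop1 (by rw [natDegree_one]; omega)
    (by rw [hu, map_one, mul_one])
  obtain ⟨e2, hwt⟩ := relfinrank_rat (w := w) hy hcop hD (by rw [hw, div_mul_cancel₀ _ hB])
  have e3 := relfinrank_curve hx hQ hy0
  have hQs : Irreducible (Bivariate.swap Q) := (MulEquiv.irreducible_iff Bivariate.swap).2 hQ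
  have hPs : Irreducible (Bivariate.swap P) := (MulEquiv.irreducible_iff Bivariate.swap).2 hP
  have e4 := relfinrank_curve hy hQs (by rw [Bivariate.aevalAeval_swap]; exact hy0)
  have e5 := relfinrank_curve hut hP hP0
  have e6 := relfinrank_curve hwt hPs (by rw [Bivariate.aevalAeval_swap]; exact hP0)
  rw [natDegree_swap, Set.pair_comm] at e4 e6
  rw [natDegree_one, Nat.max_zero] at e1
  have hux : u ∈ IntermediateField.adjoin K {x} := by
    rw [hu]
    exact ra_mem x f
  have hwy : w ∈ IntermediateField.adjoin K {y} := by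
    rw [hw]
    exact div_mem (ra_mem y A) (ra_mem y B)
  have l1 : IntermediateField.adjoin K {u} ≤ IntermediateField.adjoin K {x} :=
    IntermediateField.adjoin_le_iff.2 (Set.singleton_subset_iff.2 hux)
  have l2 : IntermediateField.adjoin K {w} ≤ IntermediateField.adjoin K {y} :=
    IntermediateField.adjoin_le_iff.2 (Set.singleton_subset_iff.2 hwy)
  have l3 : IntermediateField.adjoin K {x} ≤ IntermediateField.adjoin K {x, y} :=
    IntermediateField.adjoin.mono K _ _ (by simp)
  have l4 : IntermediateField.adjoin K {y} ≤ IntermediateField.adjoin K {x, y} :=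
    IntermediateField.adjoin.mono K _ _ (by simp)
  have l5 : IntermediateField.adjoin K {u} ≤ IntermediateField.adjoin K {u, w} :=
    IntermediateField.adjoin.mono K _ _ (by simp)
  have l6 : IntermediateField.adjoin K {w} ≤ IntermediateField.adjoin K {u, w} :=
    IntermediateField.adjoin.mono K _ _ (by simp)
  have l7 : IntermediateField.adjoin K {u, w} ≤ IntermediateField.adjoin K {x, y} := by
    refine IntermediateField.adjoin_le_iff.2 ?_
    intro z hz
    rcases hz with hz | hz
    · rw [hz]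
      exact l3 hux
    · rw [Set.mem_singleton_iff.1 hz]
      exact l4 hwy
  have m1 := IntermediateField.relfinrank_mul_relfinrank l1 l3
  have m2 := IntermediateField.relfinrank_mul_relfinrank l5 l7
  have m3 := IntermediateField.relfinrank_mul_relfinrank l2 l4
  have m4 := IntermediateField.relfinrank_mul_relfinrank l6 l7
  rw [e1, e3] at m1
  rw [e5, ← m1] at m2
  rw [e2, e4] at m3
  rw [e6, ← m3] at m4
  rw [mul_comm (degX Q), ← m4, mul_comm Q.natDegree, ← m2]
  ring

end Pool.Agent.Helper59.PR
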