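import Pool.Agent.Helper59.DX.Chain
import Pool.Agent.Helper59.PR.Bnd
import Pool.Agent.Helper59.PR.Factor
import Pool.Agent.Helper59.PR.Ratio
import Pool.Agent.Helper59.PR.Prep
import Pool.Agent.Helper59.PR.Fibre

/-!
# PR-CHAIN: equal degrees `≥ 2` (polynomial, rational)

As DX/Chain.lean, with the lines `Y = ξ`, `ξ` preperiodic for the rational map; the degree in `X` of the components of
`F^{-k}(C)` is bounded because the ratio of the two degrees is constant.
-/

set_option autoImplicit false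

namespace Pool.Agent.Helper59.PR

open Polynomial Pool.Agent.Helper59.DX

theorem orb_mem_R {K : IntermediateField ℚ ℂ} {A B : ℂ[X]} (hA : ∀ i, A.coeff i ∈ K) (hB : ∀ i, B.coeff i ∈ K)
    {y : ℕ → ℂ} (hy : IsOrb A B y) (h0 : y 0 ∈ K) (n : ℕ) : y n ∈ K := by
  induction n with
  | zero => exact h0
  | succ n ih =>
    have h1 : ∀ {Z : ℂ[X]}, (∀ i, Z.coeff i ∈ K) → Z.eval (y n) ∈ K := fun {Z} hZ => by
      rw [eval_eq_sum_range]
      exact sum_mem fun i _ => mul_mem (hZ i) (pow_mem ih i)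
    have h2 : y (n + 1) = A.eval (y n) / B.eval (y n) := by
      rw [eq_div_iff (hy n).1]; exact (hy n).2
    rw [h2]
    exact div_mem (h1 hA) (h1 hB)

theorem swap_dvd {P Q : ℂ[X][X]} (h : Bivariate.swap P ∣ Bivariate.swap Q) : P ∣ Q := by
  have := map_dvd (Bivariate.swap (R := ℂ)) h
  rwa [Bivariate.swap_swap_apply, Bivariate.swap_swap_apply] at this

theorem irreducible_swap {P : ℂ[X][X]} (h : Irreducible P) : Irreducible (Bivariate.swap P) :=
  (MulEquiv.irreducible_iff (Bivariate.swap (R := ℂ)).toMulEquiv).2 h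

theorem plane_equal_R (hN : NFTStatement) {f A B : ℂ[X]} {a : ℂ} {y : ℕ → ℂ} (hf : 2 ≤ f.natDegree)
    (hcop : IsCoprime A B) (hD : max A.natDegree B.natDegree = f.natDegree) (hy : IsOrb A B y)
    (ha : Function.Injective fun n => orb f n a) (hyi : Function.Injective y) {P : ℂ[X][X]}
    (hP : Irreducible P) (hinf : {n | P.evalEval (orb f n a) (y n) = 0}.Infinite) :
    ∃ m, 0 < m ∧ ∀ n, P.evalEval (orb f n a) (y n) = 0 → P.evalEval (orb f (n + m) a) (y (n + m)) = 0 := by
  classical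
  have hPY := natDegree_pos_of_infinite hP.ne_zero ha hinf
  have hPX := degX_pos_of_infinite hP.ne_zero hyi hinf
  obtain ⟨N, hN1⟩ := degY_bound_R hN f.natDegree (degX P) P.natDegree hf
  obtain ⟨N', hN'⟩ : ∃ N', N' = N * degX P := ⟨_, rfl⟩
  -- the curves
  choose Q hQ hdvd hJ using fun k => exists_factor_R (f := f) (A := A) (B := B) (by omega) hcop hD (by omega)
    hy hP.ne_zero hinf k
  have hQinf : ∀ k, {n | (Q k).evalEval (orb f n a) (y n) = 0}.Infinite := fun k =>
    (hJ k).mono fun n hn => hn.1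
  have hQY : ∀ k, (Q k).natDegree ≤ N := fun k =>
    hN1 f A B P (Q k) a y k rfl hcop hD hy ha hP hPX le_rfl hPY le_rfl (hQ k) (hJ k)
  have hQY1 : ∀ k, 1 ≤ (Q k).natDegree := fun k =>
    natDegree_pos_of_infinite (hQ k).ne_zero ha (hQinf k)
  have hQX1 : ∀ k, 1 ≤ degX (Q k) := fun k =>
    degX_pos_of_infinite (hQ k).ne_zero hyi (hQinf k)
  have hQX : ∀ k, degX (Q k) ≤ N' := fun k => by
    have hpos : 0 < f.natDegree ^ k := pow_pos (by omega) k
    have h1 := ratio (f := itp f k) (A := (itA f.natDegree A B k).1) (B := (itA f.natDegree A B k).2)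
      (by rw [itp_natDegree]; exact hpos) (itA_coprime hcop hD k) (by rw [itA_deg hcop hD]; exact hpos)
      hP (hQ k) (hQX1 k) (hQY1 k) (hdvd k)
    rw [itA_deg hcop hD, itp_natDegree] at h1
    have h2 : degX (Q k) * P.natDegree = (Q k).natDegree * degX P := by
      apply Nat.eq_of_mul_eq_mul_left hpos
      calc f.natDegree ^ k * (degX (Q k) * P.natDegree) = degX (Q k) * f.natDegree ^ k * P.natDegree := by ring
        _ = (Q k).natDegree * f.natDegree ^ k * degX P := h1
        _ = _ := by ring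
    calc degX (Q k) ≤ degX (Q k) * P.natDegree := Nat.le_mul_of_pos_right _ (by omega)
      _ = (Q k).natDegree * degX P := h2
      _ ≤ N * degX P := Nat.mul_le_mul_right _ (hQY k)
      _ = N' := hN'.symm
  -- the field of definition
  let S : Set ℂ := ((fun i => f.coeff i) '' (Finset.range (f.natDegree + 1) : Set ℕ)) ∪
    ((fun i => A.coeff i) '' (Finset.range (A.natDegree + 1) : Set ℕ)) ∪
    ((fun i => B.coeff i) '' (Finset.range (B.natDegree + 1) : Set ℕ)) ∪ {a, y 0}
  have hS : S.Finite := by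
    refine (((Set.Finite.image _ (Finset.finite_toSet _)).union
      (Set.Finite.image _ (Finset.finite_toSet _))).union
      (Set.Finite.image _ (Finset.finite_toSet _))).union (by simp)
  let K := IntermediateField.adjoin ℚ S
  have hSK : ∀ x ∈ S, x ∈ K := fun x hx => IntermediateField.subset_adjoin ℚ S hx
  have hcoef : ∀ Z : ℂ[X], ((fun i => Z.coeff i) '' (Finset.range (Z.natDegree + 1) : Set ℕ)) ⊆ S →
      ∀ i, Z.coeff i ∈ K := fun Z hZ i => by
    by_cases hi : i ∈ Finset.range (Z.natDegree + 1)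
    · exact hSK _ (hZ ⟨i, by exact_mod_cast hi, rfl⟩)
    · rw [coeff_eq_zero_of_natDegree_lt (by rw [Finset.mem_range] at hi; omega)]; exact zero_mem _
  have hcf := hcoef f fun x hx => Or.inl (Or.inl (Or.inl hx))
  have hcA := hcoef A fun x hx => Or.inl (Or.inl (Or.inr hx))
  have hcB := hcoef B fun x hx => Or.inl (Or.inr hx)
  have haK : a ∈ K := hSK _ (Or.inr (by simp))
  have hyK : y 0 ∈ K := hSK _ (Or.inr (by simp))
  choose Q' c hc hQ' using fun k => descend K (hQ k) (x := fun n => orb f n a) (y := y)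
    (fun n => orb_mem hcf haK n) (fun n => orb_mem_R hcA hcB hy hyK n) ha (hQinf k)
  -- preperiodic points
  obtain ⟨Ξ, hΞ, hcard⟩ := (infinite_prep hcop hD hf).exists_subset_card_eq (2 * (N * N') + N + 1)
  let Hs : ℂ → Set ℂ := fun ξ => {η : ℂ | (∃ k, hm (evalRingHom (orb f k η)) P.natDegree P
      (vit f.natDegree A B k (ξ, 1)).1 (vit f.natDegree A B k (ξ, 1)).2 = 0) ∧
      ∃ q : (IntermediateField.adjoin ℚ (insert ξ S))[X], q ≠ 0 ∧ q.natDegree ≤ N' ∧ aeval η q = 0}
  have hH : ∀ ξ ∈ Ξ, (Hs ξ).Finite :=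
    fun ξ hξ => fibre_finite_R hf hcop hD hP hPX (hΞ hξ) _ (hS.insert ξ) N'
  let H : Set ℂ := ⋃ ξ ∈ Ξ, Hs ξ
  have hHfin : H.Finite := Set.Finite.biUnion (Finset.finite_toSet Ξ) fun ξ hξ => hH ξ (by exact_mod_cast hξ)
  have hpt : ∀ k, ∀ ξ ∈ Ξ, (Bivariate.swap (Q k)).leadingCoeff.eval ξ ≠ 0 →
      ∃ η : H, (Bivariate.swap (Q k)).evalEval ξ η = 0 := by
    intro k ξ hξ hl
    have hdeg : (Bivariate.swap (Q k)).natDegree = degX (Q k) := natDegree_swap _
    have hd : ((Bivariate.swap (Q k)).map (evalRingHom ξ)).natDegree = (Bivariate.swap (Q k)).natDegree :=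
      natDegree_map_of_leadingCoeff_ne_zero _ hl
    have hne : (Bivariate.swap (Q k)).map (evalRingHom ξ) ≠ 0 := by
      intro h; rw [h, natDegree_zero] at hd; have := hQX1 k; omega
    obtain ⟨η, hη⟩ := IsAlgClosed.exists_root ((Bivariate.swap (Q k)).map (evalRingHom ξ)) (by
      intro h
      have h2 := natDegree_eq_zero_iff_degree_le_zero.2 h.le
      rw [hd] at h2
      have := hQX1 k
      omega)
    have hη1 : (Bivariate.swap (Q k)).evalEval ξ η = 0 := by rw [← eval_map_evalRingHom]; exact hη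
    have hη2 : (Q k).evalEval η ξ = 0 := by rwa [evalEval_swap] at hη1
    have hfib : ∃ q : (IntermediateField.adjoin ℚ (insert ξ S))[X], q ≠ 0 ∧ q.natDegree ≤ N' ∧ aeval η q = 0 := by
      refine exists_fibre_poly S ξ (Q := Bivariate.swap (Q k)) (Q' := Bivariate.swap (Q' k)) (hc k) ?_ hne N'
        (by rw [hdeg]; exact hQX k) hη1
      have h3 := congrArg Bivariate.swap (hQ' k)
      rw [swap_map, map_mul, Bivariate.swap_C_C] at h3
      exact h3
    refine ⟨⟨η, Set.mem_iUnion₂.2 ⟨ξ, hξ, ⟨k, ?_⟩, hfib⟩⟩, hη1⟩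
    obtain ⟨T, hT⟩ := hdvd k
    have h3 := congrArg (evalEval η ξ) hT
    rw [W_evalEval, itp_eval, evalEval_mul, hη2, zero_mul] at h3
    have h4 := itA_eval f.natDegree A B k ξ
    rw [← h4]
    exact h3
  -- pigeonhole
  have hfin : Finite H := hHfin
  let e : ℕ → Ξ → Option H := fun k ξ =>
    if h : ∃ η : H, (Bivariate.swap (Q k)).evalEval ξ.1 η = 0 then some h.choose else none
  have he : ∀ k ξ η, e k ξ = some η → (Bivariate.swap (Q k)).evalEval ξ.1 η = 0 := by
    intro k ξ η h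
    simp only [e] at h
    split_ifs at h with h1
    have h2 : h1.choose = η := by simpa using h
    rw [← h2]; exact h1.choose_spec
  have he' : ∀ k (ξ : Ξ), (Bivariate.swap (Q k)).leadingCoeff.eval ξ.1 ≠ 0 → ∃ η, e k ξ = some η := by
    intro k ξ h
    have h1 := hpt k ξ.1 ξ.2 h
    exact ⟨h1.choose, by simp only [e]; rw [dif_pos h1]⟩
  obtain ⟨k, l, hkl, hekl⟩ : ∃ k l, k < l ∧ e k = e l := by
    obtain ⟨k, l, hne, h⟩ := Finite.exists_ne_map_eq_of_infinite e
    rcases lt_or_gt_of_ne hne with h1 | h1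
    · exact ⟨k, l, h1, h⟩
    · exact ⟨l, k, h1, h.symm⟩
  have hQkl : Q k ∣ Q l := by
    apply swap_dvd
    by_contra hnd
    have h1 := bezout_count (Bivariate.swap (Q k)) (Bivariate.swap (Q l)) (irreducible_swap (hQ k)) hnd
      (Ξ.filter fun ξ => (Bivariate.swap (Q k)).leadingCoeff.eval ξ ≠ 0) (by
      intro ξ hξ
      rw [Finset.mem_filter] at hξ
      obtain ⟨η, hη⟩ := he' k ⟨ξ, hξ.1⟩ hξ.2
      refine ⟨η, he k ⟨ξ, hξ.1⟩ η hη, ?_⟩
      rw [hekl] at hη
      exact he l ⟨ξ, hξ.1⟩ η hη)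
    have h2 : (Ξ.filter fun ξ => ¬ (Bivariate.swap (Q k)).leadingCoeff.eval ξ ≠ 0).card ≤ N := by
      have h3 : (Ξ.filter fun ξ => ¬ (Bivariate.swap (Q k)).leadingCoeff.eval ξ ≠ 0) ⊆
          (Bivariate.swap (Q k)).leadingCoeff.roots.toFinset := by
        intro ξ hξ
        rw [Finset.mem_filter, not_not] at hξ
        rw [Multiset.mem_toFinset, mem_roots (by
          rw [Ne, leadingCoeff_eq_zero]; exact (irreducible_swap (hQ k)).ne_zero)]
        exact hξ.2
      calc _ ≤ _ := Finset.card_le_card h3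
        _ ≤ _ := Multiset.toFinset_card_le _
        _ ≤ _ := card_roots' _
        _ ≤ _ := natDegree_coeff_le_degX _ _
        _ = (Q k).natDegree := degX_swap _
        _ ≤ _ := hQY k
    have h4 := Finset.card_filter_add_card_filter_not (s := Ξ)
      (fun ξ => (Bivariate.swap (Q k)).leadingCoeff.eval ξ ≠ 0)
    rw [degX_swap, natDegree_swap, degX_swap, natDegree_swap] at h1
    have h5 : (Q k).natDegree * degX (Q l) ≤ N * N' := Nat.mul_le_mul (hQY k) (hQX l)
    have h6 : (Q l).natDegree * degX (Q k) ≤ N * N' := Nat.mul_le_mul (hQY l) (hQX k)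
    omega
  have hPl : ∀ n, (Q k).evalEval (orb f n a) (y n) = 0 → P.evalEval (orb f (n + l) a) (y (n + l)) = 0 := by
    intro n hn
    rw [← W_orb hD hy P l n]
    obtain ⟨T, hT⟩ := hQkl.trans (hdvd l)
    rw [hT, evalEval_mul, hn, zero_mul]
  have hPW : P ∣ W (itp f (l - k)) (itA f.natDegree A B (l - k)).1 (itA f.natDegree A B (l - k)).2 P := by
    refine dvd_of_common_zeros hP (x := fun n => orb f (n + k) a) (y := fun n => y (n + k))
      (fun m n h => by have := ha h; omega) (hJ k) fun n hn => ⟨hn.2, ?_⟩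
    rw [W_orb hD hy]
    have e1 : n + k + (l - k) = n + l := by omega
    rw [e1]
    exact hPl n hn.1
  refine ⟨l - k, by omega, fun n hn => ?_⟩
  rw [← W_orb hD hy P (l - k) n]
  obtain ⟨T, hT⟩ := hPW
  rw [hT, evalEval_mul, hn, zero_mul]

end Pool.Agent.Helper59.PR
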