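import Pool.Agent.Helper59.DX.Defs

/-!
# MP_e566f8_ag, a polynomial and a rational map: definitions

The first coordinate is a polynomial `f`, the second one a rational map `A / B` of degree `D = max (deg A) (deg B)`.
Points of the projective line are given by nonzero pairs `v : K × K`, the point `(y, 1)` is the affine point `y`.
-/

set_option autoImplicit false

namespace Pool.Agent.Helper59.PR

open Polynomial Pool.Agent.Helper59.DX

/-- the value at `(u, w)` of the binary form `∑ φ(p_j) U^j W^(n-j)` of degree `n` attached to `p`. -/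
def hm {R S : Type*} [CommRing R] [CommRing S] (φ : R →+* S) (n : ℕ) (p : R[X]) (u w : S) : S :=
  ∑ j ∈ Finset.range (n + 1), φ (p.coeff j) * u ^ j * w ^ (n - j)

/-- `v` and `w` are proportional iff this vanishes. -/
def cross {K : Type*} [CommRing K] (v w : K × K) : K := v.1 * w.2 - v.2 * w.1

/-- the homogeneous lift of degree `D` of the rational map `A / B`. -/
def lft {K : Type*} [CommRing K] (D : ℕ) (A B : K[X]) (v : K × K) : K × K :=
  (hm (RingHom.id K) D A v.1 v.2, hm (RingHom.id K) D B v.1 v.2)

/-- its iterates. -/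
def vit {K : Type*} [CommRing K] (D : ℕ) (A B : K[X]) (n : ℕ) (v : K × K) : K × K := (lft D A B)^[n] v

/-- numerator and denominator of the `k`-th iterate of `A / B`. -/
noncomputable def itA {K : Type*} [CommRing K] (D : ℕ) (A B : K[X]) (k : ℕ) : K[X] × K[X] :=
  (fun q => (hm C D A q.1 q.2, hm C D B q.1 q.2))^[k] (X, 1)

/-- `y` is an orbit of `A / B` which does not meet `∞`. -/
def IsOrb {K : Type*} [CommRing K] (A B : K[X]) (y : ℕ → K) : Prop :=
  ∀ n, B.eval (y n) ≠ 0 ∧ y (n + 1) * B.eval (y n) = A.eval (y n)

/-- numerator of `P(f(X), A(Y)/B(Y))`. -/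
noncomputable def W {K : Type*} [CommRing K] (f A B : K[X]) (P : K[X][X]) : K[X][X] :=
  hm (C.comp (compRingHom f)) P.natDegree P (A.map C) (B.map C)

end Pool.Agent.Helper59.PR
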