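import Pool.Agent.Helper59.PR.PJMain

/-!
# PR-EXCLOW: polynomials and Moebius maps are exceptional; constant maps
-/

set_option autoImplicit false

namespace Pool.Agent.Helper59.PR

open Polynomial Pool.Agent.Helper59.DX Pool.Agent.Helper59.DML

/-- a totally invariant point is exceptional. -/
theorem exc_of_totInv {F G : MvPolynomial (Fin 2) ℂ} {d : ℕ} (h : IsMap F G d) {w : Fin 2 → ℂ} (hw : w ≠ 0)
    (hinv : TotInv F G w) : Exc F G :=
  ⟨w, hw, fun v hv => (hinv _ (phi_ne_zero h hv)).trans (hinv v hv)⟩

theorem eval_linear {F : MvPolynomial (Fin 2) ℂ} (hF : F.IsHomogeneous 1) (v : Fin 2 → ℂ) :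
    MvPolynomial.eval v F = F.coeff (Finsupp.single 0 1) * v 0 + F.coeff (Finsupp.single 1 1) * v 1 := by
  have h1 : F = MvPolynomial.monomial (Finsupp.single 0 1) (F.coeff (Finsupp.single 0 1)) +
      MvPolynomial.monomial (Finsupp.single 1 1) (F.coeff (Finsupp.single 1 1)) := by
    ext m
    rw [MvPolynomial.coeff_add, MvPolynomial.coeff_monomial, MvPolynomial.coeff_monomial]
    by_cases h0 : F.coeff m = 0
    · rw [h0]
      have e0 : (if Finsupp.single (0 : Fin 2) 1 = m then F.coeff (Finsupp.single 0 1) else 0) = 0 := by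
        split_ifs with h2
        · rw [h2]; exact h0
        · rfl
      have e1 : (if Finsupp.single (1 : Fin 2) 1 = m then F.coeff (Finsupp.single 1 1) else 0) = 0 := by
        split_ifs with h2
        · rw [h2]; exact h0
        · rfl
      rw [e0, e1, add_zero]
    · have hdeg := hF h0
      have hs : m 0 + m 1 = 1 := by
        have h2 : Finsupp.weight 1 m = m.degree := by
          rw [Finsupp.degree_eq_weight_one]; rfl
        rw [h2, Finsupp.degree_eq_sum, Fin.sum_univ_two] at hdeg
        exact hdeg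
      have hm : m = Finsupp.single 0 1 ∨ m = Finsupp.single 1 1 := by
        rcases Nat.eq_zero_or_pos (m 0) with h2 | h2
        · right
          ext i
          fin_cases i
          · simpa using h2
          · simp; omega
        · left
          ext i
          fin_cases i
          · simp; omega
          · simp; omega
      rcases hm with rfl | rfl
      · rw [if_pos rfl, if_neg, add_zero]
        intro h3
        have := DFunLike.congr_fun h3 0
        simp at this
      · rw [if_neg, if_pos rfl, zero_add]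
        intro h3
        have := DFunLike.congr_fun h3 0
        simp at this
  conv_lhs => rw [h1]
  simp [MvPolynomial.eval_monomial]

/-- Moebius maps are exceptional (they have a fixed point). -/
theorem exc_of_degree_one {F G : MvPolynomial (Fin 2) ℂ} (h : IsMap F G 1) : Exc F G := by
  obtain ⟨α, hα⟩ : ∃ α, α = F.coeff (Finsupp.single 0 1) := ⟨_, rfl⟩
  obtain ⟨β, hβ⟩ : ∃ β, β = F.coeff (Finsupp.single 1 1) := ⟨_, rfl⟩
  obtain ⟨γ, hγ⟩ : ∃ γ, γ = G.coeff (Finsupp.single 0 1) := ⟨_, rfl⟩
  obtain ⟨δ, hδ⟩ : ∃ δ, δ = G.coeff (Finsupp.single 1 1) := ⟨_, rfl⟩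
  have hF : ∀ v, MvPolynomial.eval v F = α * v 0 + β * v 1 := fun v => by rw [eval_linear h.homF, hα, hβ]
  have hG : ∀ v, MvPolynomial.eval v G = γ * v 0 + δ * v 1 := fun v => by rw [eval_linear h.homG, hγ, hδ]
  have hdet : α * δ - β * γ ≠ 0 := by
    intro h0
    have h1 := h.nz ![δ, -γ] (by rw [hF]; simp; linear_combination h0) (by rw [hG]; simp; ring)
    have h2 := h.nz ![-β, α] (by rw [hF]; simp; ring) (by rw [hG]; simp; linear_combination h0)
    have hδ0 : δ = 0 := by simpa using congrFun h1 0
    have hγ0 : γ = 0 := by simpa using congrFun h1 1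
    have hβ0 : β = 0 := by simpa using congrFun h2 0
    have hα0 : α = 0 := by simpa using congrFun h2 1
    have h3 := h.nz ![1, 0] (by rw [hF, hα0, hβ0]; simp) (by rw [hG, hγ0, hδ0]; simp)
    have := congrFun h3 0
    simp at this
  -- an eigenvector
  obtain ⟨w, hw, hfix⟩ : ∃ w : Fin 2 → ℂ, w ≠ 0 ∧ w 0 * (γ * w 0 + δ * w 1) = w 1 * (α * w 0 + β * w 1) := by
    by_cases hγ0 : γ = 0
    · refine ⟨![1, 0], fun h0 => by simpa using congrFun h0 0, by simp [hγ0]⟩
    · obtain ⟨t, ht⟩ := IsAlgClosed.exists_root (C γ * X ^ 2 + C (δ - α) * X + C (-β) : ℂ[X]) (by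
        rw [degree_quadratic hγ0]; decide)
      refine ⟨![t, 1], fun h0 => by simpa using congrFun h0 1, ?_⟩
      have ht' : γ * t ^ 2 + (δ - α) * t + -β = 0 := by simpa using ht
      simp
      linear_combination ht'
  refine exc_of_totInv h hw fun v hv => ?_
  -- `w` is an eigenvector: `(F w, G w) = l w`
  have key : Par w (phi F G v) ↔ Par w v := by
    unfold Par phi
    simp only [Matrix.cons_val_zero, Matrix.cons_val_one, hF, hG]
    -- `w ∧ M v`; use `M w ∥ w`
    have hw2 : w 0 ≠ 0 ∨ w 1 ≠ 0 := by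
      by_contra h0
      push Not at h0
      exact hw (by ext i; fin_cases i <;> simp [h0.1, h0.2])
    constructor
    · intro h1
      rcases hw2 with h2 | h2
      · have e1 : (α * δ - β * γ) * w 0 * (w 0 * v 1 - w 1 * v 0) = 0 := by
          have e2 : w 0 * ((α * w 0 + β * w 1) * (γ * v 0 + δ * v 1) - (γ * w 0 + δ * w 1) * (α * v 0 + β * v 1)) =
            (α * w 0 + β * w 1) * (w 0 * (γ * v 0 + δ * v 1) - w 1 * (α * v 0 + β * v 1)) -
              (α * v 0 + β * v 1) * (w 0 * (γ * w 0 + δ * w 1) - w 1 * (α * w 0 + β * w 1)) := by ring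
          have e3 : (α * δ - β * γ) * w 0 * (w 0 * v 1 - w 1 * v 0) =
            w 0 * ((α * w 0 + β * w 1) * (γ * v 0 + δ * v 1) - (γ * w 0 + δ * w 1) * (α * v 0 + β * v 1)) := by ring
          rw [e3, e2, h1, hfix]; ring
        have e4 := (mul_eq_zero.1 e1).resolve_left (mul_ne_zero hdet h2)
        linear_combination e4
      · have e1 : (α * δ - β * γ) * w 1 * (w 0 * v 1 - w 1 * v 0) = 0 := by
          have e2 : (α * δ - β * γ) * w 1 * (w 0 * v 1 - w 1 * v 0) =
            (γ * w 0 + δ * w 1) * (w 0 * (γ * v 0 + δ * v 1) - w 1 * (α * v 0 + β * v 1)) -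
              (γ * v 0 + δ * v 1) * (w 0 * (γ * w 0 + δ * w 1) - w 1 * (α * w 0 + β * w 1)) := by ring
          rw [e2, h1, hfix]; ring
        have e4 := (mul_eq_zero.1 e1).resolve_left (mul_ne_zero hdet h2)
        linear_combination e4
    · intro h1
      rcases hw2 with h2 | h2
      · have e1 : w 0 * (w 0 * (γ * v 0 + δ * v 1) - w 1 * (α * v 0 + β * v 1)) = 0 := by
          linear_combination (v 0) * hfix + (w 0 * δ - w 1 * β) * h1
        have e4 := (mul_eq_zero.1 e1).resolve_left h2
        linear_combination e4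
      · have e1 : w 1 * (w 0 * (γ * v 0 + δ * v 1) - w 1 * (α * v 0 + β * v 1)) = 0 := by
          linear_combination (v 1) * hfix + (w 1 * α - w 0 * γ) * h1
        have e4 := (mul_eq_zero.1 e1).resolve_left h2
        linear_combination e4
  exact key

/-- a polynomial (the denominator is a multiple of a power of the second variable) is exceptional. -/
theorem exc_of_polynomial {F G : MvPolynomial (Fin 2) ℂ} {d : ℕ} (h : IsMap F G d) (hd : 1 ≤ d) {c : ℂ}
    (hc : c ≠ 0) (hG : ∀ v : Fin 2 → ℂ, MvPolynomial.eval v G = c * v 1 ^ d) : Exc F G := by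
  refine exc_of_totInv h (w := ![1, 0]) (fun h0 => by simpa using congrFun h0 0) fun v _ => ?_
  unfold Par phi
  simp only [Matrix.cons_val_zero, Matrix.cons_val_one, hG]
  constructor
  · intro h1
    have h2 : c * v 1 ^ d = 0 := by linear_combination h1
    have h3 := (mul_eq_zero.1 h2).resolve_left hc
    rw [pow_eq_zero_iff (by omega)] at h3
    rw [h3]; ring
  · intro h1
    have h2 : v 1 = 0 := by linear_combination h1
    rw [h2, zero_pow (by omega)]; ring

end Pool.Agent.Helper59.PR
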