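import Pool.Agent.Helper59.DX.DegX

/-!
# PR-FIELDDEGA: the degree of a plane curve over the `X`-line

(a) `relfinrank_curve`. PROOF. Let `k = K(x)`; `K[X] → k`, `X ↦ x` is injective with fraction field `k` (`x` transcendental; `IntermediateField.adjoin K {x} ≃ RatFunc K` or `FractionRing`). By Gauss's lemma the image
`q = Q(x, Y) ∈ k[Y]` of the irreducible `Q` of positive degree in `Y` (it has: otherwise `Q = C p`, `p(x) = 0`) is irreducible (`Polynomial.IsPrimitive.irreducible_iff_irreducible_map_fraction_map`, `Irreducible.isPrimitive`), and `q(y) = 0`. So the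
minimal polynomial of `y` over `k` has degree `Q.natDegree` and `[k(y) : k] = Q.natDegree` (`IntermediateField.adjoin.finrank`, `k(y) = K(x,y)`: `IntermediateField.adjoin_adjoin_left`,
`IntermediateField.relfinrank_eq_finrank_of_le`).
-/

set_option autoImplicit false

namespace Pool.Agent.Helper59.PR

open Polynomial IntermediateField Pool.Agent.Helper59.DX

private theorem fda_irr_map {A B : Type*} [Field A] [Field B] (e : A ≃+* B) {p : A[X]} (hp : Irreducible p) :
    Irreducible (p.map (e : A →+* B)) := by
  have h1 : p.map (e : A →+* B) = Polynomial.mapEquiv e p := rfl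
  rw [h1]
  exact (MulEquiv.irreducible_iff (Polynomial.mapEquiv e)).2 hp

theorem relfinrank_curve {K Ω : Type*} [Field K] [Field Ω] [Algebra K Ω] {x y : Ω} (hx : Transcendental K x)
    {Q : K[X][X]} (hQ : Irreducible Q) (h : aevalAeval x y Q = 0) :
    relfinrank (adjoin K {x}) (adjoin K {x, y}) = Q.natDegree := by
  let e : RatFunc K ≃ₐ[K] K⟮x⟯ := RatFunc.algEquivOfTranscendental x hx
  let φ : K[X] →+* K⟮x⟯ := (e.toRingEquiv : RatFunc K →+* K⟮x⟯).comp (algebraMap K[X] (RatFunc K))
  have hφ : ∀ p : K[X], ((φ p : K⟮x⟯) : Ω) = aeval x p := by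
    intro p
    have h1 : φ p = aeval (AdjoinSimple.gen K x) p :=
      RatFunc.algEquivOfTranscendental_algebraMap x hx p
    rw [h1]
    exact (aeval_algebraMap_apply Ω (AdjoinSimple.gen K x) p).symm
  have hdeg : Q.natDegree ≠ 0 := by
    intro h0
    rw [natDegree_eq_zero] at h0
    obtain ⟨p, rfl⟩ := h0
    rw [aevalAeval_C] at h
    have hp : p = 0 := (transcendental_iff.1 hx) p h
    rw [hp, C_0] at hQ
    exact not_irreducible_zero hQ
  have hprim : Q.IsPrimitive := hQ.isPrimitive hdeg
  have hirr1 : Irreducible (Q.map (algebraMap K[X] (RatFunc K))) :=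
    (hprim.irreducible_iff_irreducible_map_fraction_map).1 hQ
  have hirr : Irreducible (Q.map φ) := by
    have h1 : Q.map φ = (Q.map (algebraMap K[X] (RatFunc K))).map
        (e.toRingEquiv : RatFunc K →+* K⟮x⟯) := by
      rw [Polynomial.map_map]
    rw [h1]
    exact fda_irr_map e.toRingEquiv hirr1
  have hφinj : Function.Injective φ := by
    intro a b hab
    have h1 : aeval x (a - b) = 0 := by
      rw [map_sub, ← hφ, ← hφ, hab, sub_self]
    exact sub_eq_zero.1 ((transcendental_iff.1 hx) _ h1)
  have hroot : aeval y (Q.map φ) = 0 := by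
    have h1 : ∀ P : K[X][X], aeval y (P.map φ) = aevalAeval x y P := by
      intro P
      induction P using Polynomial.induction_on' with
      | add p q hp hq => rw [Polynomial.map_add, map_add, map_add, hp, hq]
      | monomial n a =>
        rw [Polynomial.map_monomial, aeval_monomial, ← C_mul_X_pow_eq_monomial, map_mul, map_pow,
          aevalAeval_C, aevalAeval_Y]
        congr 1
        exact hφ a
    rw [h1, h]
  have hne : Q.map φ ≠ 0 := hirr.ne_zero
  have hint : IsIntegral K⟮x⟯ y := by
    have : IsAlgebraic K⟮x⟯ y := ⟨Q.map φ, hne, hroot⟩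
    exact this.isIntegral
  have hmin := minpoly.eq_of_irreducible hirr hroot
  have hdeg2 : (minpoly K⟮x⟯ y).natDegree = Q.natDegree := by
    rw [← hmin, natDegree_mul_C (inv_ne_zero (leadingCoeff_ne_zero.2 hne)), natDegree_map_eq_of_injective hφinj]
  have hle : K⟮x⟯ ≤ adjoin K {x, y} := adjoin.mono K {x} {x, y} (by simp)
  rw [relfinrank_eq_finrank_of_le hle]
  have hext : extendScalars hle = adjoin K⟮x⟯ {y} := by
    rw [extendScalars_adjoin]
    apply le_antisymm
    · rw [adjoin_le_iff]
      intro z hz
      rcases hz with rfl | hz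
      · exact (adjoin K⟮z⟯ {y}).algebraMap_mem (AdjoinSimple.gen K z)
      · exact subset_adjoin _ _ hz
    · exact adjoin.mono _ _ _ (by simp)
  rw [hext, adjoin.finrank hint, hdeg2]

end Pool.Agent.Helper59.PR
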