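import Pool.Agent.Helper38.DM.Prod
import Pool.Agent.Helper59.DX.DegX

/-!
# PR-HEIGHTRA: heights of values of a rational function

Use the API of `Pool/Agent/Helper38/DM/Prod.lean` (`tot`, `tot_posLog`, `tot_mono`, `tot_nonneg_of`, `exists_const_bound`, ...) and see DX/HeightsA.lean, DX/HeightsB.lean (on main) for the same technique.
(a) upper bound: for every place `v`: with `b = B(y) ≠ 0`, `z = A(y)/b`: `v b * max (v z) 1 = max (v (A y)) (v (B y)) ≤ exp (C_v + D log⁺ v(y))`, so `v b ≤ exp (C_v + D log⁺ v(y) - log⁺ v(z))`; product formula (`tot_nonneg_of` for `b`):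
   `0 ≤ tot C + D h(y) - h(z)`.
-/

set_option autoImplicit false

namespace Pool.Agent.Helper59.PR

open Polynomial

private theorem hRA_eval_hom {K : Type} [Field K] (f : K[X]) {n : ℕ} (hn : f.natDegree ≤ n) (x : K) :
    MvPolynomial.eval ![x, 1] (f.homogenize n) = f.eval x := by
  have h := Polynomial.eval₂_homogenize_of_eq_one hn (RingHom.id K) (g := ![x, 1]) (by simp)
  simpa [MvPolynomial.eval₂_id, Polynomial.eval₂_id] using h

theorem height_rat_le {K : Type} [Field K] [NumberField K] (A B : K[X]) (D : ℕ)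
    (hD : max A.natDegree B.natDegree ≤ D) : ∃ C : ℝ, ∀ y z : K, B.eval y ≠ 0 → z * B.eval y = A.eval y →
      Height.logHeight₁ z ≤ D * Height.logHeight₁ y + C := by
  have hA : A.natDegree ≤ D := (le_max_left _ _).trans hD
  have hB : B.natDegree ≤ D := (le_max_right _ _).trans hD
  have hp : ∀ i, ((![A.homogenize D, B.homogenize D] : Fin 2 → MvPolynomial (Fin 2) K) i).IsHomogeneous D := by
    intro i
    fin_cases i
    · exact Polynomial.isHomogeneous_homogenize A
    · exact Polynomial.isHomogeneous_homogenize B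
  obtain ⟨C, hC⟩ := Height.logHeight_eval_le' hp
  refine ⟨C, fun y z hb hz => ?_⟩
  have h := hC ![y, 1]
  have h2 : (fun j => MvPolynomial.eval ![y, 1]
      ((![A.homogenize D, B.homogenize D] : Fin 2 → MvPolynomial (Fin 2) K) j)) =
        B.eval y • ![z, 1] := by
    funext j
    fin_cases j
    · simp only [Fin.zero_eta, Fin.isValue, Matrix.cons_val_zero, Pi.smul_apply, smul_eq_mul]
      rw [hRA_eval_hom A hA y, ← hz, mul_comm]
    · simp only [Fin.mk_one, Fin.isValue, Matrix.cons_val_one, Matrix.cons_val_fin_one, Pi.smul_apply,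
        smul_eq_mul, mul_one]
      exact hRA_eval_hom B hB y
  rw [h2, Height.logHeight_smul_eq_logHeight _ hb, ← Height.logHeight₁_eq_logHeight,
    ← Height.logHeight₁_eq_logHeight] at h
  linarith

end Pool.Agent.Helper59.PR
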