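import Pool.Agent.Helper38.DM.Prod
import Pool.Agent.Helper59.DX.DegX

/-!
# PR-HEIGHTRB: heights of values of a rational function

Use the API of `Pool/Agent/Helper38/DM/Prod.lean` (`tot`, `tot_posLog`, `tot_mono`, `tot_nonneg_of`, `exists_const_bound`, ...) and see DX/HeightsA.lean, DX/HeightsB.lean (on main) for the same technique.
(b) lower bound: for every place `D log⁺ v(y) ≤ C_v + log max (v (A y)) (v (B y)) = C_v + log (v b) + log⁺ v(z)`: if `v y` is large (`> exp (c_v)`), the leading term of the polynomial of degree `D` dominates; if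
   `v y ≤ exp (c_v)`, use the Bezout identity `U A + V B = 1`: `1 ≤ exp (c'_v) max (v (A y)) (v (B y))`. So `v b⁻¹ ≤ exp (C_v + log⁺ v(z) - D log⁺ v(y))` and by the product formula for `b⁻¹`: `0 ≤ tot C + h(z) - D h(y)`.
   (All constants are `Const`s: zero at almost all nonarchimedean places, because there all coefficients of `A, B, U, V` and the leading coefficients are units.)
-/

set_option autoImplicit false

namespace Pool.Agent.Helper59.PR

open Polynomial

private theorem hRB_eval_hom {K : Type} [Field K] (f : K[X]) {n : ℕ} (hn : f.natDegree ≤ n) (x : K) :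
    MvPolynomial.eval ![x, 1] (f.homogenize n) = f.eval x := by
  have h := Polynomial.eval₂_homogenize_of_eq_one hn (RingHom.id K) (g := ![x, 1]) (by simp)
  simpa [MvPolynomial.eval₂_id, Polynomial.eval₂_id] using h

private theorem hRB_bez {K : Type} [Field K] {P Q : K[X]} (hcop : IsCoprime P Q) {D : ℕ} (hD : 1 ≤ D)
    (hP : P.natDegree = D) (hQ : Q.natDegree ≤ D) {R : K[X]} (hR : R.natDegree ≤ 2 * D - 1) :
    ∃ u w : K[X], u.natDegree ≤ D - 1 ∧ w.natDegree ≤ D - 1 ∧ u * P + w * Q = R := by
  obtain ⟨a, b, hab⟩ := hcop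
  have hP0 : P ≠ 0 := by
    rintro rfl
    simp at hP
    omega
  obtain ⟨w, hw⟩ : ∃ w, w = (b * R) % P := ⟨_, rfl⟩
  obtain ⟨u, hu⟩ : ∃ u, u = a * R + ((b * R) / P) * Q := ⟨_, rfl⟩
  have h0 : P * ((b * R) / P) + w = b * R := by
    rw [hw]
    exact EuclideanDomain.div_add_mod _ _
  have h1 : u * P + w * Q = R := by
    rw [hu]
    linear_combination R * hab + Q * h0
  have hwd : w.natDegree ≤ D - 1 := by
    have h2 := Polynomial.natDegree_mod_lt (b * R) (q := P) (by omega)
    rw [← hw] at h2
    omega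
  refine ⟨u, w, ?_, hwd, h1⟩
  by_contra hlt
  have hu0 : u ≠ 0 := by
    rintro rfl
    simp at hlt
  have h3 : (u * P).natDegree = u.natDegree + P.natDegree := Polynomial.natDegree_mul hu0 hP0
  have h4 : (w * Q).natDegree ≤ w.natDegree + Q.natDegree := Polynomial.natDegree_mul_le
  have h5 : (w * Q).natDegree < (u * P).natDegree := by omega
  have h6 := Polynomial.natDegree_add_eq_left_of_natDegree_lt h5
  rw [h1] at h6
  omega

private theorem hRB_bez2 {K : Type} [Field K] {P Q : K[X]} (hcop : IsCoprime P Q)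
    (hD : 1 ≤ max P.natDegree Q.natDegree) {R : K[X]}
    (hR : R.natDegree ≤ 2 * max P.natDegree Q.natDegree - 1) :
    ∃ u w : K[X], u.natDegree ≤ max P.natDegree Q.natDegree - 1 ∧
      w.natDegree ≤ max P.natDegree Q.natDegree - 1 ∧ u * P + w * Q = R := by
  rcases le_total Q.natDegree P.natDegree with h | h
  · rw [max_eq_left h] at *
    exact hRB_bez hcop hD rfl h hR
  · rw [max_eq_right h] at *
    obtain ⟨u, w, h1, h2, h3⟩ := hRB_bez hcop.symm hD rfl h hR
    exact ⟨w, u, h2, h1, by rw [add_comm]; exact h3⟩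

theorem height_rat_ge {K : Type} [Field K] [NumberField K] (A B : K[X]) (hcop : IsCoprime A B) :
    ∃ C : ℝ, ∀ y z : K, B.eval y ≠ 0 → z * B.eval y = A.eval y →
      (max A.natDegree B.natDegree : ℕ) * Height.logHeight₁ y ≤ Height.logHeight₁ z + C := by
  by_cases hD0 : max A.natDegree B.natDegree = 0
  · refine ⟨0, fun y z _ _ => ?_⟩
    rw [hD0, Nat.cast_zero, zero_mul, add_zero]
    exact Height.zero_le_logHeight₁ z
  have hD : 1 ≤ max A.natDegree B.natDegree := Nat.one_le_iff_ne_zero.2 hD0
  obtain ⟨u0, w0, hu0, hw0, h0⟩ := hRB_bez2 hcop hD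
    (R := X ^ (2 * max A.natDegree B.natDegree - 1)) (by rw [Polynomial.natDegree_X_pow])
  obtain ⟨u1, w1, hu1, hw1, h1⟩ := hRB_bez2 hcop hD (R := 1) (by simp)
  have hA : A.natDegree ≤ max A.natDegree B.natDegree := le_max_left _ _
  have hB : B.natDegree ≤ max A.natDegree B.natDegree := le_max_right _ _
  obtain ⟨D, hDD⟩ : ∃ D, D = max A.natDegree B.natDegree := ⟨_, rfl⟩
  rw [← hDD] at hD hu0 hw0 h0 hu1 hw1 hA hB ⊢
  have hq : ∀ a, ((fun a : Fin 2 × Fin 2 => if a.1 = 0 then (if a.2 = 0 then u0.homogenize (D - 1) else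
      w0.homogenize (D - 1)) else (if a.2 = 0 then u1.homogenize (D - 1) else w1.homogenize (D - 1)) :
      Fin 2 × Fin 2 → MvPolynomial (Fin 2) K) a).IsHomogeneous (D - 1) := by
    rintro ⟨i, j⟩
    dsimp only
    split_ifs <;> exact Polynomial.isHomogeneous_homogenize _
  obtain ⟨C, hC⟩ := Height.logHeight_eval_ge' (N := D) hq
  refine ⟨-C, fun y z hb hz => ?_⟩
  have h := hC ![A.homogenize D, B.homogenize D] (x := ![y, 1]) ?_
  · have h2 : (fun j => MvPolynomial.eval ![y, 1]
        ((![A.homogenize D, B.homogenize D] : Fin 2 → MvPolynomial (Fin 2) K) j)) =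
          B.eval y • ![z, 1] := by
      funext j
      fin_cases j
      · simp only [Fin.zero_eta, Fin.isValue, Matrix.cons_val_zero, Pi.smul_apply, smul_eq_mul]
        rw [hRB_eval_hom A hA y, ← hz, mul_comm]
      · simp only [Fin.mk_one, Fin.isValue, Matrix.cons_val_one, Matrix.cons_val_fin_one, Pi.smul_apply,
          smul_eq_mul, mul_one]
        exact hRB_eval_hom B hB y
    rw [h2, Height.logHeight_smul_eq_logHeight _ hb, ← Height.logHeight₁_eq_logHeight,
      ← Height.logHeight₁_eq_logHeight] at h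
    linarith
  · intro k
    rw [Fin.sum_univ_two]
    have h3 : D - 1 + D = 2 * D - 1 := by omega
    fin_cases k
    · have h4 := congrArg (Polynomial.eval y) h0
      simp only [Polynomial.eval_add, Polynomial.eval_mul, Polynomial.eval_pow, Polynomial.eval_X] at h4
      simp only [hRB_eval_hom u0 hu0, hRB_eval_hom w0 hw0, hRB_eval_hom A hA, hRB_eval_hom B hB, h3, if_true,
        Fin.isValue, Fin.zero_eta, Matrix.cons_val_zero, Matrix.cons_val_one, one_ne_zero, if_false]
      exact h4
    · have h4 := congrArg (Polynomial.eval y) h1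
      simp only [Polynomial.eval_add, Polynomial.eval_mul, Polynomial.eval_one] at h4
      simp only [hRB_eval_hom u1 hu1, hRB_eval_hom w1 hw1, hRB_eval_hom A hA, hRB_eval_hom B hB, h3, if_true,
        Fin.isValue, Fin.mk_one, Matrix.cons_val_zero, Matrix.cons_val_one, one_ne_zero, if_false, one_pow,
        Matrix.cons_val_fin_one]
      exact h4

end Pool.Agent.Helper59.PR
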