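import Pool.Agent.Helper59.DX.LemmaL

/-!
# PR-LEMMAL1: non-preperiodic specialisation for all polynomials of degree `≥ 1`

`deg f ≥ 2` is `DX.lemmaL`. Let `f = C l * X + C μ`, `l ≠ 0`.
(1) `orb f n a - orb f m a = δ l^m (1 + l + ... + l^(n-m-1))`, `m < n`, `δ = (l - 1) a + μ` (over any commutative ring). Over a domain the orbit of `a` is injective iff `l ≠ 0`, `δ ≠ 0` and `1 + l + ... + l^(j-1) ≠ 0` for all `j ≥ 1`; in characteristic
    `0` the last condition means: `l = 1` or `l^j ≠ 1` for all `j ≥ 1`.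
(2) Localise: `A' = Localization.Away (α * l * δ)` (as in the proof of `DX.lemmaL`), so we only need `s : A' →+* K` with `s l = 1` if `l = 1` (automatic: any `s`), and with `(s l)^j ≠ 1` for all `j ≥ 1` otherwise.
(3) Noether normalisation `B = MvPolynomial (Fin r) ℚ → A'` injective and finite (`exists_finite_inj_algHom_of_fg`), `m = minpoly B l`.
    Suppose that for every `v : Fin r → ℤ` and every `s : A' →+* ℂ` over `ev ℚ v` the number `s l` is a root of unity. Then `‖s l‖ = 1`, so by `minpoly_growth` (`C = 1`, `E = 0`) and `totalDegree_le_of_growth` all coefficients of `m` have total degree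
    `0`, so `m` has constant coefficients and `l` is algebraic over `ℚ`: it is a root of a polynomial over `ℚ`, so `minpoly ℚ l` makes sense; for any `s` (exists by `exists_extension`) `s l` is a root of `minpoly ℚ l` (irreducible), and `(s l)^j = 1`
    implies `minpoly ℚ l ∣ X^j - 1`, so `l^j = 1`: contradiction. So there is `s : A' →+* ℂ` over some `ev ℚ v` such that `s l` is not a root of unity; its values are algebraic over `ℚ`, `exists_numberField` (see the proof of `DX.lemmaL0`).
-/

set_option autoImplicit false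

namespace Pool.Agent.Helper59.PR

open Polynomial Pool.Agent.Helper59.DX

/-- a specialisation in which an element of infinite order keeps infinite order -/
private theorem exists_spec {A : Type*} [CommRing A] [IsDomain A] [Algebra ℚ A]
    [Algebra.FiniteType ℚ A] (l : A) (hl : ∀ j, 1 ≤ j → l ^ j ≠ 1) :
    ∃ (K : Type) (_ : Field K) (_ : NumberField K) (s : A →+* K),
      ∀ j, 1 ≤ j → (s l) ^ j ≠ 1 := by
  by_contra hcon
  push Not at hcon
  have hbad : ∀ s : A →+* ℂ, (∀ x, IsIntegral ℚ (s x)) → ∃ j, 1 ≤ j ∧ (s l) ^ j = 1 := by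
    intro s hs
    obtain ⟨K, iK, iNK, s', j, hsj⟩ := exists_numberField s fun x => (hs x).isAlgebraic
    obtain ⟨m, hm1, hm⟩ := hcon K iK iNK s'
    refine ⟨m, hm1, ?_⟩
    rw [hsj, RingHom.comp_apply, ← map_pow, hm, map_one]
  obtain ⟨r, ι, hι, hfin⟩ := exists_finite_inj_algHom_of_fg ℚ A
  let _ : Algebra (MvPolynomial (Fin r) ℚ) A := ι.toRingHom.toAlgebra
  have _ : Module.Finite (MvPolynomial (Fin r) ℚ) A := hfin
  have hinjB : Function.Injective (algebraMap (MvPolynomial (Fin r) ℚ) A) := hι
  have huint : IsIntegral (MvPolynomial (Fin r) ℚ) l := Algebra.IsIntegral.isIntegral l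
  have hvint : ∀ (v : Fin r → ℤ) (s : A →+* ℂ),
      s.comp (algebraMap (MvPolynomial (Fin r) ℚ) A) = ev ℚ v → ∀ x, IsIntegral ℚ (s x) := by
    intro v s hs
    apply isIntegral_values _ _ s hs
    intro b
    exact isIntegral_aeval (fun i => ((v i : ℤ) : ℂ)) (fun i => by
      have := isIntegral_algebraMap (R := ℚ) (A := ℂ) (x := ((v i : ℤ) : ℚ))
      simpa using this) b
  have hgrow : ∀ (v : Fin r → ℤ) (s : A →+* ℂ),
      s.comp (algebraMap (MvPolynomial (Fin r) ℚ) A) = ev ℚ v → ‖s l‖ ≤ 1 * sz v ^ 0 := by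
    intro v s hs
    obtain ⟨j, hj1, hj⟩ := hbad s (hvint v s hs)
    have h1 : ‖s l‖ = 1 := Complex.norm_eq_one_of_pow_eq_one hj (by omega)
    rw [h1, pow_zero, mul_one]
  have hcoef := minpoly_growth (R := ℚ) l huint
    (fun v ω hω => roots_lift hinjB (ev ℚ v) l ω hω) le_rfl (C := 1) (E := 0) le_rfl hgrow
  have hlift : minpoly (MvPolynomial (Fin r) ℚ) l ∈
      Polynomial.lifts (MvPolynomial.C : ℚ →+* MvPolynomial (Fin r) ℚ) := by
    rw [Polynomial.lifts_iff_coeff_lifts]
    intro i
    have htd := totalDegree_le_of_growth _ _ _ (hcoef i)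
    rw [Nat.zero_mul, Nat.le_zero] at htd
    exact ⟨_, (MvPolynomial.totalDegree_eq_zero_iff_eq_C.mp htd).symm⟩
  obtain ⟨q, hq1, -, hq3⟩ := Polynomial.lifts_and_natDegree_eq_and_monic hlift (minpoly.monic huint)
  have hlint : IsIntegral ℚ l := by
    refine ⟨q, hq3, ?_⟩
    have h1 : (algebraMap ℚ A) = (algebraMap (MvPolynomial (Fin r) ℚ) A).comp
        (MvPolynomial.C : ℚ →+* MvPolynomial (Fin r) ℚ) := Subsingleton.elim _ _
    rw [h1, ← Polynomial.eval₂_map, hq1]
    exact minpoly.aeval _ l
  obtain ⟨s, hs⟩ := exists_extension (R := MvPolynomial (Fin r) ℚ) (A := A) hinjB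
    (ev ℚ (0 : Fin r → ℤ))
  obtain ⟨j, hj1, hj⟩ := hbad s (hvint 0 s hs)
  apply hl j hj1
  have h2 : minpoly ℚ l = minpoly ℚ (s l) := by
    apply minpoly.eq_of_irreducible_of_monic (minpoly.irreducible hlint) _ (minpoly.monic hlint)
    have h3 := Polynomial.aeval_algHom_apply s.toRatAlgHom l (minpoly ℚ l)
    rw [minpoly.aeval, map_zero] at h3
    exact h3
  have h4 : minpoly ℚ (s l) ∣ (X ^ j - 1 : ℚ[X]) := by
    apply minpoly.dvd
    rw [map_sub, map_pow, aeval_X, map_one, hj, sub_self]
  rw [← h2] at h4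
  have h5 := Polynomial.aeval_eq_zero_of_dvd_aeval_eq_zero h4 (minpoly.aeval ℚ l)
  rw [map_sub, map_pow, aeval_X, map_one] at h5
  exact sub_eq_zero.mp h5

private theorem orb_diff {R : Type*} [CommRing R] (f : R[X]) (l μ a : R)
    (hf : ∀ z, f.eval z = l * z + μ) (m j : ℕ) :
    orb f (m + j) a - orb f m a = (f.eval a - a) * (l ^ m * ∑ i ∈ Finset.range j, l ^ i) := by
  have h1 : ∀ n, orb f (n + 1) a - orb f n a = (f.eval a - a) * l ^ n := by
    intro n
    induction n with
    | zero => rw [orb_succ, orb_zero, pow_zero, mul_one]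
    | succ n ih =>
      rw [orb_succ f (n + 1), hf, pow_succ, ← mul_assoc, ← ih]
      conv_lhs => rw [show orb f (n + 1) a = l * orb f n a + μ by rw [orb_succ, hf]]
      have h2 : orb f (n + 1) a = l * orb f n a + μ := by rw [orb_succ, hf]
      rw [h2]
      ring
  induction j with
  | zero => simp
  | succ j ih =>
    have h3 := h1 (m + j)
    rw [Finset.sum_range_succ, ← add_assoc]
    have h4 : orb f (m + j + 1) a - orb f m a =
        (orb f (m + j + 1) a - orb f (m + j) a) + (orb f (m + j) a - orb f m a) := by ring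
    rw [h4, h3, ih, pow_add]
    ring

private theorem eval_map_lin {A R : Type*} [CommRing A] [CommRing R] (f : A[X]) (l μ : A)
    (hfe : f = C l * X + C μ) (s : A →+* R) (z : R) : (f.map s).eval z = s l * z + s μ := by
  rw [hfe]
  simp

private theorem inj_of {R : Type*} [CommRing R] [IsDomain R] (f : R[X]) (l μ a : R)
    (hf : ∀ z, f.eval z = l * z + μ) (hl : l ≠ 0) (hδ : f.eval a - a ≠ 0)
    (hS : ∀ j, 1 ≤ j → ∑ i ∈ Finset.range j, l ^ i ≠ 0) :
    Function.Injective fun n => orb f n a := by
  have key : ∀ m j, 1 ≤ j → orb f (m + j) a ≠ orb f m a := by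
    intro m j hj h
    have h1 := orb_diff f l μ a hf m j
    rw [h, sub_self] at h1
    exact mul_ne_zero hδ (mul_ne_zero (pow_ne_zero m hl) (hS j hj)) h1.symm
  intro m n h
  by_contra hne
  rcases Nat.lt_or_gt_of_ne hne with hlt | hlt
  · obtain ⟨j, rfl⟩ := Nat.exists_eq_add_of_lt hlt
    exact key m (j + 1) (by omega) (by rw [← add_assoc]; exact h.symm)
  · obtain ⟨j, rfl⟩ := Nat.exists_eq_add_of_lt hlt
    exact key n (j + 1) (by omega) (by rw [← add_assoc]; exact h)

theorem lemmaL1 {A : Type*} [CommRing A] [IsDomain A] [Algebra ℚ A] [Algebra.FiniteType ℚ A] (f : A[X])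
    (hf : 1 ≤ f.natDegree) (a : A) (ha : Function.Injective fun n => orb f n a) (α : A) (hα : α ≠ 0) :
    ∃ (K : Type) (_ : Field K) (_ : NumberField K) (s : A →+* K), s α ≠ 0 ∧ s f.leadingCoeff ≠ 0 ∧
      Function.Injective fun n => orb (f.map s) n (s a) := by
  rcases Nat.lt_or_ge 1 f.natDegree with hd | hd
  · exact lemmaL f hd a ha α hα
  have hdeg : f.natDegree = 1 := le_antisymm hd hf
  set l : A := f.coeff 1 with hl
  set μ : A := f.coeff 0 with hμ
  have hfe : f = C l * X + C μ := Polynomial.eq_X_add_C_of_natDegree_le_one hd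
  have hlc : f.leadingCoeff = l := by rw [Polynomial.leadingCoeff, hdeg]
  have hl0 : l ≠ 0 := by
    rw [← hlc, Polynomial.leadingCoeff_ne_zero]
    rintro rfl
    simp at hdeg
  have hev : ∀ z, f.eval z = l * z + μ := by
    intro z
    conv_lhs => rw [hfe]
    simp
  have hδ : f.eval a - a ≠ 0 := by
    intro h0
    have h1 : (fun n => orb f n a) 1 = (fun n => orb f n a) 0 := by
      change orb f (0 + 1) a = orb f 0 a
      rw [orb_succ, orb_zero]
      exact sub_eq_zero.mp h0
    exact absurd (ha h1) one_ne_zero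
  have hS : ∀ j, 1 ≤ j → ∑ i ∈ Finset.range j, l ^ i ≠ 0 := by
    intro j hj h0
    have h1 := orb_diff f l μ a hev 0 j
    rw [h0, mul_zero, mul_zero, zero_add] at h1
    have h2 : (fun n => orb f n a) j = (fun n => orb f n a) 0 := sub_eq_zero.mp h1
    have h3 := ha h2
    omega
  have hx : α * (l * (f.eval a - a)) ≠ 0 := mul_ne_zero hα (mul_ne_zero hl0 hδ)
  let A' := Localization.Away (α * (l * (f.eval a - a)))
  have hM : Submonoid.powers (α * (l * (f.eval a - a))) ≤ nonZeroDivisors A :=
    powers_le_nonZeroDivisors_of_noZeroDivisors hx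
  have hinj : Function.Injective (algebraMap A A') := IsLocalization.injective A' hM
  have : IsDomain A' := IsLocalization.isDomain_localization hM
  have h1 : Algebra.FiniteType A A' :=
    IsLocalization.finiteType_of_monoid_fg (Submonoid.powers (α * (l * (f.eval a - a)))) A'
  have : Algebra.FiniteType ℚ A' := Algebra.FiniteType.trans (S := A) inferInstance h1
  have hunit : IsUnit (algebraMap A A' (α * (l * (f.eval a - a)))) :=
    IsLocalization.Away.algebraMap_isUnit (α * (l * (f.eval a - a)))
  rw [map_mul, map_mul] at hunit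
  have hua : IsUnit (algebraMap A A' α) := isUnit_of_mul_isUnit_left hunit
  have hu2 := isUnit_of_mul_isUnit_right hunit
  have hul : IsUnit (algebraMap A A' l) := isUnit_of_mul_isUnit_left hu2
  have hud : IsUnit (algebraMap A A' (f.eval a - a)) := isUnit_of_mul_isUnit_right hu2
  -- the conclusion from a good specialisation
  have final : ∀ (K : Type) (_ : Field K) (_ : NumberField K) (s : A' →+* K),
      (∀ j, 1 ≤ j → ∑ i ∈ Finset.range j, (s (algebraMap A A' l)) ^ i ≠ 0) →
      ∃ (K : Type) (_ : Field K) (_ : NumberField K) (s : A →+* K), s α ≠ 0 ∧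
        s f.leadingCoeff ≠ 0 ∧ Function.Injective fun n => orb (f.map s) n (s a) := by
    intro K iK iNK s hs
    refine ⟨K, iK, iNK, s.comp (algebraMap A A'), (hua.map s).ne_zero, ?_, ?_⟩
    · rw [hlc]
      exact (hul.map s).ne_zero
    · apply inj_of _ (s (algebraMap A A' l)) (s (algebraMap A A' μ)) _ _ (hul.map s).ne_zero _ hs
      · intro z
        exact eval_map_lin f l μ hfe (s.comp (algebraMap A A')) z
      · rw [Polynomial.eval_map_apply, ← map_sub]
        exact (hud.map s).ne_zero
  by_cases hl1 : l = 1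
  · obtain ⟨K, iK, iNK, s, -⟩ := exists_spec (A := A') 2 (by
      intro j hj h
      have h2 : ((2 : ℕ) : A') ^ j = ((1 : ℕ) : A') := by
        push_cast
        exact h
      rw [← Nat.cast_pow] at h2
      have : CharZero A' := charZero_of_injective_algebraMap (algebraMap ℚ A').injective
      have h3 : 2 ^ j = 1 := Nat.cast_injective h2
      have h4 : 2 ≤ 2 ^ j := by
        calc 2 = 2 ^ 1 := rfl
          _ ≤ 2 ^ j := Nat.pow_le_pow_right (by norm_num) hj
      omega)
    apply final K iK iNK s
    intro j hj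
    have h2 : algebraMap A A' l = 1 := (congrArg (algebraMap A A') hl1).trans (map_one _)
    rw [h2, map_one]
    simp only [one_pow, Finset.sum_const, Finset.card_range, nsmul_eq_mul, mul_one]
    exact_mod_cast (by omega : j ≠ 0)
  · have hlj : ∀ j, 1 ≤ j → l ^ j ≠ 1 := by
      intro j hj h
      have h2 := mul_geom_sum l j
      rw [h, sub_self] at h2
      exact mul_ne_zero (sub_ne_zero.mpr hl1) (hS j hj) h2
    obtain ⟨K, iK, iNK, s, hs⟩ := exists_spec (A := A') (algebraMap A A' l) (by
      intro j hj h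
      apply hlj j hj
      apply hinj
      rw [map_pow, h, map_one])
    apply final K iK iNK s
    intro j hj h0
    apply hs j hj
    have h2 := mul_geom_sum (s (algebraMap A A' l)) j
    rw [h0, mul_zero] at h2
    exact (sub_eq_zero.mp h2.symm)

end Pool.Agent.Helper59.PR
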