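import Pool.Agent.Helper59.PR.ExcLow

/-!
# PR-LOW: preperiodic orbits, constant maps, and the final statement in the case of one exceptional map
-/

set_option autoImplicit false

namespace Pool.Agent.Helper59.PR

open Polynomial Pool.Agent.Helper59.DX Pool.Agent.Helper59.DML

theorem weight_swap' (w : Fin 2 ⊕ Fin 2 → ℕ) (u : Fin 2 ⊕ Fin 2 →₀ ℕ) :
    Finsupp.weight w (Finsupp.mapDomain Sum.swap u) = Finsupp.weight (w ∘ Sum.swap) u := by
  rw [Finsupp.weight_apply, Finsupp.weight_apply, Finsupp.sum_mapDomain_index]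
  · rfl
  · intro b; simp
  · intro b m n; simp [add_mul]

/-- exchange of the two factors. -/
theorem bihom_swap {H : MvPolynomial (Fin 2 ⊕ Fin 2) ℂ} {p q : ℕ} (hH : Bihom H p q) :
    Bihom (MvPolynomial.rename Sum.swap H) q p := by
  constructor
  · intro d hd
    obtain ⟨u, hu, hu2⟩ := MvPolynomial.coeff_rename_ne_zero _ _ _ hd
    rw [← hu, weight_swap']
    have h1 := hH.2 hu2
    have h2 : (Sum.elim (fun _ : Fin 2 => (1 : ℕ)) (fun _ : Fin 2 => (0 : ℕ))) ∘ Sum.swap =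
        Sum.elim (fun _ : Fin 2 => (0 : ℕ)) (fun _ : Fin 2 => (1 : ℕ)) := by
      funext x
      rcases x with x | x <;> rfl
    rw [h2]
    exact h1
  · intro d hd
    obtain ⟨u, hu, hu2⟩ := MvPolynomial.coeff_rename_ne_zero _ _ _ hd
    rw [← hu, weight_swap']
    have h1 := hH.1 hu2
    have h2 : (Sum.elim (fun _ : Fin 2 => (0 : ℕ)) (fun _ : Fin 2 => (1 : ℕ))) ∘ Sum.swap =
        Sum.elim (fun _ : Fin 2 => (1 : ℕ)) (fun _ : Fin 2 => (0 : ℕ)) := by
      funext x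
      rcases x with x | x <;> rfl
    rw [h2]
    exact h1

theorem eval_swap (H : MvPolynomial (Fin 2 ⊕ Fin 2) ℂ) (u v : Fin 2 → ℂ) :
    MvPolynomial.eval (Sum.elim v u) (MvPolynomial.rename Sum.swap H) =
      MvPolynomial.eval (Sum.elim u v) H := by
  rw [MvPolynomial.eval_rename]
  congr 2
  funext x
  rcases x with x | x <;> rfl

/-- the orbit of `v` under `[F : G]` is finite (as an orbit on the projective line). -/
def PreP (F G : MvPolynomial (Fin 2) ℂ) (v : Fin 2 → ℂ) : Prop :=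
  ∃ m n, m < n ∧ ∀ i, Par ((phi F G)^[m + i] v) ((phi F G)^[n + i] v)

theorem ep_of_preP {F₁ G₁ F₂ G₂ : MvPolynomial (Fin 2) ℂ} {d₁ d₂ : ℕ} (h1 : IsMap F₁ G₁ d₁)
    (h2 : IsMap F₂ G₂ d₂) {H : MvPolynomial (Fin 2 ⊕ Fin 2) ℂ} {p q : ℕ} (hH : Bihom H p q) {a b : Fin 2 → ℂ}
    (ha : a ≠ 0) (hb : b ≠ 0) (hp : PreP F₁ G₁ a ∨ PreP F₂ G₂ b) :
    EP (fun n => MvPolynomial.eval (Sum.elim ((phi F₁ G₁)^[n] a) ((phi F₂ G₂)^[n] b)) H = 0) := by
  rcases hp with hp | hp
  · exact ep_of_preperiodic hH (phi_iter_ne_zero h1 ha) (phi_iter_ne_zero h2 hb) hp (orbit_dichotomy h2 hb)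
  · have key := ep_of_preperiodic (bihom_swap hH) (phi_iter_ne_zero h2 hb) (phi_iter_ne_zero h1 ha) hp
      (orbit_dichotomy h1 ha)
    refine key.congr fun n => ?_
    rw [eval_swap]

/-- every orbit of a constant map is finite. -/
theorem preP_of_degree_zero {F G : MvPolynomial (Fin 2) ℂ} (h : IsMap F G 0) (v : Fin 2 → ℂ) : PreP F G v := by
  have hF : F = MvPolynomial.C (F.coeff 0) := MvPolynomial.totalDegree_eq_zero_iff_eq_C.1
    (Nat.le_zero.1 h.homF.totalDegree_le)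
  have hG : G = MvPolynomial.C (G.coeff 0) := MvPolynomial.totalDegree_eq_zero_iff_eq_C.1
    (Nat.le_zero.1 h.homG.totalDegree_le)
  have hc : ∀ u w, phi F G u = phi F G w := fun u w => by
    unfold phi
    rw [hF, hG]
    simp
  refine ⟨1, 2, one_lt_two, fun i => ?_⟩
  have h3 : (phi F G)^[1 + i] v = (phi F G)^[2 + i] v := by
    rw [show 1 + i = (i + 1) by ring, show 2 + i = (i + 1) + 1 by ring, Function.iterate_succ_apply',
      Function.iterate_succ_apply' _ (i + 1)]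
    exact hc _ _
  rw [h3]
  exact par_refl _

/-- **DML for curves in `P^1 × P^1` when one map has degree at most one or is exceptional.** -/
theorem ep_low (hplane : PlaneR) {F₁ G₁ F₂ G₂ : MvPolynomial (Fin 2) ℂ} {d₁ d₂ : ℕ} (h1 : IsMap F₁ G₁ d₁)
    (h2 : IsMap F₂ G₂ d₂) (hexc : (d₁ ≤ 1 ∨ Exc F₁ G₁) ∨ (d₂ ≤ 1 ∨ Exc F₂ G₂))
    {H : MvPolynomial (Fin 2 ⊕ Fin 2) ℂ} {p q : ℕ} (hH : Bihom H p q) (hH0 : H ≠ 0) {a b : Fin 2 → ℂ}
    (ha : a ≠ 0) (hb : b ≠ 0) :
    EP (fun n => MvPolynomial.eval (Sum.elim ((phi F₁ G₁)^[n] a) ((phi F₂ G₂)^[n] b)) H = 0) := by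
  have key : ∀ {F G : MvPolynomial (Fin 2) ℂ} {d : ℕ} (v : Fin 2 → ℂ), IsMap F G d → (d ≤ 1 ∨ Exc F G) →
      PreP F G v ∨ Exc F G := by
    intro F G d v h hd
    rcases hd with hd | hd
    · have hd' : d = 0 ∨ d = 1 := by omega
      rcases hd' with rfl | rfl
      · exact Or.inl (preP_of_degree_zero h v)
      · exact Or.inr (exc_of_degree_one h)
    · exact Or.inr hd
  rcases hexc with hexc | hexc
  · rcases key a h1 hexc with h | h
    · exact ep_of_preP h1 h2 hH ha hb (Or.inl h)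
    · exact ep_exceptional hplane h1 h2 (Or.inl h) hH hH0 ha hb
  · rcases key b h2 hexc with h | h
    · exact ep_of_preP h1 h2 hH ha hb (Or.inr h)
    · exact ep_exceptional hplane h1 h2 (Or.inr h) hH hH0 ha hb

end Pool.Agent.Helper59.PR
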