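import Pool.Agent.Helper59.DX.Linear
import Pool.Agent.Helper59.PR.Hom

/-!
# PR-MOEBIUS: a linear polynomial and a Moebius map

PROOF: as `Pool.Agent.Helper59.DX.linear_ep` (file DX/Linear.lean, on main: copy and modify). `f = C λ * X + C μ`, `A = α X + β`, `B = γ X + δ` with `α δ - β γ ≠ 0` (coprime, max degree `1`). Embedding `φ : L →+* ℚ_[p]` (`DX.embed_units`) with `‖φ‖ = 1` on `λ`, on
`α δ - β γ` and on the nonzero elements among `μ, α, β, γ, δ` (so all of these have norm `≤ 1`). Lifts `c 0 = ((μ, λ), (1, 0))`, `c 1 = ((β, α), (δ, γ))` (constant coefficient first), `v 0 = ![a, 1]`, `v 1 = ![y 0, 1]`; `jac (c 1) u = ± (α δ - β γ)`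
is a unit; `hlift^n (v 1)` is proportional (with a nonzero factor) to `![y n, 1]` (`IsOrb`), so the multihomogeneous `H` vanishes iff `P.evalEval (orb f n a) (y n) = 0`.
-/

set_option autoImplicit false

namespace Pool.Agent.Helper59.PR

open Polynomial Pool.Agent.Helper59.DX Pool.Agent.Helper59.DML

private def mcoef {R : Type*} [CommRing R] (a b c e : R) : Fin 2 → Fin (1 + 1) → R :=
  ![![b, a], ![e, c]]

private theorem mcoef_map {R S : Type*} [CommRing R] [CommRing S] (φ : R →+* S) (a b c e : R) :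
    (fun k j => φ (mcoef a b c e k j)) = mcoef (φ a) (φ b) (φ c) (φ e) := by
  funext k j
  fin_cases k <;> fin_cases j <;> simp [mcoef]

private theorem hlift_mcoef {R : Type*} [CommRing R] (a b c e : R) (v : Fin 2 → R) :
    hlift (mcoef a b c e) v = ![a * v 0 + b * v 1, c * v 0 + e * v 1] := by
  funext k
  fin_cases k
  · simp [hlift, form, mcoef, Fin.sum_univ_two]
    ring
  · simp [hlift, form, mcoef, Fin.sum_univ_two]
    ring

private theorem jac_mcoef {R : Type*} [CommRing R] (a b c e : R) (v : Fin 2 → R) :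
    jac (mcoef a b c e) v = a * e - b * c := by
  simp [jac, mcoef, Fin.sum_univ_two]
  ring

private theorem iter_mcoef {R : Type*} [CommRing R] (l m x : R) (n : ℕ) :
    (hlift (mcoef l m 0 1))^[n] ![x, 1] = ![(fun z => l * z + m)^[n] x, 1] := by
  induction n with
  | zero => simp
  | succ n ih =>
    rw [Function.iterate_succ_apply', ih, hlift_mcoef, Function.iterate_succ_apply']
    simp

private noncomputable def mexp (M N a b : ℕ) : (Fin 2 × Fin 2) →₀ ℕ :=
  Finsupp.equivFunOnFinite.symm (fun x => if x.1 = 0 then (if x.2 = 0 then a else M - a)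
    else (if x.2 = 0 then b else N - b))

private noncomputable def mH (P : ℂ[X][X]) : MvPolynomial (Fin 2 × Fin 2) ℂ :=
  ∑ b ∈ Finset.range (P.natDegree + 1), ∑ a ∈ Finset.range (degX P + 1),
    MvPolynomial.monomial (mexp (degX P) P.natDegree a b) ((P.coeff b).coeff a)

private theorem mH_multi (P : ℂ[X][X]) : MultiHom (mH P) := by
  classical
  intro i
  refine ⟨if i = 0 then degX P else P.natDegree, ?_⟩
  intro m hm
  obtain ⟨b, hb, hm1⟩ : ∃ b ∈ Finset.range (P.natDegree + 1), m ∈ (∑ a ∈ Finset.range (degX P + 1),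
      MvPolynomial.monomial (mexp (degX P) P.natDegree a b) ((P.coeff b).coeff a)).support := by
    have h := MvPolynomial.support_sum hm
    simpa using h
  obtain ⟨a, ha, hm2⟩ : ∃ a ∈ Finset.range (degX P + 1), m ∈ (
      MvPolynomial.monomial (mexp (degX P) P.natDegree a b) ((P.coeff b).coeff a)).support := by
    have h := MvPolynomial.support_sum hm1
    simpa using h
  have h3 := MvPolynomial.support_monomial_subset hm2
  rw [Finset.mem_singleton] at h3
  rw [Finset.mem_range] at ha hb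
  rw [h3]
  fin_cases i
  · simp [mexp]
    omega
  · simp [mexp]
    omega

private theorem mH_eval (P : ℂ[X][X]) (u : Fin 2 × Fin 2 → ℂ) (κ z : ℂ) (h0 : u (0, 1) = 1)
    (h1 : u (1, 1) = κ) (h2 : u (1, 0) = κ * z) :
    MvPolynomial.eval u (mH P) = κ ^ P.natDegree * P.evalEval (u (0, 0)) z := by
  have h3 : P.evalEval (u (0, 0)) z = ∑ b ∈ Finset.range (P.natDegree + 1),
      ∑ a ∈ Finset.range (degX P + 1), (P.coeff b).coeff a * u (0, 0) ^ a * z ^ b := by
    rw [evalEval, eval_eq_sum_range (p := P), eval_finsetSum]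
    refine Finset.sum_congr rfl fun b _ => ?_
    rw [eval_mul, eval_pow, eval_C, eval_eq_sum_range' (Nat.lt_succ_of_le
      (natDegree_coeff_le_degX P b)), Finset.sum_mul]
  rw [h3, mH, map_sum, Finset.mul_sum]
  refine Finset.sum_congr rfl fun b hb => ?_
  rw [map_sum, Finset.mul_sum]
  refine Finset.sum_congr rfl fun a _ => ?_
  have hb' : b ≤ P.natDegree := Nat.lt_succ_iff.1 (Finset.mem_range.1 hb)
  have hk : κ ^ P.natDegree = κ ^ b * κ ^ (P.natDegree - b) := by
    rw [← pow_add, Nat.add_sub_cancel' hb']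
  rw [MvPolynomial.eval_monomial, Finsupp.prod_fintype _ _ (fun i => pow_zero _)]
  rw [Fintype.prod_prod_type, Fin.prod_univ_two, Fin.prod_univ_two, Fin.prod_univ_two]
  simp only [mexp, Finsupp.equivFunOnFinite_symm_apply_apply, h0, h1, h2, if_true, one_pow,
    mul_one, if_false, one_ne_zero]
  rw [hk, mul_pow]
  ring

private theorem mcoef_core {p : ℕ} [hp : Fact p.Prime] (a b c e : Fin 2 → ℚ_[p])
    (ha : ∀ i, ‖a i‖ ≤ 1) (hb : ∀ i, ‖b i‖ ≤ 1) (hc : ∀ i, ‖c i‖ ≤ 1) (he : ∀ i, ‖e i‖ ≤ 1)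
    (hdet : ∀ i, ‖a i * e i - b i * c i‖ = 1) (v : Fin 2 → Fin 2 → ℚ_[p]) (hv : ∀ i, v i ≠ 0)
    {H : MvPolynomial (Fin 2 × Fin 2) ℚ_[p]} (hH : MHom H) :
    EP (fun n => MvPolynomial.eval (fun x =>
      (hlift (mcoef (a x.1) (b x.1) (c x.1) (e x.1)))^[n] (v x.1) x.2) H = 0) := by
  have hc1 : ∀ i k j, ‖mcoef (a i) (b i) (c i) (e i) k j‖ ≤ 1 := by
    intro i k j
    fin_cases k <;> fin_cases j <;> simp [mcoef, ha, hb, hc, he]
  have hj : ∀ i, ∀ u : Fin 2 → ℚ_[p], ‖jac (mcoef (a i) (b i) (c i) (e i)) u‖ = 1 := by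
    intro i u
    rw [jac_mcoef, hdet]
  have hred : ∀ i, ∀ u : Fin 2 → ℚ_[p], ‖u‖ = 1 →
      ‖hlift (mcoef (a i) (b i) (c i) (e i)) u‖ = 1 :=
    fun i u hu => norm_hlift_eq_one (hc1 i) hu (hj i u)
  exact core' (d := fun _ => 1) (c := fun i => mcoef (a i) (b i) (c i) (e i)) hp.out
    Padic.norm_p_lt_one hc1 hred (fun i u hu => ⟨0, fun n _ => hj i _⟩) hv hH

private theorem det_ne {A B : ℂ[X]} (hcop : IsCoprime A B)
    (hD : max A.natDegree B.natDegree = 1) :
    A.coeff 1 * B.coeff 0 - A.coeff 0 * B.coeff 1 ≠ 0 := by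
  intro h
  have hA : A = C (A.coeff 1) * X + C (A.coeff 0) :=
    eq_X_add_C_of_natDegree_le_one ((le_max_left _ _).trans hD.le)
  have hB : B = C (B.coeff 1) * X + C (B.coeff 0) :=
    eq_X_add_C_of_natDegree_le_one ((le_max_right _ _).trans hD.le)
  have h1 : C (B.coeff 1) * A = C (A.coeff 1) * B := by
    have h2 : C (A.coeff 1) * C (B.coeff 0) = C (A.coeff 0) * C (B.coeff 1) := by
      rw [← C_mul, ← C_mul, sub_eq_zero.1 h]
    conv_lhs => rw [hA]
    conv_rhs => rw [hB]
    linear_combination -h2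
  have hunit : ∀ p : ℂ[X], IsUnit p → p.coeff 1 = 0 := by
    intro p hp
    exact coeff_eq_zero_of_natDegree_lt (by rw [natDegree_eq_zero_of_isUnit hp]; exact one_pos)
  obtain ⟨u, v, huv⟩ := hcop
  by_cases ha : A.coeff 1 = 0
  · by_cases hb : B.coeff 1 = 0
    · rw [ha, C_0, zero_mul, zero_add] at hA
      rw [hb, C_0, zero_mul, zero_add] at hB
      rw [hA, hB, natDegree_C, natDegree_C] at hD
      simp at hD
    · apply hb
      apply hunit
      have h2 : A = C (A.coeff 1 / B.coeff 1) * B := by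
        have h3 : C (B.coeff 1)⁻¹ * (C (B.coeff 1) * A) = C (B.coeff 1)⁻¹ * (C (A.coeff 1) * B) := by
          rw [h1]
        rw [← mul_assoc, ← mul_assoc, ← C_mul, ← C_mul, inv_mul_cancel₀ hb, C_1, one_mul] at h3
        rw [div_eq_inv_mul]
        exact h3
      refine IsUnit.of_mul_eq_one (u * C (A.coeff 1 / B.coeff 1) + v) ?_
      have h4 : u * (C (A.coeff 1 / B.coeff 1) * B) + v * B = 1 := by
        rw [← h2]
        exact huv
      linear_combination h4
  · apply ha
    apply hunit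
    have h2 : B = C (B.coeff 1 / A.coeff 1) * A := by
      have h3 : C (A.coeff 1)⁻¹ * (C (B.coeff 1) * A) = C (A.coeff 1)⁻¹ * (C (A.coeff 1) * B) := by
        rw [h1]
      rw [← mul_assoc, ← mul_assoc, ← C_mul, ← C_mul, inv_mul_cancel₀ ha, C_1, one_mul] at h3
      rw [div_eq_inv_mul]
      exact h3.symm
    refine IsUnit.of_mul_eq_one (u + v * C (B.coeff 1 / A.coeff 1)) ?_
    have h4 : u * A + v * (C (B.coeff 1 / A.coeff 1) * A) = 1 := by
      rw [← h2]
      exact huv
    linear_combination h4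

theorem moebius_ep {f A B : ℂ[X]} (hf : f.natDegree = 1) (hcop : IsCoprime A B)
    (hD : max A.natDegree B.natDegree = 1) (a : ℂ) {y : ℕ → ℂ} (hy : IsOrb A B y) (P : ℂ[X][X]) :
    EP (fun n => P.evalEval (orb f n a) (y n) = 0) := by
  classical
  obtain ⟨l0, m0, hl0, hf'⟩ : ∃ l m : ℂ, l ≠ 0 ∧ ∀ z, f.eval z = l * z + m := by
    refine ⟨f.coeff 1, f.coeff 0, ?_, fun z => ?_⟩
    · intro h
      have h1 : f ≠ 0 := by
        intro h2
        rw [h2] at hf
        simp at hf
      have h2 := leadingCoeff_ne_zero.2 h1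
      rw [leadingCoeff, hf] at h2
      exact h2 h
    · conv_lhs => rw [eq_X_add_C_of_natDegree_le_one hf.le]
      simp
  obtain ⟨al, be, ga, de, hdet0, hA', hB'⟩ : ∃ al be ga de : ℂ, al * de - be * ga ≠ 0 ∧
      (∀ z, A.eval z = al * z + be) ∧ (∀ z, B.eval z = ga * z + de) := by
    refine ⟨A.coeff 1, A.coeff 0, B.coeff 1, B.coeff 0, det_ne hcop hD, fun z => ?_, fun z => ?_⟩
    · conv_lhs => rw [eq_X_add_C_of_natDegree_le_one ((le_max_left _ _).trans hD.le : A.natDegree ≤ 1)]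
      simp
    · conv_lhs => rw [eq_X_add_C_of_natDegree_le_one ((le_max_right _ _).trans hD.le : B.natDegree ≤ 1)]
      simp
  set s : Finset ℂ := {l0, m0, al, be, ga, de, a, y 0} with hs
  have hsub : ∀ x ∈ s, x ∈ IntermediateField.adjoin ℚ (s : Set ℂ) := fun x hx =>
    IntermediateField.subset_adjoin ℚ _ hx
  set L := IntermediateField.adjoin ℚ (s : Set ℂ) with hL
  let L0 : L := ⟨l0, hsub l0 (by simp [hs])⟩
  let M0 : L := ⟨m0, hsub m0 (by simp [hs])⟩
  let AL : L := ⟨al, hsub al (by simp [hs])⟩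
  let BE : L := ⟨be, hsub be (by simp [hs])⟩
  let GA : L := ⟨ga, hsub ga (by simp [hs])⟩
  let DE : L := ⟨de, hsub de (by simp [hs])⟩
  let A0 : L := ⟨a, hsub a (by simp [hs])⟩
  let Y0 : L := ⟨y 0, hsub (y 0) (by simp [hs])⟩
  have eL0 : algebraMap L ℂ L0 = l0 := rfl
  have eM0 : algebraMap L ℂ M0 = m0 := rfl
  have eAL : algebraMap L ℂ AL = al := rfl
  have eBE : algebraMap L ℂ BE = be := rfl
  have eGA : algebraMap L ℂ GA = ga := rfl
  have eDE : algebraMap L ℂ DE = de := rfl
  have eA0 : algebraMap L ℂ A0 = a := rfl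
  have eY0 : algebraMap L ℂ Y0 = y 0 := rfl
  have hL0 : L0 ≠ 0 := fun h => hl0 (by rw [← eL0, h, map_zero])
  have hDt : AL * DE - BE * GA ≠ 0 := by
    intro h
    apply hdet0
    rw [← eAL, ← eBE, ← eGA, ← eDE, ← map_mul, ← map_mul, ← map_sub, h, map_zero]
  obtain ⟨p, hp, φ, hφ⟩ := embed_units s
    (({L0, M0, AL, BE, GA, DE, AL * DE - BE * GA} : Finset L).filter (fun x => x ≠ 0))
    (fun x hx => (Finset.mem_filter.1 hx).2)
  have hle : ∀ x ∈ ({L0, M0, AL, BE, GA, DE, AL * DE - BE * GA} : Finset L), ‖φ x‖ ≤ 1 := by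
    intro x hx
    by_cases h : x = 0
    · rw [h, map_zero, norm_zero]; exact zero_le_one
    · exact (hφ _ (Finset.mem_filter.2 ⟨hx, h⟩)).le
  have nL0 : ‖φ L0‖ = 1 := hφ _ (Finset.mem_filter.2 ⟨by simp, hL0⟩)
  have nDt : ‖φ (AL * DE - BE * GA)‖ = 1 := hφ _ (Finset.mem_filter.2 ⟨by simp, hDt⟩)
  have nM0 : ‖φ M0‖ ≤ 1 := hle _ (by simp)
  have nAL : ‖φ AL‖ ≤ 1 := hle _ (by simp)
  have nBE : ‖φ BE‖ ≤ 1 := hle _ (by simp)
  have nGA : ‖φ GA‖ ≤ 1 := hle _ (by simp)
  have nDE : ‖φ DE‖ ≤ 1 := hle _ (by simp)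
  let ca : Fin 2 → L := ![L0, AL]
  let cb : Fin 2 → L := ![M0, BE]
  let cc : Fin 2 → L := ![0, GA]
  let ce : Fin 2 → L := ![1, DE]
  let v : Fin 2 → Fin 2 → L := ![![A0, 1], ![Y0, 1]]
  have key := transfer (L := L) (E := ℂ) φ (ι := Fin 2) (d := fun _ => 1)
    (fun i => mcoef (ca i) (cb i) (cc i) (ce i)) v {mH P} (by
      intro H hH
      rw [Finset.mem_singleton] at hH
      rw [hH]
      exact mH_multi P) (by
      intro H hH
      simp only [mcoef_map]
      refine mcoef_core (fun i => φ (ca i)) (fun i => φ (cb i)) (fun i => φ (cc i))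
        (fun i => φ (ce i)) ?_ ?_ ?_ ?_ ?_ (fun i k => φ (v i k)) ?_ hH
      · intro i
        fin_cases i
        · exact nL0.le
        · exact nAL
      · intro i
        fin_cases i
        · exact nM0
        · exact nBE
      · intro i
        fin_cases i
        · show ‖φ 0‖ ≤ 1
          rw [map_zero, norm_zero]; exact zero_le_one
        · exact nGA
      · intro i
        fin_cases i
        · show ‖φ 1‖ ≤ 1
          rw [map_one, norm_one]
        · exact nDE
      · intro i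
        fin_cases i
        · show ‖φ L0 * φ 1 - φ M0 * φ 0‖ = 1
          rw [map_one, map_zero, mul_one, mul_zero, sub_zero]
          exact nL0
        · show ‖φ AL * φ DE - φ BE * φ GA‖ = 1
          rw [← map_mul, ← map_mul, ← map_sub]
          exact nDt
      · intro i h
        have h1 := congrFun h 1
        fin_cases i <;> simp [v] at h1)
  refine key.congr fun n => ?_
  have hit0 : (hlift (mcoef L0 M0 0 1))^[n] ![A0, 1] = ![(fun z => L0 * z + M0)^[n] A0, 1] :=
    iter_mcoef _ _ _ _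
  have ho0 : algebraMap L ℂ ((fun z => L0 * z + M0)^[n] A0) = orb f n a := by
    clear key hit0
    induction n with
    | zero => rfl
    | succ n ih =>
      rw [Function.iterate_succ_apply', orb_succ, hf', ← ih, map_add, map_mul]
      rfl
  have ho1 : ∃ κ : ℂ, κ ≠ 0 ∧
      algebraMap L ℂ ((hlift (mcoef AL BE GA DE))^[n] ![Y0, 1] 0) = κ * y n ∧
      algebraMap L ℂ ((hlift (mcoef AL BE GA DE))^[n] ![Y0, 1] 1) = κ := by
    clear key hit0 ho0
    induction n with
    | zero =>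
      refine ⟨1, one_ne_zero, ?_, ?_⟩
      · rw [one_mul]; exact eY0
      · exact map_one _
    | succ n ih =>
      obtain ⟨κ, hκ, h0, h1⟩ := ih
      refine ⟨κ * B.eval (y n), mul_ne_zero hκ (hy n).1, ?_, ?_⟩
      · rw [Function.iterate_succ_apply', hlift_mcoef]
        show algebraMap L ℂ (AL * _ + BE * _) = _
        rw [map_add, map_mul, map_mul, h0, h1, eAL, eBE, mul_assoc,
          mul_comm (B.eval (y n)) (y (n + 1)), (hy n).2, hA']
        ring
      · rw [Function.iterate_succ_apply', hlift_mcoef]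
        show algebraMap L ℂ (GA * _ + DE * _) = _
        rw [map_add, map_mul, map_mul, h0, h1, eGA, eDE, hB']
        ring
  obtain ⟨κ, hκ, h0, h1⟩ := ho1
  have hev := mH_eval P (fun x => algebraMap L ℂ
      ((hlift (mcoef (ca x.1) (cb x.1) (cc x.1) (ce x.1)))^[n] (v x.1) x.2)) κ (y n) (by
        show algebraMap L ℂ ((hlift (mcoef L0 M0 0 1))^[n] ![A0, 1] 1) = 1
        rw [hit0]
        simp) (by
        show algebraMap L ℂ ((hlift (mcoef AL BE GA DE))^[n] ![Y0, 1] 1) = κ
        exact h1) (by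
        show algebraMap L ℂ ((hlift (mcoef AL BE GA DE))^[n] ![Y0, 1] 0) = κ * y n
        exact h0)
  have e0 : algebraMap L ℂ ((hlift (mcoef (ca 0) (cb 0) (cc 0) (ce 0)))^[n] (v 0) 0) =
      orb f n a := by
    show algebraMap L ℂ ((hlift (mcoef L0 M0 0 1))^[n] ![A0, 1] 0) = _
    rw [hit0, ← ho0]
    rfl
  simp only [e0] at hev
  have hκn : κ ^ P.natDegree ≠ 0 := pow_ne_zero _ hκ
  constructor
  · intro h
    have h2 := h _ (Finset.mem_singleton_self _)
    rw [hev] at h2
    exact (mul_eq_zero.1 h2).resolve_left hκn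
  · intro h H hH
    rw [Finset.mem_singleton] at hH
    rw [hH]
    refine hev.trans ?_
    rw [h, mul_zero]

end Pool.Agent.Helper59.PR
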