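import Pool.Agent.Helper59.PR.PJDefs

/-!
# PR-PJBASIC: elementary API for the projective part

`Bihom.eval_smul`: monomials of `H` have degree `p` in the first and `q` in the second pair of variables (weighted homogeneous), so `H(s u, t v) = s^p t^q H(u, v)`.
`par_iff`: for nonzero `v`: `Par v w ↔ ∃ c, w = c • v`. `par_phi`: homogeneity.
`ep_of_preperiodic`: the truth value of `S n` depends only on the classes of `a n`, `b n` (`Bihom.eval_smul`).
 Case both eventually periodic: common period (`max` of the starting points, product of the two periods): `EP`.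
 Case `b` injective on classes: `a` has eventually period `l = n - m` on classes: by `EP.of_classes` (modulo `l`) and `EP.of_shift` it is enough to consider a class `k ↦ l k + j`, on which (for large `k`) `a` is proportional to a
 fixed vector `u ≠ 0`. The form `h(v) = H(u, v)` of degree `q` in `v : Fin 2 → ℂ` either vanishes identically (then `S` is true) or has finitely many classes of zeros (a nonzero binary form: `h(t, 1)` is a polynomial in `t`, finitely many roots, unless it
 vanishes identically, in which case `h = 0`; plus possibly the class of `(1, 0)`), so `S` is true for finitely many `k` only.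
-/

set_option autoImplicit false

namespace Pool.Agent.Helper59.PR

open Polynomial Pool.Agent.Helper59.DX Pool.Agent.Helper59.DML

private theorem ne_zero_cases {v : Fin 2 → ℂ} (hv : v ≠ 0) : v 0 ≠ 0 ∨ v 1 ≠ 0 := by
  by_contra h
  push Not at h
  apply hv
  funext i
  fin_cases i
  · exact h.1
  · exact h.2

theorem par_iff {v w : Fin 2 → ℂ} (hv : v ≠ 0) : Par v w ↔ ∃ c : ℂ, w = c • v := by
  constructor
  · intro h
    unfold Par at h
    rcases ne_zero_cases hv with h0 | h1
    · refine ⟨w 0 / v 0, ?_⟩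
      funext i
      fin_cases i
      · simp only [Fin.zero_eta, Pi.smul_apply, smul_eq_mul]
        field_simp
      · simp only [Fin.mk_one, Pi.smul_apply, smul_eq_mul]
        field_simp
        rw [mul_comm, h]
        ring
    · refine ⟨w 1 / v 1, ?_⟩
      funext i
      fin_cases i
      · simp only [Fin.zero_eta, Pi.smul_apply, smul_eq_mul]
        field_simp
        rw [mul_comm, ← h]
        ring
      · simp only [Fin.mk_one, Pi.smul_apply, smul_eq_mul]
        field_simp
  · rintro ⟨c, rfl⟩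
    unfold Par
    simp only [Pi.smul_apply, smul_eq_mul]
    ring

theorem par_iff' {v w : Fin 2 → ℂ} (hv : v ≠ 0) (hw : w ≠ 0) : Par v w ↔ ∃ c : ℂ, c ≠ 0 ∧ w = c • v := by
  rw [par_iff hv]
  constructor
  · rintro ⟨c, rfl⟩
    refine ⟨c, ?_, rfl⟩
    rintro rfl
    exact hw (zero_smul _ _)
  · rintro ⟨c, _, h⟩
    exact ⟨c, h⟩

theorem par_refl (v : Fin 2 → ℂ) : Par v v := by
  unfold Par
  ring

theorem par_symm {v w : Fin 2 → ℂ} (h : Par v w) : Par w v := by
  unfold Par at h ⊢
  linear_combination -h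

theorem par_trans {u v w : Fin 2 → ℂ} (hv : v ≠ 0) (h1 : Par u v) (h2 : Par v w) : Par u w := by
  obtain ⟨c, rfl⟩ := (par_iff hv).1 h2
  unfold Par at h1 ⊢
  simp only [Pi.smul_apply, smul_eq_mul]
  linear_combination c * h1

variable {F G : MvPolynomial (Fin 2) ℂ} {d : ℕ}

private theorem eval_smul_hom {F : MvPolynomial (Fin 2) ℂ} {d : ℕ} (hF : F.IsHomogeneous d) (c : ℂ)
    (v : Fin 2 → ℂ) : MvPolynomial.eval (c • v) F = c ^ d * MvPolynomial.eval v F := by
  rw [MvPolynomial.eval_eq', MvPolynomial.eval_eq', Finset.mul_sum]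
  refine Finset.sum_congr rfl fun m hm => ?_
  have h1 : Finsupp.weight 1 m = d := hF (MvPolynomial.mem_support_iff.1 hm)
  rw [Finsupp.weight_apply, Finsupp.sum_fintype _ _ (fun i => by simp)] at h1
  simp only [Pi.one_apply, smul_eq_mul, mul_one, Fin.sum_univ_two] at h1
  simp only [Fin.prod_univ_two, Pi.smul_apply, smul_eq_mul, mul_pow]
  rw [← h1, pow_add]
  ring

theorem phi_smul (h : IsMap F G d) (c : ℂ) (v : Fin 2 → ℂ) : phi F G (c • v) = c ^ d • phi F G v := by
  unfold phi
  rw [eval_smul_hom h.homF, eval_smul_hom h.homG]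
  funext i
  fin_cases i <;> simp

theorem phi_ne_zero (h : IsMap F G d) {v : Fin 2 → ℂ} (hv : v ≠ 0) : phi F G v ≠ 0 := by
  intro h0
  apply hv
  have h1 := congrFun h0 0
  have h2 := congrFun h0 1
  simp only [phi, Matrix.cons_val_zero, Pi.zero_apply] at h1
  simp only [phi, Matrix.cons_val_one, Matrix.cons_val_fin_one, Pi.zero_apply] at h2
  exact h.nz v h1 h2

theorem phi_iter_ne_zero (h : IsMap F G d) {v : Fin 2 → ℂ} (hv : v ≠ 0) (n : ℕ) : (phi F G)^[n] v ≠ 0 := by
  induction n with
  | zero => exact hv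
  | succ n ih =>
    rw [Function.iterate_succ_apply']
    exact phi_ne_zero h ih

theorem par_phi_iter (h : IsMap F G d) {v w : Fin 2 → ℂ} (hv : v ≠ 0) (hw : w ≠ 0) (hvw : Par v w) (n : ℕ) :
    Par ((phi F G)^[n] v) ((phi F G)^[n] w) := by
  induction n generalizing v w with
  | zero => exact hvw
  | succ n ih =>
    rw [Function.iterate_succ_apply, Function.iterate_succ_apply]
    refine ih (phi_ne_zero h hv) (phi_ne_zero h hw) ?_
    obtain ⟨c, rfl⟩ := (par_iff hv).1 hvw
    rw [phi_smul h, par_iff (phi_ne_zero h hv)]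
    exact ⟨_, rfl⟩

/-- either the orbit is eventually periodic (as an orbit on the projective line) or it is injective. -/
theorem orbit_dichotomy (h : IsMap F G d) {v : Fin 2 → ℂ} (hv : v ≠ 0) :
    (∃ m n, m < n ∧ ∀ i, Par ((phi F G)^[m + i] v) ((phi F G)^[n + i] v)) ∨
      ∀ m n, m ≠ n → ¬ Par ((phi F G)^[m] v) ((phi F G)^[n] v) := by
  by_cases hex : ∃ m n, m < n ∧ Par ((phi F G)^[m] v) ((phi F G)^[n] v)
  · left
    obtain ⟨m, n, hmn, hp⟩ := hex
    refine ⟨m, n, hmn, fun i => ?_⟩
    have h1 := par_phi_iter h (phi_iter_ne_zero h hv m) (phi_iter_ne_zero h hv n) hp i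
    rw [← Function.iterate_add_apply, ← Function.iterate_add_apply, add_comm i m, add_comm i n] at h1
    exact h1
  · right
    push Not at hex
    intro m n hmn hp
    rcases lt_or_gt_of_ne hmn with h1 | h1
    · exact hex m n h1 hp
    · exact hex n m h1 (par_symm hp)

theorem Bihom.eval_smul {H : MvPolynomial (Fin 2 ⊕ Fin 2) ℂ} {p q : ℕ} (hH : Bihom H p q) (s t : ℂ)
    (u v : Fin 2 → ℂ) : MvPolynomial.eval (Sum.elim (s • u) (t • v)) H =
      s ^ p * t ^ q * MvPolynomial.eval (Sum.elim u v) H := by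
  rw [MvPolynomial.eval_eq', MvPolynomial.eval_eq', Finset.mul_sum]
  refine Finset.sum_congr rfl fun m hm => ?_
  have h1 := hH.1 (MvPolynomial.mem_support_iff.1 hm)
  have h2 := hH.2 (MvPolynomial.mem_support_iff.1 hm)
  rw [Finsupp.weight_apply, Finsupp.sum_fintype _ _ (fun i => by simp)] at h1 h2
  simp only [Fintype.sum_sum_type, Sum.elim_inl, Sum.elim_inr, smul_eq_mul, mul_one, mul_zero,
    Fin.sum_univ_two, add_zero, zero_add] at h1 h2
  simp only [Fintype.prod_sum_type, Fin.prod_univ_two, Sum.elim_inl, Sum.elim_inr, Pi.smul_apply,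
    smul_eq_mul, mul_pow]
  rw [← h1, ← h2, pow_add, pow_add]
  ring

private theorem ep_of_finite {S : ℕ → Prop} (h : {k | S k}.Finite) : EP S := by
  obtain ⟨N, hN⟩ := h.bddAbove
  refine ⟨N + 1, 1, one_pos, fun n hn => ?_⟩
  constructor
  · intro h1
    have := hN h1
    omega
  · intro h1
    have := hN h1
    omega

private theorem ep_of_cofinite {S : ℕ → Prop} (h : {k | ¬ S k}.Finite) : EP S := by
  obtain ⟨n₀, P, hP, h1⟩ := ep_of_finite h
  exact ⟨n₀, P, hP, fun n hn => not_iff_not.1 (h1 n hn)⟩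

/-- the truth value depends on the classes only -/
private theorem cls {H : MvPolynomial (Fin 2 ⊕ Fin 2) ℂ} {p q : ℕ} (hH : Bihom H p q)
    {u u' v v' : Fin 2 → ℂ} (hu : u ≠ 0) (hu' : u' ≠ 0) (hv : v ≠ 0) (hv' : v' ≠ 0)
    (h1 : Par u u') (h2 : Par v v') :
    MvPolynomial.eval (Sum.elim u v) H = 0 ↔ MvPolynomial.eval (Sum.elim u' v') H = 0 := by
  obtain ⟨c, hc, rfl⟩ := (par_iff' hu hu').1 h1
  obtain ⟨e, he, rfl⟩ := (par_iff' hv hv').1 h2
  rw [hH.eval_smul]
  constructor
  · intro h
    rw [h, mul_zero]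
  · intro h
    exact (mul_eq_zero.1 h).resolve_left (mul_ne_zero (pow_ne_zero _ hc) (pow_ne_zero _ he))

private theorem par_period {a : ℕ → Fin 2 → ℂ} (ha0 : ∀ n, a n ≠ 0) {m n : ℕ} (hmn : m < n)
    (ha : ∀ i, Par (a (m + i)) (a (n + i))) (j : ℕ) :
    ∀ k, m ≤ k → Par (a k) (a (k + (n - m) * j)) := by
  induction j with
  | zero =>
    intro k _
    rw [mul_zero, add_zero]
    exact par_refl _
  | succ j ih =>
    intro k hk
    have h1 := ha (k - m)
    have e1 : m + (k - m) = k := by omega
    have e2 : n + (k - m) = k + (n - m) := by omega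
    rw [e1, e2] at h1
    have h2 := ih (k + (n - m)) (by omega)
    have e3 : k + (n - m) + (n - m) * j = k + (n - m) * (j + 1) := by ring
    rw [e3] at h2
    exact par_trans (ha0 _) h1 h2

/-- a fixed first coordinate and pairwise non-proportional second coordinates -/
private theorem ep_fixed {H : MvPolynomial (Fin 2 ⊕ Fin 2) ℂ} {p q : ℕ} (hH : Bihom H p q)
    (u : Fin 2 → ℂ) {b : ℕ → Fin 2 → ℂ}
    (hb : ∀ m n, m ≠ n → ¬ Par (b m) (b n)) :
    EP (fun k => MvPolynomial.eval (Sum.elim u (b k)) H = 0) := by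
  set g : ℂ[X] := MvPolynomial.aeval (Sum.elim (fun i => C (u i)) ![X, (1 : ℂ[X])]) H with hg
  have hev : ∀ x : ℂ, g.eval x = MvPolynomial.eval (Sum.elim u ![x, 1]) H := by
    intro x
    rw [hg, MvPolynomial.aeval_def, ← coe_evalRingHom, MvPolynomial.hom_eval₂]
    have e1 : (evalRingHom x).comp (algebraMap ℂ ℂ[X]) = RingHom.id ℂ := by
      ext y
      simp
    rw [e1]
    unfold MvPolynomial.eval
    simp only [MvPolynomial.coe_eval₂Hom]
    congr 1
    funext i
    rcases i with i | i
    · simp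
    · fin_cases i <;> simp
  have hS : ∀ k, b k 1 ≠ 0 →
      (MvPolynomial.eval (Sum.elim u (b k)) H = 0 ↔ g.eval (b k 0 / b k 1) = 0) := by
    intro k hk
    rw [hev]
    have e1 : b k = b k 1 • ![b k 0 / b k 1, 1] := by
      funext i
      fin_cases i
      · simp
        field_simp
      · simp
    have e2 := hH.eval_smul 1 (b k 1) u ![b k 0 / b k 1, 1]
    rw [one_smul, ← e1, one_pow, one_mul] at e2
    rw [e2]
    constructor
    · intro h
      exact (mul_eq_zero.1 h).resolve_left (pow_ne_zero _ hk)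
    · intro h
      rw [h, mul_zero]
  have hinf : {k | b k 1 = 0}.Finite := by
    refine Set.Subsingleton.finite fun i hi j hj => ?_
    by_contra hij
    apply hb i j hij
    unfold Par
    rw [Set.mem_ofPred_eq] at hi hj
    rw [hi, hj]
    ring
  by_cases hg0 : g = 0
  · refine ep_of_cofinite (hinf.subset fun k hk => ?_)
    rw [Set.mem_ofPred_eq] at hk ⊢
    by_contra hc
    apply hk
    rw [hS k hc, hg0, eval_zero]
  · have hfin : {k | b k 1 ≠ 0 ∧ g.eval (b k 0 / b k 1) = 0}.Finite := by
      have h1 : {x : ℂ | g.eval x = 0}.Finite := by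
        have := g.rootSet_finite ℂ
        refine this.subset fun x hx => ?_
        rw [mem_rootSet]
        refine ⟨hg0, ?_⟩
        rw [coe_aeval_eq_eval]
        exact hx
      refine Set.Finite.of_finite_image (f := fun k => b k 0 / b k 1) (h1.subset ?_) ?_
      · rintro _ ⟨k, hk, rfl⟩
        exact hk.2
      · intro i hi j hj hij
        by_contra hne
        apply hb i j hne
        unfold Par
        have hi1 := hi.1
        have hj1 := hj.1
        simp only at hij
        rw [div_eq_div_iff hi1 hj1] at hij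
        rw [hij]
        ring
    refine ep_of_finite ((hinf.union hfin).subset fun k hk => ?_)
    by_cases hk1 : b k 1 = 0
    · exact Or.inl hk1
    · exact Or.inr ⟨hk1, (hS k hk1).1 hk⟩

theorem ep_of_preperiodic {H : MvPolynomial (Fin 2 ⊕ Fin 2) ℂ} {p q : ℕ} (hH : Bihom H p q)
    {a b : ℕ → Fin 2 → ℂ} (ha0 : ∀ n, a n ≠ 0) (hb0 : ∀ n, b n ≠ 0)
    (ha : ∃ m n, m < n ∧ ∀ i, Par (a (m + i)) (a (n + i)))
    (hb : (∃ m n, m < n ∧ ∀ i, Par (b (m + i)) (b (n + i))) ∨ ∀ m n, m ≠ n → ¬ Par (b m) (b n)) :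
    EP (fun n => MvPolynomial.eval (Sum.elim (a n) (b n)) H = 0) := by
  obtain ⟨m, n, hmn, ha⟩ := ha
  rcases hb with ⟨m', n', hmn', hb⟩ | hb
  · refine ⟨max m m', (n - m) * (n' - m'), Nat.mul_pos (by omega) (by omega), fun k hk => ?_⟩
    have h1 := par_period ha0 hmn ha (n' - m') k ((le_max_left _ _).trans hk)
    have h2 := par_period hb0 hmn' hb (n - m) k ((le_max_right _ _).trans hk)
    rw [mul_comm (n' - m')] at h2
    exact cls hH (ha0 _) (ha0 _) (hb0 _) (hb0 _) h1 h2
  · have hl : 0 < n - m := by omega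
    refine EP.of_classes hl fun j _ => EP.of_shift m ?_
    have h1 := ep_fixed hH (a ((n - m) * m + j)) (b := fun k => b ((n - m) * (k + m) + j))
      (fun k k' hkk' => hb _ _ (by
        intro h
        apply hkk'
        have h3 : (n - m) * (k + m) = (n - m) * (k' + m) := by omega
        have h4 := Nat.eq_of_mul_eq_mul_left hl h3
        omega))
    refine h1.congr fun k => ?_
    refine cls hH (ha0 _) (ha0 _) (hb0 _) (hb0 _) ?_ (par_refl _)
    have h2 := par_period ha0 hmn ha k ((n - m) * m + j) (by nlinarith)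
    have e1 : (n - m) * m + j + (n - m) * k = (n - m) * (k + m) + j := by ring
    rwa [e1] at h2

end Pool.Agent.Helper59.PR
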