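import Pool.Agent.Helper59.PR.PJBasic

/-!
# PR-PJCOA: affine coordinate for a map with a totally invariant point

(a) `coord_polynomial` PROOF. Choose `w'` not proportional to `w` (`w' = ![- w 1, w 0]`-like complex conjugates, or a standard basis vector). Every `v` is `α w + β w'` with `α = det(v,w')/det(w,w')`, `β = det(w,v)/det(w,w')`; `Par w v ↔ β = 0`. The function
`x ↦ phi F G (x w + w')` is polynomial in `x` (`MvPolynomial.aeval (fun i => C (w i) * X + C (w' i)) F`), so there are polynomials `f₁, g₁` with `phi (x w + w') = f₁(x) w + g₁(x) w'`; `g₁(x) ≠ 0` for all `x` (`TotInv`: `Par w (phi v)` only if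
`Par w v`, and `x w + w'` is not proportional to `w`), so `g₁` is a nonzero constant `c` (algebraically closed) and `f := C c⁻¹ * f₁`. If `a = β (x₀ w + w')`, `β ≠ 0`, by induction on `n` (`phi_smul`): `phi^n a = β_n (x_n w + w')`, `x_{n+1} = f(x_n)`.
-/

set_option autoImplicit false

namespace Pool.Agent.Helper59.PR

open Polynomial Pool.Agent.Helper59.DX Pool.Agent.Helper59.DML

private theorem exists_w' {w : Fin 2 → ℂ} (hw : w ≠ 0) :
    ∃ w' : Fin 2 → ℂ, w 0 * w' 1 - w 1 * w' 0 ≠ 0 := by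
  by_cases h0 : w 0 = 0
  · have h1 : w 1 ≠ 0 := by
      intro h1
      apply hw
      funext i
      fin_cases i
      · exact h0
      · exact h1
    refine ⟨![1, 0], ?_⟩
    simpa using h1
  · refine ⟨![0, 1], ?_⟩
    simpa using h0

private theorem decomp {w w' : Fin 2 → ℂ} (hD : w 0 * w' 1 - w 1 * w' 0 ≠ 0) (v : Fin 2 → ℂ) :
    v = ((v 0 * w' 1 - v 1 * w' 0) / (w 0 * w' 1 - w 1 * w' 0)) • w +
      ((w 0 * v 1 - w 1 * v 0) / (w 0 * w' 1 - w 1 * w' 0)) • w' := by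
  have h0 : ∀ i : Fin 2, v i = ((v 0 * w' 1 - v 1 * w' 0) / (w 0 * w' 1 - w 1 * w' 0)) * w i +
      ((w 0 * v 1 - w 1 * v 0) / (w 0 * w' 1 - w 1 * w' 0)) * w' i := by
    intro i
    rw [div_mul_eq_mul_div, div_mul_eq_mul_div, ← add_div, eq_div_iff hD]
    fin_cases i
    · change v 0 * _ = _ * w 0 + _ * w' 0
      ring
    · change v 1 * _ = _ * w 1 + _ * w' 1
      ring
  funext i
  rw [Pi.add_apply, Pi.smul_apply, Pi.smul_apply, smul_eq_mul, smul_eq_mul]
  exact h0 i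

private theorem eval_line (w w' : Fin 2 → ℂ) (F : MvPolynomial (Fin 2) ℂ) (x : ℂ) :
    (MvPolynomial.aeval (fun i => Polynomial.C (w i) * Polynomial.X + Polynomial.C (w' i)) F :
      ℂ[X]).eval x = MvPolynomial.eval (x • w + w') F := by
  induction F using MvPolynomial.induction_on with
  | C a =>
    rw [MvPolynomial.aeval_C, MvPolynomial.eval_C, Polynomial.algebraMap_apply, Polynomial.eval_C]
    rfl
  | add p q hp hq => rw [map_add, Polynomial.eval_add, hp, hq, map_add]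
  | mul_X p i hp =>
    rw [map_mul, Polynomial.eval_mul, hp, map_mul, MvPolynomial.aeval_X, MvPolynomial.eval_X,
      Polynomial.eval_add, Polynomial.eval_mul, Polynomial.eval_C, Polynomial.eval_X,
      Polynomial.eval_C, Pi.add_apply, Pi.smul_apply, smul_eq_mul, mul_comm x]

theorem coord_polynomial {F G : MvPolynomial (Fin 2) ℂ} {d : ℕ} (h : IsMap F G d) {w : Fin 2 → ℂ}
    (hw : w ≠ 0) (hinv : TotInv F G w) : ∃ (w' : Fin 2 → ℂ) (f : ℂ[X]), ¬ Par w w' ∧
      ∀ a : Fin 2 → ℂ, ¬ Par w a → ∃ x₀ : ℂ, ∀ n, ∃ β : ℂ, β ≠ 0 ∧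
        (phi F G)^[n] a = β • (orb f n x₀ • w + w') := by
  obtain ⟨w', hD⟩ := exists_w' hw
  have hDw : ∀ v : Fin 2 → ℂ, Par w v ↔ w 0 * v 1 - w 1 * v 0 = 0 := fun v =>
    sub_eq_zero.symm
  let FP : ℂ[X] :=
    MvPolynomial.aeval (fun i => Polynomial.C (w i) * Polynomial.X + Polynomial.C (w' i)) F
  let GP : ℂ[X] :=
    MvPolynomial.aeval (fun i => Polynomial.C (w i) * Polynomial.X + Polynomial.C (w' i)) G
  let D : ℂ := w 0 * w' 1 - w 1 * w' 0
  let f₁ : ℂ[X] := Polynomial.C D⁻¹ * (FP * Polynomial.C (w' 1) - GP * Polynomial.C (w' 0))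
  let g₁ : ℂ[X] := Polynomial.C D⁻¹ * (Polynomial.C (w 0) * GP - Polynomial.C (w 1) * FP)
  have hF : ∀ x, FP.eval x = phi F G (x • w + w') 0 := fun x => eval_line w w' F x
  have hG : ∀ x, GP.eval x = phi F G (x • w + w') 1 := fun x => eval_line w w' G x
  have hf₁ : ∀ x, f₁.eval x = (phi F G (x • w + w') 0 * w' 1 - phi F G (x • w + w') 1 * w' 0) / D := by
    intro x
    rw [Polynomial.eval_mul, Polynomial.eval_C, Polynomial.eval_sub, Polynomial.eval_mul,
      Polynomial.eval_mul, Polynomial.eval_C, Polynomial.eval_C, hF, hG, div_eq_inv_mul]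
  have hg₁ : ∀ x, g₁.eval x = (w 0 * phi F G (x • w + w') 1 - w 1 * phi F G (x • w + w') 0) / D := by
    intro x
    rw [Polynomial.eval_mul, Polynomial.eval_C, Polynomial.eval_sub, Polynomial.eval_mul,
      Polynomial.eval_mul, Polynomial.eval_C, Polynomial.eval_C, hF, hG, div_eq_inv_mul]
  have hphi : ∀ x, phi F G (x • w + w') = f₁.eval x • w + g₁.eval x • w' := by
    intro x
    rw [hf₁, hg₁]
    exact decomp hD _
  have hg0 : ∀ x, g₁.eval x ≠ 0 := by
    intro x hx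
    have h1 : ¬ Par w (x • w + w') := by
      rw [hDw]
      intro h2
      apply hD
      simp only [Pi.add_apply, Pi.smul_apply, smul_eq_mul] at h2
      linear_combination h2
    have h2 : (x • w + w' : Fin 2 → ℂ) ≠ 0 := by
      intro h3
      apply h1
      rw [h3]
      change w 0 * 0 = w 1 * 0
      ring
    apply h1
    rw [← hinv _ h2, hDw]
    rw [hg₁] at hx
    exact (div_eq_zero_iff.mp hx).resolve_right hD
  have hdeg : g₁.degree = 0 := by
    by_contra hne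
    obtain ⟨x, hx⟩ := IsAlgClosed.exists_root g₁ hne
    exact hg0 x hx
  obtain ⟨c, hc⟩ : ∃ c, g₁ = Polynomial.C c := ⟨_, Polynomial.eq_C_of_degree_eq_zero hdeg⟩
  have hc0 : c ≠ 0 := by
    have h1 := hg0 0
    rwa [hc, Polynomial.eval_C] at h1
  refine ⟨w', Polynomial.C c⁻¹ * f₁, fun hp => hD ((hDw w').mp hp), ?_⟩
  intro a ha
  have ha' : w 0 * a 1 - w 1 * a 0 ≠ 0 := fun h1 => ha ((hDw a).mpr h1)
  have hβ : (w 0 * a 1 - w 1 * a 0) / (w 0 * w' 1 - w 1 * w' 0) ≠ 0 := div_ne_zero ha' hD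
  refine ⟨((a 0 * w' 1 - a 1 * w' 0) / (w 0 * w' 1 - w 1 * w' 0)) /
    ((w 0 * a 1 - w 1 * a 0) / (w 0 * w' 1 - w 1 * w' 0)), ?_⟩
  intro n
  induction n with
  | zero =>
    refine ⟨(w 0 * a 1 - w 1 * a 0) / (w 0 * w' 1 - w 1 * w' 0), hβ, ?_⟩
    rw [Function.iterate_zero, id_eq]
    have h0 : ∀ x₀ : ℂ, orb (Polynomial.C c⁻¹ * f₁) 0 x₀ = x₀ := fun x₀ => rfl
    rw [h0, smul_add, smul_smul, mul_div_cancel₀ _ hβ]
    exact decomp hD a
  | succ n ih =>
    obtain ⟨β, hβn, hn⟩ := ih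
    refine ⟨β ^ d * c, mul_ne_zero (pow_ne_zero _ hβn) hc0, ?_⟩
    rw [Function.iterate_succ_apply', hn, phi_smul h, hphi, hc, Polynomial.eval_C]
    have h1 : ∀ x₀ : ℂ, orb (Polynomial.C c⁻¹ * f₁) (n + 1) x₀ =
        c⁻¹ * f₁.eval (orb (Polynomial.C c⁻¹ * f₁) n x₀) := by
      intro x₀
      change (fun z => (Polynomial.C c⁻¹ * f₁).eval z)^[n + 1] x₀ = _
      rw [Function.iterate_succ_apply', Polynomial.eval_mul, Polynomial.eval_C]
    rw [h1, mul_smul (β ^ d) c]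
    congr 1
    rw [smul_add, smul_smul, mul_inv_cancel_left₀ hc0]

end Pool.Agent.Helper59.PR
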