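import Pool.Agent.Helper59.PR.PJBasic

/-!
# PR-PJCOC: dehomogenisation of a bihomogeneous polynomial

(c) `dehom` PROOF. `P = H(X w + w', Y z + z') ∈ ℂ[X][Y]` (`MvPolynomial.aeval (Sum.elim (fun i => C (C (w i) * X + C (w' i))) (fun i => C (C (z i)) * X + C (C (z' i)))) H`); the value formula is `Bihom.eval_smul` and evaluation. `P ≠ 0`: if `P = 0` then `H`
vanishes at all `(u, v)` with `u` not proportional to `w`, `v` not proportional to `z`; `H * (det(w,u)) * (det(z,v))` (a polynomial in `u, v`) vanishes everywhere so is `0` (`MvPolynomial.funext`), so `H = 0`.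
-/

set_option autoImplicit false

namespace Pool.Agent.Helper59.PR

open Polynomial Pool.Agent.Helper59.DX Pool.Agent.Helper59.DML

/-- decomposition of a vector not proportional to `w` in the form `s • (x • w + w')`. -/
private theorem decomp {w w' u : Fin 2 → ℂ} (hw : ¬ Par w w') (hu : w 0 * u 1 - w 1 * u 0 ≠ 0) :
    ∃ s x : ℂ, u = s • (x • w + w') := by
  have hd : w 0 * w' 1 - w 1 * w' 0 ≠ 0 := by
    intro h
    exact hw (sub_eq_zero.mp h)
  obtain ⟨D, hD⟩ : ∃ D : ℂ, D = w 0 * u 1 - w 1 * u 0 := ⟨_, rfl⟩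
  rw [← hD] at hu
  refine ⟨D / (w 0 * w' 1 - w 1 * w' 0), (u 0 * w' 1 - u 1 * w' 0) / D, ?_⟩
  funext i
  fin_cases i
  · simp only [Pi.smul_apply, Pi.add_apply, smul_eq_mul, Fin.zero_eta]
    field_simp
    rw [hD]
    ring
  · simp only [Pi.smul_apply, Pi.add_apply, smul_eq_mul, Fin.mk_one]
    field_simp
    rw [hD]
    ring

theorem dehom {H : MvPolynomial (Fin 2 ⊕ Fin 2) ℂ} {p q : ℕ} (hH : Bihom H p q) (hH0 : H ≠ 0)
    {w w' z z' : Fin 2 → ℂ} (hw : ¬ Par w w') (hz : ¬ Par z z') :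
    ∃ P : ℂ[X][X], P ≠ 0 ∧ ∀ s t x y : ℂ,
      MvPolynomial.eval (Sum.elim (s • (x • w + w')) (t • (y • z + z'))) H =
        s ^ p * t ^ q * P.evalEval x y := by
  classical
  set g : Fin 2 ⊕ Fin 2 → ℂ[X][X] :=
    Sum.elim (fun i => C (C (w i) * X + C (w' i))) (fun i => C (C (z i)) * X + C (C (z' i))) with hg
  set P : ℂ[X][X] := MvPolynomial.aeval g H with hP
  have hval : ∀ s t x y : ℂ,
      MvPolynomial.eval (Sum.elim (s • (x • w + w')) (t • (y • z + z'))) H =
        s ^ p * t ^ q * P.evalEval x y := by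
    intro s t x y
    rw [Bihom.eval_smul hH]
    congr 1
    have h1 : P.evalEval x y = (evalEvalRingHom x y) (MvPolynomial.aeval g H) := rfl
    rw [h1, MvPolynomial.aeval_def, MvPolynomial.hom_eval₂, MvPolynomial.eval, MvPolynomial.coe_eval₂Hom]
    congr 1
    · ext c
      simp
    · funext i
      rcases i with i | i
      · simp [hg]
        ring
      · simp [hg]
        ring
  refine ⟨P, ?_, hval⟩
  intro hP0
  apply hH0
  have key : H * ((MvPolynomial.C (w 0) * MvPolynomial.X (Sum.inl 1) -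
      MvPolynomial.C (w 1) * MvPolynomial.X (Sum.inl 0)) *
      (MvPolynomial.C (z 0) * MvPolynomial.X (Sum.inr 1) -
      MvPolynomial.C (z 1) * MvPolynomial.X (Sum.inr 0))) = 0 := by
    apply MvPolynomial.funext
    intro r
    simp only [map_mul, map_sub, MvPolynomial.eval_C, MvPolynomial.eval_X, map_zero]
    by_cases h1 : w 0 * r (Sum.inl 1) - w 1 * r (Sum.inl 0) = 0
    · rw [h1]; ring
    by_cases h2 : z 0 * r (Sum.inr 1) - z 1 * r (Sum.inr 0) = 0
    · rw [h2]; ring
    obtain ⟨s, x, hx⟩ := decomp (u := fun i => r (Sum.inl i)) hw h1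
    obtain ⟨t, y, hy⟩ := decomp (u := fun i => r (Sum.inr i)) hz h2
    have hr : r = Sum.elim (s • (x • w + w')) (t • (y • z + z')) := by
      rw [← hx, ← hy]
      funext i
      rcases i with i | i <;> rfl
    have h3 := hval s t x y
    rw [← hr, hP0] at h3
    rw [h3]
    simp
  rcases mul_eq_zero.mp key with h | h
  · exact h
  exfalso
  have hw0 : ¬ (w 0 = 0 ∧ w 1 = 0) := by
    rintro ⟨h0, h1⟩
    apply hw
    simp [Par, h0, h1]
  have hz0 : ¬ (z 0 = 0 ∧ z 1 = 0) := by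
    rintro ⟨h0, h1⟩
    apply hz
    simp [Par, h0, h1]
  rcases mul_eq_zero.mp h with h | h
  · have e1 := congrArg (MvPolynomial.eval (Sum.elim (fun i : Fin 2 => if i = 1 then (1 : ℂ) else 0)
      (fun _ : Fin 2 => (0 : ℂ)))) h
    have e2 := congrArg (MvPolynomial.eval (Sum.elim (fun i : Fin 2 => if i = 0 then (1 : ℂ) else 0)
      (fun _ : Fin 2 => (0 : ℂ)))) h
    simp at e1 e2
    exact hw0 ⟨e1, e2⟩
  · have e1 := congrArg (MvPolynomial.eval (Sum.elim (fun _ : Fin 2 => (0 : ℂ))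
      (fun i : Fin 2 => if i = 1 then (1 : ℂ) else 0))) h
    have e2 := congrArg (MvPolynomial.eval (Sum.elim (fun _ : Fin 2 => (0 : ℂ))
      (fun i : Fin 2 => if i = 0 then (1 : ℂ) else 0))) h
    simp at e1 e2
    exact hz0 ⟨e1, e2⟩

end Pool.Agent.Helper59.PR
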