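import Pool.Agent.Helper59.DML.LemmaZ
import Pool.Agent.Helper59.PR.Defs

/-!
# PR, projective part: definitions

Points of `P^1(ℂ)` are nonzero vectors `v : Fin 2 → ℂ`, rational maps of degree `d` are pairs of forms of degree `d` without common zero.
-/

set_option autoImplicit false

namespace Pool.Agent.Helper59.PR

open Polynomial Pool.Agent.Helper59.DX Pool.Agent.Helper59.DML

/-- proportional vectors. -/
def Par (v w : Fin 2 → ℂ) : Prop := v 0 * w 1 = v 1 * w 0

/-- the lift to `ℂ²` of a rational map. -/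
noncomputable def phi (F G : MvPolynomial (Fin 2) ℂ) (v : Fin 2 → ℂ) : Fin 2 → ℂ :=
  ![MvPolynomial.eval v F, MvPolynomial.eval v G]

/-- `[F : G]` is a rational map of degree `d`. -/
structure IsMap (F G : MvPolynomial (Fin 2) ℂ) (d : ℕ) : Prop where
  homF : F.IsHomogeneous d
  homG : G.IsHomogeneous d
  nz : ∀ v : Fin 2 → ℂ, MvPolynomial.eval v F = 0 → MvPolynomial.eval v G = 0 → v = 0

/-- the point `w` is totally invariant under `[F : G]`: in the coordinate with `w = ∞` the map is a polynomial. -/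
def TotInv (F G : MvPolynomial (Fin 2) ℂ) (w : Fin 2 → ℂ) : Prop :=
  ∀ v : Fin 2 → ℂ, v ≠ 0 → (Par w (phi F G v) ↔ Par w v)

/-- bihomogeneous of bidegree `(p, q)`. -/
def Bihom (H : MvPolynomial (Fin 2 ⊕ Fin 2) ℂ) (p q : ℕ) : Prop :=
  MvPolynomial.IsWeightedHomogeneous
      (Sum.elim (fun _ : Fin 2 => (1 : ℕ)) (fun _ : Fin 2 => (0 : ℕ))) H p ∧
    MvPolynomial.IsWeightedHomogeneous
      (Sum.elim (fun _ : Fin 2 => (0 : ℕ)) (fun _ : Fin 2 => (1 : ℕ))) H q

/-- the plane theorem for a polynomial and a rational map. -/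
def PlaneR : Prop :=
  ∀ (f A B : ℂ[X]) (a : ℂ) (y : ℕ → ℂ), IsCoprime A B → IsOrb A B y → (Function.Injective fun n => orb f n a) →
    Function.Injective y → ∀ P : ℂ[X][X], Irreducible P →
    EP (fun n => P.evalEval (orb f n a) (y n) = 0)

end Pool.Agent.Helper59.PR
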