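import Pool.Agent.Helper59.PR.PJTot

/-!
# PR-PJMAIN: from the plane theorem to `P^1 × P^1`

(c) `ep_exceptional` PROOF. `w` is totally invariant for the second iterate `phi² = phi (F(F,G)) (G(F,G))` (compose: `F₂ = MvPolynomial.aeval ![F, G] F`, `G₂ = MvPolynomial.aeval ![F, G] G`, homogeneous of degree `d^2`, `phi F₂ G₂ = phi ∘ phi`, `IsMap F₂ G₂ (d^2)`). By
`EP.of_classes` with `l = 2` it is enough to treat `k ↦ 2 k + j`, `j < 2`: this is the orbit of `(phi₁^j a, phi₂^j b)` under `(phi₁², phi₂²)`: `ep_totInv`. If the condition holds for the second map instead, exchange the two factors.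
-/

set_option autoImplicit false
namespace Pool.Agent.Helper59.PR

open Polynomial Pool.Agent.Helper59.DX Pool.Agent.Helper59.DML

/-- some point is totally invariant under the second iterate (i.e. it has a finite backward orbit). -/
def Exc (F G : MvPolynomial (Fin 2) ℂ) : Prop :=
  ∃ w : Fin 2 → ℂ, w ≠ 0 ∧ ∀ v : Fin 2 → ℂ, v ≠ 0 → (Par w (phi F G (phi F G v)) ↔ Par w v)

private noncomputable def sq (F G P : MvPolynomial (Fin 2) ℂ) : MvPolynomial (Fin 2) ℂ :=
  MvPolynomial.aeval ![F, G] P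

private theorem eval_sq (F G P : MvPolynomial (Fin 2) ℂ) (v : Fin 2 → ℂ) :
    MvPolynomial.eval v (sq F G P) = MvPolynomial.eval (phi F G v) P := by
  unfold sq
  induction P using MvPolynomial.induction_on with
  | C c => simp
  | add P Q hP hQ => rw [map_add, map_add, map_add, hP, hQ]
  | mul_X P i hP =>
    rw [map_mul, map_mul, map_mul, hP, MvPolynomial.aeval_X, MvPolynomial.eval_X]
    congr 1
    fin_cases i <;> rfl

private theorem phi_sq (F G : MvPolynomial (Fin 2) ℂ) (v : Fin 2 → ℂ) :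
    phi (sq F G F) (sq F G G) v = phi F G (phi F G v) := by
  conv_lhs => unfold phi
  rw [eval_sq, eval_sq]
  rfl

private theorem isMap_sq {F G : MvPolynomial (Fin 2) ℂ} {d : ℕ} (h : IsMap F G d) :
    IsMap (sq F G F) (sq F G G) (d * d) := by
  have hg : ∀ i, (![F, G] i : MvPolynomial (Fin 2) ℂ).IsHomogeneous d := by
    intro i
    fin_cases i
    · exact h.homF
    · exact h.homG
  refine ⟨h.homF.aeval _ hg, h.homG.aeval _ hg, fun v h1 h2 => ?_⟩
  rw [eval_sq] at h1 h2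
  have h3 := h.nz _ h1 h2
  have h4 := congrFun h3 0
  have h5 := congrFun h3 1
  exact h.nz v h4 h5

private theorem iter_sq (F G : MvPolynomial (Fin 2) ℂ) (a : Fin 2 → ℂ) (j k : ℕ) :
    (phi F G)^[2 * k + j] a =
      (phi (sq F G F) (sq F G G))^[k] ((phi F G)^[j] a) := by
  have h1 : phi (sq F G F) (sq F G G) = (phi F G)^[2] := by
    funext v
    rw [phi_sq]
    rfl
  rw [h1, ← Function.iterate_mul, ← Function.iterate_add_apply]

private theorem weight_swap (w : Fin 2 ⊕ Fin 2 → ℕ) (u : Fin 2 ⊕ Fin 2 →₀ ℕ) :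
    Finsupp.weight w (Finsupp.mapDomain Sum.swap u) = Finsupp.weight (w ∘ Sum.swap) u := by
  rw [Finsupp.weight_apply, Finsupp.weight_apply, Finsupp.sum_mapDomain_index]
  · rfl
  · intro b; simp
  · intro b m n; simp [add_mul]

private theorem swap_bihom {H : MvPolynomial (Fin 2 ⊕ Fin 2) ℂ} {p q : ℕ} (hH : Bihom H p q) :
    Bihom (MvPolynomial.rename Sum.swap H) q p := by
  constructor
  · intro d hd
    obtain ⟨u, hu, hu2⟩ := MvPolynomial.coeff_rename_ne_zero _ _ _ hd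
    rw [← hu, weight_swap]
    have h1 := hH.2 hu2
    have h2 : (Sum.elim (fun _ : Fin 2 => (1 : ℕ)) (fun _ : Fin 2 => (0 : ℕ))) ∘ Sum.swap =
        Sum.elim (fun _ : Fin 2 => (0 : ℕ)) (fun _ : Fin 2 => (1 : ℕ)) := by
      funext x
      rcases x with x | x <;> rfl
    rw [h2]
    exact h1
  · intro d hd
    obtain ⟨u, hu, hu2⟩ := MvPolynomial.coeff_rename_ne_zero _ _ _ hd
    rw [← hu, weight_swap]
    have h1 := hH.1 hu2
    have h2 : (Sum.elim (fun _ : Fin 2 => (0 : ℕ)) (fun _ : Fin 2 => (1 : ℕ))) ∘ Sum.swap =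
        Sum.elim (fun _ : Fin 2 => (1 : ℕ)) (fun _ : Fin 2 => (0 : ℕ)) := by
      funext x
      rcases x with x | x <;> rfl
    rw [h2]
    exact h1

private theorem swap_eval (H : MvPolynomial (Fin 2 ⊕ Fin 2) ℂ) (u v : Fin 2 → ℂ) :
    MvPolynomial.eval (Sum.elim v u) (MvPolynomial.rename Sum.swap H) =
      MvPolynomial.eval (Sum.elim u v) H := by
  rw [MvPolynomial.eval_rename]
  congr 2
  funext x
  rcases x with x | x <;> rfl

private theorem ep_exc_left (hplane : PlaneR) {F₁ G₁ F₂ G₂ : MvPolynomial (Fin 2) ℂ} {d₁ d₂ : ℕ}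
    (h1 : IsMap F₁ G₁ d₁) (h2 : IsMap F₂ G₂ d₂) (hexc : Exc F₁ G₁)
    {H : MvPolynomial (Fin 2 ⊕ Fin 2) ℂ} {p q : ℕ} (hH : Bihom H p q) (hH0 : H ≠ 0)
    {a b : Fin 2 → ℂ} (ha : a ≠ 0) (hb : b ≠ 0) :
    EP (fun n => MvPolynomial.eval
      (Sum.elim ((phi F₁ G₁)^[n] a) ((phi F₂ G₂)^[n] b)) H = 0) := by
  obtain ⟨w, hw, hinv⟩ := hexc
  refine EP.of_classes (l := 2) two_pos fun j _ => ?_
  have hinv' : TotInv (sq F₁ G₁ F₁) (sq F₁ G₁ G₁) w := by
    intro v hv
    rw [phi_sq]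
    exact hinv v hv
  have key := ep_totInv hplane (isMap_sq h1) (isMap_sq h2) hw hinv' hH hH0
    (phi_iter_ne_zero h1 ha j) (phi_iter_ne_zero h2 hb j)
  refine key.congr fun n => ?_
  rw [iter_sq, iter_sq]

theorem ep_exceptional (hplane : PlaneR) {F₁ G₁ F₂ G₂ : MvPolynomial (Fin 2) ℂ} {d₁ d₂ : ℕ} (h1 : IsMap F₁ G₁ d₁)
    (h2 : IsMap F₂ G₂ d₂) (hexc : Exc F₁ G₁ ∨ Exc F₂ G₂)
    {H : MvPolynomial (Fin 2 ⊕ Fin 2) ℂ} {p q : ℕ} (hH : Bihom H p q) (hH0 : H ≠ 0) {a b : Fin 2 → ℂ}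
    (ha : a ≠ 0) (hb : b ≠ 0) :
    EP (fun n => MvPolynomial.eval (Sum.elim ((phi F₁ G₁)^[n] a) ((phi F₂ G₂)^[n] b)) H = 0) := by
  rcases hexc with hexc | hexc
  · exact ep_exc_left hplane h1 h2 hexc hH hH0 ha hb
  · have hinj : Function.Injective (Sum.swap : Fin 2 ⊕ Fin 2 → Fin 2 ⊕ Fin 2) := by
      intro x y h
      have := congrArg Sum.swap h
      rwa [Sum.swap_swap, Sum.swap_swap] at this
    have h0 : MvPolynomial.rename Sum.swap H ≠ 0 := by
      intro h
      exact hH0 (MvPolynomial.rename_injective _ hinj (by rw [h, map_zero]))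
    have key := ep_exc_left hplane h2 h1 hexc (swap_bihom hH) h0 hb ha
    refine key.congr fun n => ?_
    rw [swap_eval]

end Pool.Agent.Helper59.PR
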