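import Pool.Agent.Helper59.DX.DegX
import Pool.Agent.Helper59.PR.PJDefs

/-!
# PR-PJPLANE: reducible curves in the plane

(a) `ep_plane` PROOF. `P ≠ 0` is a unit (nonzero constant, `isUnit_iff_deg`) times a finite product of irreducible polynomials; the zero set is the union; each factor gives `EP` (`PlaneR`); `EP` is closed under finite unions (`ep_common`). (Induction
`UniqueFactorizationMonoid.induction_on_prime` / `WfDvdMonoid.induction_on_irreducible`: `EP S → EP T → EP (S ∨ T)`.)
-/

set_option autoImplicit false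

namespace Pool.Agent.Helper59.PR

open Polynomial Pool.Agent.Helper59.DX Pool.Agent.Helper59.DML

private theorem ep_or {S T : ℕ → Prop} (hS : EP S) (hT : EP T) : EP (fun n => S n ∨ T n) := by
  obtain ⟨n0, p, hp, h⟩ := hS
  obtain ⟨m0, q, hq, k⟩ := hT
  refine ⟨max n0 m0, q * p, Nat.mul_pos hq hp, fun n hn => ?_⟩
  have e1 := ep_mul h q n (le_trans (le_max_left _ _) hn)
  have e2 := ep_mul k p n (le_trans (le_max_right _ _) hn)
  rw [Nat.mul_comm p q] at e2
  exact or_congr e1 e2

theorem ep_plane (hplane : PlaneR) {f A B : ℂ[X]} {a : ℂ} {y : ℕ → ℂ} (hcop : IsCoprime A B) (hy : IsOrb A B y)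
    (ha : Function.Injective fun n => orb f n a) (hyi : Function.Injective y) {P : ℂ[X][X]} (hP : P ≠ 0) :
    EP (fun n => P.evalEval (orb f n a) (y n) = 0) := by
  revert hP
  refine WfDvdMonoid.induction_on_irreducible P (fun h => absurd rfl h) ?_ ?_
  · intro u hu _
    refine ⟨0, 1, one_pos, fun n _ => ?_⟩
    have hne : ∀ x z : ℂ, ¬ (u.evalEval x z = 0) := by
      intro x z h0
      have h1 : IsUnit ((evalEvalRingHom x z) u) := hu.map _
      have h2 : (evalEvalRingHom x z) u = u.evalEval x z := rfl
      rw [h2, h0] at h1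
      exact not_isUnit_zero h1
    exact iff_of_false (hne _ _) (hne _ _)
  · intro b i hb hi ih _
    refine (ep_or (hplane f A B a y hcop hy ha hyi i hi) (ih hb)).congr fun n => ?_
    rw [evalEval_mul, mul_eq_zero]

end Pool.Agent.Helper59.PR
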