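import Pool.Agent.Helper59.PR.PJPlane
import Pool.Agent.Helper59.PR.PJCoA
import Pool.Agent.Helper59.PR.PJCoB
import Pool.Agent.Helper59.PR.PJCoC

/-!
# PR-PJTOT: from the plane theorem to `P^1 × P^1`, totally invariant point

(b) `ep_totInv` PROOF. Let `a_n = phi^n a`, `b_n = phi^n b`. By `orbit_dichotomy` both orbits are eventually periodic or injective on classes. If `a_n` is eventually periodic: `ep_of_preperiodic`. If `b_n` is: the same after exchanging the two factors
(`H' = MvPolynomial.rename Sum.swap H`, `Bihom H' q p`, `eval (Sum.elim b a) H' = eval (Sum.elim a b) H`). Otherwise: `a` is not proportional to `w`: if `Par w a`, then by `TotInv` `Par w (a_n)` for all `n`, so `a_0 ∼ a_1`: contradiction.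
`coord_polynomial`, `coord_rational`, `dehom` give `x₀, f, A, B, y, P`; `x_n = orb f n x₀` and `y n` are injective in `n` (equal coordinates mean proportional vectors), and `eval (Sum.elim (a_n) (b_n)) H = β^p β'^q P(x_n, y_n)`, which
vanishes iff `P(x_n,y_n) = 0`. `ep_plane`.
-/

set_option autoImplicit false

namespace Pool.Agent.Helper59.PR

open Polynomial Pool.Agent.Helper59.DX Pool.Agent.Helper59.DML

private theorem wh_swap {H : MvPolynomial (Fin 2 ⊕ Fin 2) ℂ} {w w' : Fin 2 ⊕ Fin 2 → ℕ} {p : ℕ}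
    (h : MvPolynomial.IsWeightedHomogeneous w H p) (hw : ∀ x, w' (Sum.swap x) = w x) :
    MvPolynomial.IsWeightedHomogeneous w' (MvPolynomial.rename Sum.swap H) p := by
  intro e he
  obtain ⟨d, rfl, hd⟩ := MvPolynomial.coeff_rename_ne_zero _ _ _ he
  rw [← h hd, Finsupp.weight_apply, Finsupp.weight_apply, Finsupp.sum_mapDomain_index]
  · refine Finsupp.sum_congr fun x _ => ?_
    rw [hw]
  · intro x
    exact zero_smul _ _
  · intro x m n
    exact add_smul _ _ _

private theorem bihom_swap {H : MvPolynomial (Fin 2 ⊕ Fin 2) ℂ} {p q : ℕ} (hH : Bihom H p q) :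
    Bihom (MvPolynomial.rename Sum.swap H) q p := by
  refine ⟨wh_swap hH.2 ?_, wh_swap hH.1 ?_⟩
  · rintro (x | x) <;> rfl
  · rintro (x | x) <;> rfl

private theorem par_pt {w w' : Fin 2 → ℂ} {x α β : ℂ} :
    Par (α • (x • w + w')) (β • (x • w + w')) := by
  unfold Par
  simp only [Pi.smul_apply, Pi.add_apply, smul_eq_mul]
  ring

theorem ep_totInv (hplane : PlaneR) {F₁ G₁ F₂ G₂ : MvPolynomial (Fin 2) ℂ} {d₁ d₂ : ℕ} (h1 : IsMap F₁ G₁ d₁)
    (h2 : IsMap F₂ G₂ d₂) {w : Fin 2 → ℂ} (hw : w ≠ 0) (hinv : TotInv F₁ G₁ w)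
    {H : MvPolynomial (Fin 2 ⊕ Fin 2) ℂ} {p q : ℕ} (hH : Bihom H p q) (hH0 : H ≠ 0) {a b : Fin 2 → ℂ}
    (ha : a ≠ 0) (hb : b ≠ 0) :
    EP (fun n => MvPolynomial.eval (Sum.elim ((phi F₁ G₁)^[n] a) ((phi F₂ G₂)^[n] b)) H = 0) := by
  have ha0 := fun n => phi_iter_ne_zero h1 ha n
  have hb0 := fun n => phi_iter_ne_zero h2 hb n
  rcases orbit_dichotomy h1 ha with hA | hA
  · exact ep_of_preperiodic hH ha0 hb0 hA (orbit_dichotomy h2 hb)
  rcases orbit_dichotomy h2 hb with hB | hB
  · have h3 := ep_of_preperiodic (bihom_swap hH) hb0 ha0 hB (Or.inr hA)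
    have h4 : ∀ n, MvPolynomial.eval (Sum.elim ((phi F₂ G₂)^[n] b) ((phi F₁ G₁)^[n] a))
        (MvPolynomial.rename Sum.swap H) =
        MvPolynomial.eval (Sum.elim ((phi F₁ G₁)^[n] a) ((phi F₂ G₂)^[n] b)) H := by
      intro n
      rw [MvPolynomial.eval_rename]
      congr 1
      congr 1
      funext x
      rcases x with x | x <;> rfl
    simpa only [h4] using h3
  · have hwa : ¬ Par w a := by
      intro hpar
      have h3 : Par w (phi F₁ G₁ a) := (hinv a ha).mpr hpar
      have h4 : Par a (phi F₁ G₁ a) := par_trans hw (par_symm hpar) h3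
      exact hA 0 1 (by norm_num) h4
    obtain ⟨w', f, hww', hf⟩ := coord_polynomial h1 hw hinv
    obtain ⟨x₀, hx⟩ := hf a hwa
    obtain ⟨z, z', A, B, y, hzz', hcop, horb, hy⟩ := coord_rational h2 hb
    obtain ⟨P, hP0, hP⟩ := dehom hH hH0 hww' hzz'
    have hinjx : Function.Injective (fun n => orb f n x₀) := by
      intro m n hmn
      by_contra hne
      obtain ⟨β, _, hβ⟩ := hx m
      obtain ⟨γ, _, hγ⟩ := hx n
      apply hA m n hne
      have hmn' : orb f m x₀ = orb f n x₀ := hmn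
      rw [hβ, hγ, hmn']
      exact par_pt
    have hinjy : Function.Injective y := by
      intro m n hmn
      by_contra hne
      obtain ⟨β, _, hβ⟩ := hy m
      obtain ⟨γ, _, hγ⟩ := hy n
      apply hB m n hne
      rw [hβ, hγ, hmn]
      exact par_pt
    have h5 := ep_plane hplane hcop horb hinjx hinjy hP0
    have h6 : (fun n => MvPolynomial.eval (Sum.elim ((phi F₁ G₁)^[n] a) ((phi F₂ G₂)^[n] b)) H = 0) =
        (fun n => P.evalEval (orb f n x₀) (y n) = 0) := by
      funext n
      obtain ⟨β, hβ0, hβ⟩ := hx n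
      obtain ⟨γ, hγ0, hγ⟩ := hy n
      rw [hβ, hγ, hP]
      apply propext
      constructor
      · intro h
        exact (mul_eq_zero.mp h).resolve_left (mul_ne_zero (pow_ne_zero _ hβ0) (pow_ne_zero _ hγ0))
      · intro h
        rw [h, mul_zero]
    rw [h6]
    exact h5

end Pool.Agent.Helper59.PR
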