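import Pool.Agent.Helper59.DX.Uneq
import Pool.Agent.Helper59.PR.HeightRA
import Pool.Agent.Helper59.PR.HeightRB
import Pool.Agent.Helper59.PR.LemmaL1
import Pool.Agent.Helper59.PR.Classes
import Pool.Agent.Helper59.PR.CopSpread

/-!
# PR-UNEQ: different degrees (polynomial, rational): finitely many points

PROOF (compare DX/Uneq.lean, DX/Bnd.lean on main). Suppose infinitely many, `R = {n | P(x_n,y_n) = 0}`. `DX.exists_model f A P 1 a (y 0)` and again for `B` (or: `exists_model f A P (C (B) as a bivariate polynomial: B.map C) a (y 0)`) gives a finitely generated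
`ℚ`-algebra `𝒜 ⊂ ℂ` and `f', A', B', P', a', y₀'` over it. Let `v_n = vit D A' B' n (y₀', 1) ∈ 𝒜²`, `D = max (deg A) (deg B)`; in `ℂ`: `v_n = (c y_n, c)`, `c ≠ 0` (`vit_orb`, `vit_map`). So `hm (evalRingHom x'_n) P.natDegree P' v_n.1 v_n.2 = 0` in `𝒜` for `n ∈ R`.
`spread` for `P'` (`α₁`), `cop_spread` for `A', B'` (`α₂`), `lemmaL1` for `f', a', α₁ α₂` gives `s : 𝒜 → K`, `K` a number field, `s α₁, s α₂, s (lc f') ≠ 0`, `X_n := orb (f'.map s) n (s a')` injective. Over `K`: `P_s` absolutely irreducible (so irreducible: `φ = id`) of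
the same degrees `degX = D₁ ≥ 1`, `natDegree = D₂ ≥ 1`; `A_s, B_s` coprime, `max = D`, `V_n := s(v_n) = vit D A_s B_s n (s y₀', 1)`; `hm (evalRingHom X_n) .. V_n = 0` for `n ∈ R`. `exists_shift`: `n₁` with `V_n.2 ≠ 0` for `n ≥ n₁`; `Y_m := V_{n₁+m}.1 / V_{n₁+m}.2`:
`IsOrb A_s B_s Y`, injective (`not_preperiodic`). `X'_m = X_{n₁+m}`. For infinitely many `m`: `P_s(X'_m, Y_m) = 0`.
`P_s` and `swap P_s` are irreducible with no vertical lines (`eval_X_ne_zero`), so (`height_curve` twice) for these `m`: `h(Y_m) ≤ C (1 + h(X'_m))`, `h(X'_m) ≤ C (1 + h(Y_m))`. `d = natDegree f`.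
 * `d < D` (so `D ≥ 2`): `height_rat_ge`: `h(Y_{m+1}) ≥ D h(Y_m) - C`, with Northcott (`NumberField.finite_setOfPred_logHeight₁_le`) and injectivity `h(Y_m) ≥ c D^m` for large `m`, `c > 0`; `height_eval_le`: `h(X'_m) ≤ C (m+1) d^m`. Contradiction for large `m` (`(m+1)(d/D)^m → 0`).
 * `D < d` (so `d ≥ 2`): `h(X'_m) ≥ c d^m` (`height_eval_ge`, Northcott), `h(Y_m) ≤ C (m+1) (max D 1)^m` (`height_rat_le` with `D` replaced by `max D 1`; `D ≥ 1` anyway). Contradiction.
-/

set_option autoImplicit false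

namespace Pool.Agent.Helper59.PR

open Polynomial Pool.Agent.Helper59.DX

private theorem uneq_growth {hx hy : ℕ → ℝ} {d e : ℕ} (hd : 1 ≤ d) (hde : d < e) {D C C1 C3 : ℝ}
    (hD : 0 ≤ D) (hC3 : 0 ≤ C3) (hx1 : ∀ n, hx (n + 1) ≤ d * hx n + C1)
    (hy1 : ∀ n, (e : ℝ) * hy n ≤ hy (n + 1) + C3) {n0 : ℕ} (hn0 : C3 + 1 ≤ hy n0) {S : Set ℕ}
    (hS : S.Infinite) (hle : ∀ n ∈ S, hy n ≤ D * hx n + C) : False := by
  have hd0 : (1 : ℝ) ≤ d := by exact_mod_cast hd
  have he2 : (2 : ℝ) ≤ e := by exact_mod_cast (by omega : 2 ≤ e)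
  have he0 : (0 : ℝ) < e := by linarith
  obtain ⟨C2, hC2a, hC2b, hC2c⟩ : ∃ C2 : ℝ, hx 0 ≤ C2 ∧ C1 ≤ C2 ∧ 0 ≤ C2 :=
    ⟨max (max (hx 0) C1) 0, le_trans (le_max_left _ _) (le_max_left _ _),
      le_trans (le_max_right _ _) (le_max_left _ _), le_max_right _ _⟩
  have hxn : ∀ n : ℕ, hx n ≤ C2 * (n + 1) * (d : ℝ) ^ n := by
    intro n
    induction n with
    | zero => simpa using hC2a
    | succ n ih =>
      have h1 : (1 : ℝ) ≤ (d : ℝ) ^ (n + 1) := one_le_pow₀ hd0
      have h2 : (d : ℝ) * hx n ≤ d * (C2 * (n + 1) * (d : ℝ) ^ n) :=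
        mul_le_mul_of_nonneg_left ih (by linarith)
      have h3 : C2 ≤ C2 * (d : ℝ) ^ (n + 1) := le_mul_of_one_le_right hC2c h1
      have h4 := hx1 n
      push_cast
      rw [pow_succ] at h1 h3 ⊢
      nlinarith
  have hyn : ∀ k : ℕ, (e : ℝ) ^ k + C3 ≤ hy (n0 + k) := by
    intro k
    induction k with
    | zero => simpa [add_comm] using hn0
    | succ k ih =>
      have h1 := hy1 (n0 + k)
      have h2 : (e : ℝ) * ((e : ℝ) ^ k + C3) ≤ e * hy (n0 + k) := mul_le_mul_of_nonneg_left ih he0.le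
      have h3 : 0 ≤ ((e : ℝ) - 2) * C3 := mul_nonneg (by linarith) hC3
      have h4 : n0 + (k + 1) = n0 + k + 1 := by ring
      rw [h4, pow_succ]
      nlinarith
  obtain ⟨r, hr⟩ : ∃ r : ℝ, r = (d : ℝ) / e := ⟨_, rfl⟩
  have hr0 : 0 ≤ r := by rw [hr]; positivity
  have hr1 : r < 1 := by
    rw [hr, div_lt_one he0]
    exact_mod_cast hde
  have habs : |r| < 1 := by rwa [abs_of_nonneg hr0]
  have t1 := tendsto_pow_const_mul_const_pow_of_abs_lt_one 1 habs
  have t0 := tendsto_pow_const_mul_const_pow_of_abs_lt_one 0 habs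
  have he' : |(e : ℝ)⁻¹| < 1 := by
    rw [abs_of_nonneg (by positivity)]
    exact inv_lt_one_of_one_lt₀ (by linarith)
  have t2 := tendsto_pow_const_mul_const_pow_of_abs_lt_one 0 he'
  have t3 : Filter.Tendsto (fun k : ℕ => D * C2 * (d : ℝ) ^ n0 * ((k : ℝ) ^ 1 * r ^ k +
      (n0 + 1) * ((k : ℝ) ^ 0 * r ^ k)) + C * ((k : ℝ) ^ 0 * (e : ℝ)⁻¹ ^ k)) Filter.atTop (nhds 0) := by
    have := ((t1.add (t0.const_mul ((n0 : ℝ) + 1))).const_mul (D * C2 * (d : ℝ) ^ n0)).add (t2.const_mul C)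
    simpa using this
  have t4 := (t3.eventually (gt_mem_nhds (show (0 : ℝ) < 1 by norm_num)))
  obtain ⟨K0, hK0⟩ := Filter.eventually_atTop.1 t4
  obtain ⟨n, hnS, hn⟩ := hS.exists_gt (n0 + K0)
  obtain ⟨k, rfl⟩ : ∃ k, n = n0 + k := ⟨n - n0, by omega⟩
  have h5 := hK0 k (by omega)
  have h6 := hle _ hnS
  have h7 := hyn k
  have h8 : D * hx (n0 + k) ≤ D * (C2 * ((n0 + k : ℕ) + 1) * (d : ℝ) ^ (n0 + k)) :=
    mul_le_mul_of_nonneg_left (hxn _) hD
  have hek : (0 : ℝ) < (e : ℝ) ^ k := by positivity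
  have h9 : (e : ℝ) ^ k ≤ D * (C2 * ((n0 + k : ℕ) + 1) * (d : ℝ) ^ (n0 + k)) + C := by linarith
  have h10 : (e : ℝ) ^ k * (D * C2 * (d : ℝ) ^ n0 * ((k : ℝ) ^ 1 * r ^ k +
      (n0 + 1) * ((k : ℝ) ^ 0 * r ^ k)) + C * ((k : ℝ) ^ 0 * (e : ℝ)⁻¹ ^ k))
      = D * (C2 * ((n0 + k : ℕ) + 1) * (d : ℝ) ^ (n0 + k)) + C := by
    have h11 : (e : ℝ) ^ k * r ^ k = (d : ℝ) ^ k := by
      rw [← mul_pow, hr]
      congr 1
      field_simp
    have h12 : (e : ℝ) ^ k * (e : ℝ)⁻¹ ^ k = 1 := by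
      rw [← mul_pow, mul_inv_cancel₀ he0.ne', one_pow]
    rw [pow_add]
    push_cast
    linear_combination (D * C2 * (d : ℝ) ^ n0 * ((k : ℝ) + n0 + 1)) * h11 + C * h12
  have h13 : (e : ℝ) ^ k * (D * C2 * (d : ℝ) ^ n0 * ((k : ℝ) ^ 1 * r ^ k +
      (n0 + 1) * ((k : ℝ) ^ 0 * r ^ k)) + C * ((k : ℝ) ^ 0 * (e : ℝ)⁻¹ ^ k)) < (e : ℝ) ^ k * 1 :=
    mul_lt_mul_of_pos_left h5 hek
  rw [h10] at h13
  linarith


private theorem hm_eval {R : Type*} [CommRing R] (P : R[X][X]) (x y : R) {n : ℕ} (hn : P.natDegree ≤ n) :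
    hm (evalRingHom x) n P y 1 = P.evalEval x y := by
  rw [hm_one_right _ hn, eval₂_evalRingHom]

private theorem unequal_nf {K : Type} [Field K] [NumberField K] {f A B : K[X]} {Y : ℕ → K}
    (hf : 1 ≤ f.natDegree) (hcop : IsCoprime A B) (hD : 1 ≤ max A.natDegree B.natDegree)
    (hne : max A.natDegree B.natDegree ≠ f.natDegree) (hY : IsOrb A B Y) (hYinj : Function.Injective Y)
    {x : ℕ → K} (hx : ∀ n, x (n + 1) = f.eval (x n)) (hxinj : Function.Injective x)
    {P : K[X][X]} (hP : Irreducible P) (hPX : 1 ≤ degX P) (hPY : 1 ≤ P.natDegree) :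
    {n | P.evalEval (x n) (Y n) = 0}.Finite := by
  by_contra hinf
  have hS : {n | P.evalEval (x n) (Y n) = 0}.Infinite := hinf
  have northcott : ∀ {z : ℕ → K}, Function.Injective z → ∀ C3 : ℝ,
      ∃ n0, max C3 0 + 1 ≤ Height.logHeight₁ (z n0) := by
    intro z hz C3
    by_contra hcon
    push Not at hcon
    have hfin := NumberField.finite_setOfPred_logHeight₁_le (K := K) (max C3 0 + 1)
    exact Set.infinite_range_of_injective hz (hfin.subset (by
      rintro _ ⟨n, rfl⟩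
      exact (hcon n).le))
  rcases lt_or_gt_of_ne hne with hlt | hgt
  · -- `D < d`
    obtain ⟨C, hC⟩ := height_curve (Bivariate.swap P) (fun ξ => eval_X_ne_zero
      ((MulEquiv.irreducible_iff (Bivariate.swap (R := K)).toMulEquiv).2 hP)
      (by rw [show ((Bivariate.swap (R := K)).toMulEquiv P) = Bivariate.swap P from rfl, natDegree_swap]; omega) ξ)
    obtain ⟨C1, hC1⟩ := height_rat_le A B (max A.natDegree B.natDegree) le_rfl
    obtain ⟨C3, hC3⟩ := height_eval_ge f hf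
    obtain ⟨n0, hn0⟩ := northcott hxinj C3
    refine uneq_growth (hx := fun n => Height.logHeight₁ (Y n))
      (hy := fun n => Height.logHeight₁ (x n)) (C := C)
      (D := ((degX (Bivariate.swap P) : ℕ) : ℝ)) hD hlt (Nat.cast_nonneg _)
      (le_max_right C3 0) (C1 := C1) (fun n => ?_) (fun n => ?_) hn0 hS (fun n hn => ?_)
    · exact hC1 _ _ (hY n).1 (hY n).2
    · simp only [hx]
      exact (hC3 _).trans (by linarith [le_max_left C3 0])
    · refine hC _ _ ?_
      rw [evalEval_swap]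
      exact hn
  · obtain ⟨C, hC⟩ := height_curve P (fun ξ => eval_X_ne_zero hP (by omega) ξ)
    obtain ⟨C1, hC1⟩ := height_eval_le f f.natDegree le_rfl
    obtain ⟨C3, hC3⟩ := height_rat_ge A B hcop
    obtain ⟨n0, hn0⟩ := northcott hYinj C3
    refine uneq_growth (hx := fun n => Height.logHeight₁ (x n))
      (hy := fun n => Height.logHeight₁ (Y n)) (C := C)
      (D := ((degX P : ℕ) : ℝ)) hf hgt (Nat.cast_nonneg _)
      (le_max_right C3 0) (C1 := C1) (fun n => ?_) (fun n => ?_) hn0 hS (fun n hn => ?_)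
    · simp only [hx]
      exact hC1 _
    · exact (hC3 _ _ (hY n).1 (hY n).2).trans (by linarith [le_max_left C3 0])
    · exact hC _ _ hn

theorem uneq_R {f A B : ℂ[X]} {a : ℂ} {y : ℕ → ℂ} (hf : 1 ≤ f.natDegree) (hcop : IsCoprime A B)
    (hD : 1 ≤ max A.natDegree B.natDegree) (hne : max A.natDegree B.natDegree ≠ f.natDegree) (hy : IsOrb A B y)
    (ha : Function.Injective fun n => orb f n a) {P : ℂ[X][X]} (hP : Irreducible P) (hPX : 1 ≤ degX P)
    (hPY : 1 ≤ P.natDegree) : {n | P.evalEval (orb f n a) (y n) = 0}.Finite := by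
  by_contra hinf
  have hS : {n | P.evalEval (orb f n a) (y n) = 0}.Infinite := hinf
  obtain ⟨D, hDdef⟩ : ∃ D, D = max A.natDegree B.natDegree := ⟨_, rfl⟩
  obtain ⟨𝒜, _, f', A', P', Q', a', b', hf', hA', hP', hQ', ha', hb'⟩ := exists_model f A P (B.map C) a (y 0)
  have hinj : Function.Injective (algebraMap 𝒜 ℂ) := Subtype.val_injective
  obtain ⟨B', hB'def⟩ : ∃ B' : 𝒜[X], B' = Q'.map (evalRingHom 0) := ⟨_, rfl⟩
  have hB' : B'.map (algebraMap 𝒜 ℂ) = B := by
    have h1 : B'.map (algebraMap 𝒜 ℂ) = (Q'.map (mapRingHom (algebraMap 𝒜 ℂ))).map (evalRingHom 0) := by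
      rw [hB'def, Polynomial.map_map, Polynomial.map_map]
      congr 1
      apply Polynomial.ringHom_ext
      · intro r; simp
      · simp
    rw [h1, hQ', Polynomial.map_map]
    have : (evalRingHom (0 : ℂ)).comp C = RingHom.id ℂ := by
      ext r; simp
    rw [this, Polynomial.map_id]
  have hdf : f'.natDegree = f.natDegree := by
    rw [← hf', Polynomial.natDegree_map_eq_of_injective hinj]
  have hdA : A'.natDegree = A.natDegree := by
    rw [← hA', Polynomial.natDegree_map_eq_of_injective hinj]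
  have hdB : B'.natDegree = B.natDegree := by
    rw [← hB', Polynomial.natDegree_map_eq_of_injective hinj]
  have e1 : degX P' = degX P := by rw [← hP', degX_map_of_injective _ hinj]
  have e2 : P'.natDegree = P.natDegree := by rw [← hP', natDegree_map_of_injective _ hinj]
  obtain ⟨α₁, hα₁, hspread⟩ := spread hinj P' (by rw [hP']; exact hP)
  obtain ⟨α₂, hα₂, hcs⟩ := cop_spread hinj A' B' (by rw [hA', hB']; exact hcop)
  have horb : Function.Injective fun n => orb f' n a' := by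
    intro m n h
    apply ha
    have h1 : algebraMap 𝒜 ℂ (orb f' m a') = algebraMap 𝒜 ℂ (orb f' n a') := congrArg _ h
    rw [← orb_map, ← orb_map, hf', ha'] at h1
    exact h1
  obtain ⟨K, _, _, s, hsα, hsf, hsorb⟩ := lemmaL1 f' (by omega) a' horb (α₁ * α₂) (mul_ne_zero hα₁ hα₂)
  have hs1 : s α₁ ≠ 0 := fun h => hsα (by rw [map_mul, h, zero_mul])
  have hs2 : s α₂ ≠ 0 := fun h => hsα (by rw [map_mul, h, mul_zero])
  obtain ⟨hirr, hdX, hdY⟩ := hspread K s hs1
  obtain ⟨hcopK, hmaxK⟩ := hcs K s hs2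
  have hirrK : Irreducible (P'.map (mapRingHom s)) := by
    have h := hirr K (RingHom.id K)
    rwa [Polynomial.mapRingHom_id, Polynomial.map_id] at h
  have hDK : max (A'.map s).natDegree (B'.map s).natDegree = D := by
    rw [hmaxK, hdA, hdB, hDdef]
  have hFd : (f'.map s).natDegree = f.natDegree := by
    rw [Polynomial.natDegree_map_of_leadingCoeff_ne_zero _ hsf, hdf]
  -- the condition over `𝒜`
  have hmA : ∀ n, P.evalEval (orb f n a) (y n) = 0 →
      hm (evalRingHom (orb f' n a')) P'.natDegree P' (vit D A' B' n (b', 1)).1 (vit D A' B' n (b', 1)).2 = 0 := by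
    intro n hn
    apply hinj
    rw [map_zero, hm_map]
    have hcomp : (algebraMap 𝒜 ℂ).comp (evalRingHom (orb f' n a')) =
        (evalRingHom (orb f n a)).comp (mapRingHom (algebraMap 𝒜 ℂ)) := by
      apply Polynomial.ringHom_ext
      · intro r; simp
      · simp only [RingHom.comp_apply, coe_evalRingHom, eval_X, coe_mapRingHom, Polynomial.map_X]
        rw [← orb_map, hf', ha']
    rw [hcomp, ← hm_map_poly, hP', e2]
    have hv := vit_map (algebraMap 𝒜 ℂ) D A' B' n (b', 1)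
    simp only [map_one] at hv
    rw [hA', hB', hb'] at hv
    obtain ⟨c, hc, hcv⟩ := vit_orb hDdef.ge hy 0 n
    rw [hcv, zero_add] at hv
    have hv1 : algebraMap 𝒜 ℂ (vit D A' B' n (b', 1)).1 = c * y n := (congrArg Prod.fst hv).symm
    have hv2 : algebraMap 𝒜 ℂ (vit D A' B' n (b', 1)).2 = c * 1 := by
      rw [mul_one]; exact (congrArg Prod.snd hv).symm
    rw [hv1, hv2, hm_smul, hm_eval P _ _ le_rfl, hn, mul_zero]
  -- over `K`
  obtain ⟨W, hW⟩ : ∃ W : ℕ → K × K, ∀ n, W n = vit D (A'.map s) (B'.map s) n (s b', 1) := ⟨_, fun _ => rfl⟩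
  have hv0 : ((s b', 1) : K × K) ≠ 0 := by
    intro h
    exact one_ne_zero (congrArg Prod.snd h)
  have hWs : ∀ n, W n = (s (vit D A' B' n (b', 1)).1, s (vit D A' B' n (b', 1)).2) := by
    intro n
    rw [hW, ← vit_map, map_one]
  have hmK : ∀ n, P.evalEval (orb f n a) (y n) = 0 →
      hm (evalRingHom (orb (f'.map s) n (s a'))) (P'.map (mapRingHom s)).natDegree (P'.map (mapRingHom s))
        (vit D (A'.map s) (B'.map s) n (s b', 1)).1 (vit D (A'.map s) (B'.map s) n (s b', 1)).2 = 0 := by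
    intro n hn
    have h0 := congrArg s (hmA n hn)
    rw [map_zero, hm_map] at h0
    have hcomp : s.comp (evalRingHom (orb f' n a')) =
        (evalRingHom (orb (f'.map s) n (s a'))).comp (mapRingHom s) := by
      apply Polynomial.ringHom_ext
      · intro r; simp
      · simp only [RingHom.comp_apply, coe_evalRingHom, eval_X, coe_mapRingHom, Polynomial.map_X]
        rw [orb_map]
    rw [hcomp, ← hm_map_poly] at h0
    rw [← hW, hWs, hdY]
    exact h0
  have hinfK : {n | hm (evalRingHom (orb (f'.map s) n (s a'))) (P'.map (mapRingHom s)).natDegree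
      (P'.map (mapRingHom s)) (vit D (A'.map s) (B'.map s) n (s b', 1)).1
      (vit D (A'.map s) (B'.map s) n (s b', 1)).2 = 0}.Infinite := hS.mono fun n hn => hmK n hn
  have hPXK : 1 ≤ degX (P'.map (mapRingHom s)) := by rw [hdX, e1]; exact hPX
  have hPYK : 1 ≤ (P'.map (mapRingHom s)).natDegree := by rw [hdY, e2]; exact hPY
  obtain ⟨n₁, hn₁⟩ := exists_shift (x := fun n => orb (f'.map s) n (s a')) hirrK hPXK hsorb hcopK hDK hv0 hinfK
  have hn₁' : ∀ m, (W (n₁ + m)).2 ≠ 0 := fun m => by rw [hW]; exact hn₁ _ (by omega)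
  obtain ⟨Y, hYdef⟩ : ∃ Y : ℕ → K, ∀ m, Y m = (W (n₁ + m)).1 / (W (n₁ + m)).2 := ⟨_, fun _ => rfl⟩
  have hAle : (A'.map s).natDegree ≤ D := by rw [← hDK]; exact le_max_left _ _
  have hBle : (B'.map s).natDegree ≤ D := by rw [← hDK]; exact le_max_right _ _
  have hstep : ∀ m, (W (n₁ + (m + 1))).1 = (W (n₁ + m)).2 ^ D * (A'.map s).eval (Y m) ∧
      (W (n₁ + (m + 1))).2 = (W (n₁ + m)).2 ^ D * (B'.map s).eval (Y m) := by
    intro m
    have h1 : W (n₁ + (m + 1)) = lft D (A'.map s) (B'.map s) (W (n₁ + m)) := by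
      rw [hW, hW, ← add_assoc, vit_succ]
    rw [h1]
    constructor
    · show hm (RingHom.id K) D (A'.map s) _ _ = _
      rw [hm_eq _ hAle _ (hn₁' m), hYdef]
      rfl
    · show hm (RingHom.id K) D (B'.map s) _ _ = _
      rw [hm_eq _ hBle _ (hn₁' m), hYdef]
      rfl
  have hYorb : IsOrb (A'.map s) (B'.map s) Y := by
    intro m
    have h1 := hn₁' (m + 1)
    rw [(hstep m).2] at h1
    have h2 : (B'.map s).eval (Y m) ≠ 0 := right_ne_zero_of_mul h1
    have h3 : (W (n₁ + m)).2 ^ D ≠ 0 := left_ne_zero_of_mul h1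
    refine ⟨h2, ?_⟩
    rw [hYdef (m + 1), (hstep m).1, (hstep m).2]
    field_simp
  have hYinj : Function.Injective Y := by
    have key : ∀ m n, m < n → Y m ≠ Y n := by
      intro m n hmn h
      have h1 := not_preperiodic (x := fun n => orb (f'.map s) n (s a')) hirrK hPXK hsorb hcopK hDK hv0 hinfK
        (m := n₁ + m) (n := n₁ + n) (by omega)
      rw [← hW, ← hW] at h1
      apply h1
      rw [hYdef, hYdef, div_eq_div_iff (hn₁' m) (hn₁' n)] at h
      unfold cross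
      linear_combination h
    intro m n h
    rcases lt_trichotomy m n with hlt | heq | hgt
    · exact absurd h (key _ _ hlt)
    · exact heq
    · exact absurd h.symm (key _ _ hgt)
  have hfin := unequal_nf (f := f'.map s) (A := A'.map s) (B := B'.map s) (Y := Y)
    (by rw [hFd]; exact hf) hcopK (by rw [hDK, hDdef]; exact hD) (by rw [hDK, hFd, hDdef]; exact hne) hYorb hYinj
    (x := fun m => orb (f'.map s) (n₁ + m) (s a')) (fun m => orb_succ _ _ _)
    (fun m n h => by have := hsorb h; omega) hirrK hPXK hPYK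
  apply hinfK
  refine ((hfin.image fun m => n₁ + m).union (Set.finite_lt_nat n₁)).subset ?_
  intro n hn
  by_cases hlt : n < n₁
  · exact Or.inr hlt
  · left
    obtain ⟨m, rfl⟩ : ∃ m, n = n₁ + m := ⟨n - n₁, by omega⟩
    refine ⟨m, ?_, rfl⟩
    have h1 : hm (evalRingHom (orb (f'.map s) (n₁ + m) (s a'))) (P'.map (mapRingHom s)).natDegree
      (P'.map (mapRingHom s)) (W (n₁ + m)).1 (W (n₁ + m)).2 = 0 := by rw [hW]; exact hn
    rw [hm_eq _ le_rfl _ (hn₁' m)] at h1
    have h2 := (mul_eq_zero.1 h1).resolve_left (pow_ne_zero _ (hn₁' m))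
    rw [eval₂_evalRingHom, ← hYdef] at h2
    exact h2

end Pool.Agent.Helper59.PR
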