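import Pool.Agent.Helper59.PR.Chain
import Pool.Agent.Helper59.PR.Uneq
import Pool.Agent.Helper59.PR.Moebius
import Pool.Agent.Helper59.PR.PJMain

/-!
# PR-PLANE: the plane theorem for a polynomial and a rational map
-/

set_option autoImplicit false

namespace Pool.Agent.Helper59.PR

open Polynomial Pool.Agent.Helper59.DX Pool.Agent.Helper59.DML

/-- a set of natural numbers stable under `n ↦ n + m` is eventually periodic. -/
theorem ep_of_stable {S : ℕ → Prop} {m : ℕ} (hm : 0 < m) (h : ∀ n, S n → S (n + m)) : EP S := by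
  refine EP.of_classes hm fun j _ => ?_
  by_cases hex : ∃ k, S (m * k + j)
  · obtain ⟨k, hk⟩ := hex
    have hall : ∀ i, S (m * (k + i) + j) := by
      intro i
      induction i with
      | zero => exact hk
      | succ i ih =>
        have := h _ ih
        rw [show m * (k + (i + 1)) + j = m * (k + i) + j + m by ring]
        exact this
    refine ⟨k, 1, one_pos, fun n hn => ?_⟩
    obtain ⟨i, rfl⟩ := Nat.exists_eq_add_of_le hn
    exact ⟨fun _ => hall (i + 1), fun _ => hall i⟩
  · exact ⟨0, 1, one_pos, fun n _ => ⟨fun h1 => (hex ⟨n, h1⟩).elim, fun h1 => (hex ⟨n + 1, h1⟩).elim⟩⟩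

theorem ep_of_finite {S : ℕ → Prop} (h : {n | S n}.Finite) : EP S := by
  obtain ⟨N, hN⟩ := h.bddAbove
  refine ⟨N + 1, 1, one_pos, fun n hn => ?_⟩
  exact ⟨fun h1 => absurd (hN h1) (by omega), fun h1 => absurd (hN h1) (by omega)⟩

theorem degR_pos {A B : ℂ[X]} {y : ℕ → ℂ} (hy : IsOrb A B y) (hyi : Function.Injective y) :
    1 ≤ max A.natDegree B.natDegree := by
  by_contra h0
  have hA : A.natDegree = 0 := by have := le_max_left A.natDegree B.natDegree; omega
  have hB : B.natDegree = 0 := by have := le_max_right A.natDegree B.natDegree; omega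
  obtain ⟨α, hα⟩ := natDegree_eq_zero.1 hA
  obtain ⟨β, hβ⟩ := natDegree_eq_zero.1 hB
  have h1 := hy 0
  have h2 := hy 1
  rw [← hα, ← hβ] at h1 h2
  simp only [eval_C] at h1 h2
  have h3 : y 1 = y 2 := mul_right_cancel₀ h1.1 (by rw [h1.2, h2.2])
  have := hyi h3
  omega

theorem plane_R (hN : NFTStatement) : PlaneR := by
  intro f A B a y hcop hy ha hyi P hP
  by_cases hinf : {n | P.evalEval (orb f n a) (y n) = 0}.Infinite
  swap
  · exact ep_of_finite (Set.not_infinite.1 hinf)
  have hf1 : 1 ≤ f.natDegree := by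
    by_contra h0
    have h1 : f.natDegree = 0 := by omega
    obtain ⟨c, hc⟩ := natDegree_eq_zero.1 h1
    have h2 : ∀ n, orb f (n + 1) a = c := fun n => by rw [orb_succ, ← hc, eval_C]
    have h3 : (1 : ℕ) = 2 := ha (by simp only; rw [h2 0, h2 1])
    omega
  have hD1 := degR_pos hy hyi
  have hPY := natDegree_pos_of_infinite hP.ne_zero ha hinf
  have hPX := degX_pos_of_infinite hP.ne_zero hyi hinf
  by_cases hne : max A.natDegree B.natDegree = f.natDegree
  swap
  · exact absurd (uneq_R hf1 hcop hD1 hne hy ha hP hPX hPY) hinf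
  rcases Nat.lt_or_ge f.natDegree 2 with h2 | h2
  · exact moebius_ep (by omega) hcop (by omega) a hy P
  · obtain ⟨m, hm, hs⟩ := plane_equal_R hN h2 hcop hne hy ha hyi hP hinf
    exact ep_of_stable hm hs

end Pool.Agent.Helper59.PR
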